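import Pool.Agent.Lib.H37C.Defs

open TopologicalSpace Set Filter Topology

namespace Pool.Agent.Lib.H37C

open Cardinal in
/-- an uncountable well-order with countable initial segments -/
theorem b1_order : ∃ (W : Type) (_ : LinearOrder W) (_ : WellFoundedLT W), ¬ Countable W ∧
    ∀ w : W, Countable (Set.Iio w) := by
  refine ⟨(ℵ₁).ord.ToType, inferInstance, inferInstance, ?_, fun w => ?_⟩
  · rw [← Cardinal.mk_le_aleph0_iff, Cardinal.mk_ord_toType, not_le]
    exact Cardinal.aleph0_lt_aleph_one
  · rw [← Cardinal.mk_le_aleph0_iff, ← Cardinal.lt_aleph_one_iff]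
    exact Cardinal.mk_Iio_toType_ord_lt w

/-- the derived sets indexed by a well-order -/
noncomputable def b1_R {Z : Type*} [TopologicalSpace Z] (X : Set Z) {W : Type} [LinearOrder W]
    [WellFoundedLT W] : W → Set Z :=
  WellFounded.fix (wellFounded_lt (α := W)) (fun w F => {x | x ∈ X ∧
    ∀ (w' : W) (h : w' < w), AccX X (F w' h) x})

theorem b1_eq {Z : Type*} [TopologicalSpace Z] (X : Set Z) {W : Type} [LinearOrder W]
    [WellFoundedLT W] (w : W) :
    b1_R X w = {x | x ∈ X ∧ ∀ w' : W, w' < w → AccX X (b1_R X w') x} := by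
  unfold b1_R
  rw [WellFounded.fix_eq]

theorem b1_mono {Z : Type*} [TopologicalSpace Z] {X S T : Set Z} (h : S ⊆ T) {x : Z}
    (hx : AccX X S x) : AccX X T x :=
  closure_mono (diff_subset_diff_left h) hx

/-- **B1.** For a subset `X` of a second countable space there is a countable well-order `B₀` such
that all points of rank `B₀` are in the kernel.

Proof. Define by transfinite recursion on the ordinals `R α = {x ∈ X | ∀ α' < α, AccX X (R α') x}`
(`WellFoundedLT.fix` / `WellFounded.fix`). For `α ≤ α'`, `R α' ⊆ R α`. Claim: there is a countable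
ordinal `β` with `R β ⊆ R (β+1)`. Otherwise for each `α < ω₁` there is `x α ∈ R α \ R (α+1)`; so
`¬ AccX X (R α) (x α)` (the conditions for `α' < α` hold), and there is a member `U (i α)` of a countable
basis with `x α ∈ U (i α)` and `U (i α) ∩ R α ⊆ C (x α)`, `C` the component in `X`. The map `i` is
injective on the countable ordinals: if `α < α'` and `i α = i α'`, then
`x α' ∈ R α' ⊆ R α` and `x α' ∈ U (i α)`, so `x α' ∈ C (x α)` and `C (x α') = C (x α)`
(`connectedComponentIn_eq`); but `x α' ∈ R α'` and `α < α'` give `AccX X (R α) (x α')`, so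
`U (i α)` contains a point of `R α \ C (x α')`, a contradiction. There are uncountably many
countable ordinals, a contradiction. (`Cardinal.mk_Iio_ordinal`, `Ordinal.omega_one`,
`Ordinal.ToType`, `Cardinal.aleph`...)
So `R β` is `SelfAcc`. Let `B₀ = β.ToType` (countable) with its order. If `R'` is a good family over
`B₀` then, by induction, `R' b ⊆ R (typein b)`; and if all `AccX X (R' b) x`, `x ∈ X`, then
`x ∈ R β`: take `D = R β`. -/
theorem exists_prefix {Z : Type*} [TopologicalSpace Z] [SecondCountableTopology Z] (X : Set Z) :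
    ∃ (B₀ : Type) (r₀ : B₀ → B₀ → Prop), Countable B₀ ∧ IsStrictTotalOrder B₀ r₀ ∧
      WellFounded r₀ ∧ ∀ R : B₀ → Set Z, GoodFam X r₀ R → ∀ x ∈ X, (∀ b, AccX X (R b) x) →
        ∃ D, SelfAcc X D ∧ x ∈ D := by
  classical
  obtain ⟨W, hW1, hW2, hW3, hW4⟩ := b1_order
  obtain ⟨b, hbc, -, hb⟩ := TopologicalSpace.exists_countable_basis Z
  have hst : ∃ β : W, ∀ x ∈ b1_R X β, AccX X (b1_R X β) x := by
    by_contra hcon
    push Not at hcon
    choose x hx hx' using hcon
    have hU : ∀ β : W, ∃ U ∈ b, x β ∈ U ∧ ∀ y ∈ U, y ∈ b1_R X β →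
        y ∈ connectedComponentIn X (x β) := by
      intro β
      have h1 := hx' β
      unfold AccX at h1
      rw [hb.mem_closure_iff] at h1
      push Not at h1
      obtain ⟨U, hU1, hU2, hU3⟩ := h1
      refine ⟨U, hU1, hU2, fun y hy1 hy2 => ?_⟩
      by_contra hy3
      exact absurd hU3 (Set.Nonempty.ne_empty ⟨y, hy1, hy2, hy3⟩)
    choose U hU1 hU2 hU3 using hU
    have hinj : Function.Injective (fun β : W => (⟨U β, hU1 β⟩ : b)) := by
      have key : ∀ β γ : W, β < γ → U β ≠ U γ := by
        intro β γ hβγ hUU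
        have h1 : x γ ∈ b1_R X γ := hx γ
        rw [b1_eq] at h1
        have h2 : x γ ∈ b1_R X β := by
          rw [b1_eq]
          exact ⟨h1.1, fun w' hw' => h1.2 w' (hw'.trans hβγ)⟩
        have h3 : x γ ∈ connectedComponentIn X (x β) :=
          hU3 β _ (hUU ▸ hU2 γ) h2
        have h4 : connectedComponentIn X (x β) = connectedComponentIn X (x γ) :=
          connectedComponentIn_eq h3
        have h5 := h1.2 β hβγ
        unfold AccX at h5
        rw [hb.mem_closure_iff] at h5
        obtain ⟨y, hy1, hy2, hy3⟩ := h5 (U β) (hU1 β) (hUU ▸ hU2 γ)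
        apply hy3
        rw [← h4]
        exact hU3 β y hy1 hy2
      intro β γ h
      have h1 : U β = U γ := congrArg Subtype.val h
      rcases lt_trichotomy β γ with h2 | h2 | h2
      · exact absurd h1 (key β γ h2)
      · exact h2
      · exact absurd h1.symm (key γ β h2)
    have : Countable b := hbc
    exact hW3 hinj.countable
  obtain ⟨β, hβ⟩ := hst
  refine ⟨Set.Iio β, (· < ·), hW4 β, inferInstance, wellFounded_lt, ?_⟩
  intro R hR x hx hacc
  have hsub : ∀ w : Set.Iio β, R w ⊆ b1_R X (w : W) := by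
    intro w
    induction w using (wellFounded_lt (α := Set.Iio β)).induction with
    | _ w ih =>
      intro y hy
      rw [b1_eq]
      refine ⟨(hR w y hy).1, fun w' hw' => ?_⟩
      have hw'β : w' < β := hw'.trans w.2
      exact b1_mono (ih ⟨w', hw'β⟩ hw') ((hR w y hy).2 ⟨w', hw'β⟩ hw')
  refine ⟨b1_R X β, ⟨fun y hy => ?_, hβ⟩, ?_⟩
  · rw [b1_eq] at hy
    exact hy.1
  · rw [b1_eq]
    exact ⟨hx, fun w' hw' => b1_mono (hsub ⟨w', hw'⟩) (hacc ⟨w', hw'⟩)⟩

end Pool.Agent.Lib.H37C
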