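import Mathlib

open TopologicalSpace Set Filter Topology

namespace Pool.Agent.Lib.H37C

/-- the orbit of `0` exhausts the line -/
theorem c1_exists (U : ℝ ≃o ℝ) (hU : ∀ x, x < U x) (x : ℝ) :
    ∃ k : ℤ, (U ^ k) 0 ≤ x ∧ x < (U ^ (k + 1)) 0 := by
  have hcont : Continuous U := U.continuous
  have hmono : StrictMono (fun k : ℤ => (U ^ k) 0) := by
    refine strictMono_int_of_lt_succ fun k => ?_
    show (U ^ k) 0 < (U ^ (k + 1)) 0
    have : (U ^ (k + 1)) 0 = U ((U ^ k) 0) := by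
      rw [zpow_add_one, ← (Commute.self_zpow U k).eq]
      rfl
    rw [this]
    exact hU _
  -- unbounded above
  have habove : ∀ x, ∃ k : ℤ, x < (U ^ k) 0 := by
    intro x
    by_contra hcon
    push Not at hcon
    have hb : BddAbove (range (fun n : ℕ => (U ^ (n : ℤ)) 0)) := ⟨x, by
      rintro _ ⟨n, rfl⟩; exact hcon n⟩
    have hm : Monotone (fun n : ℕ => (U ^ (n : ℤ)) 0) := fun a b h =>
      hmono.monotone (by exact_mod_cast h)
    have hlim := tendsto_atTop_ciSup hm hb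
    set p := ⨆ n : ℕ, (U ^ (n : ℤ)) 0
    have h1 : Tendsto (fun n : ℕ => U ((U ^ (n : ℤ)) 0)) atTop (𝓝 (U p)) :=
      (hcont.tendsto p).comp hlim
    have h2 : Tendsto (fun n : ℕ => (U ^ ((n + 1 : ℕ) : ℤ)) 0) atTop (𝓝 p) :=
      hlim.comp (tendsto_add_atTop_nat 1)
    have h3 : (fun n : ℕ => (U ^ ((n + 1 : ℕ) : ℤ)) 0) = fun n : ℕ => U ((U ^ (n : ℤ)) 0) := by
      funext n
      rw [Nat.cast_succ, zpow_add_one, ← (Commute.self_zpow U (n : ℤ)).eq]
      rfl
    rw [h3] at h2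
    exact absurd (tendsto_nhds_unique h1 h2) (hU p).ne'
  have hbelow : ∀ x, ∃ k : ℤ, (U ^ k) 0 ≤ x := by
    intro x
    by_contra hcon
    push Not at hcon
    have hb : BddBelow (range (fun n : ℕ => (U ^ (-(n : ℤ))) 0)) := ⟨x, by
      rintro _ ⟨n, rfl⟩; exact (hcon _).le⟩
    have hm : Antitone (fun n : ℕ => (U ^ (-(n : ℤ))) 0) := fun a b h =>
      hmono.monotone (by simpa using h)
    have hlim := tendsto_atTop_ciInf hm hb
    set p := ⨅ n : ℕ, (U ^ (-(n : ℤ))) 0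
    have h1 : Tendsto (fun n : ℕ => U ((U ^ (-((n + 1 : ℕ) : ℤ))) 0)) atTop (𝓝 (U p)) :=
      (hcont.tendsto p).comp (hlim.comp (tendsto_add_atTop_nat 1))
    have h3 : (fun n : ℕ => U ((U ^ (-((n + 1 : ℕ) : ℤ))) 0)) = fun n : ℕ => (U ^ (-(n : ℤ))) 0 := by
      funext n
      have : (U ^ (-(n : ℤ))) = U * (U ^ (-((n + 1 : ℕ) : ℤ))) := by
        rw [← zpow_one_add]
        congr 1
        push_cast
        ring
      rw [this]
      rfl
    rw [h3] at h1
    exact absurd (tendsto_nhds_unique h1 hlim) (hU p).ne'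
  obtain ⟨k₀, hk₀⟩ := habove x
  obtain ⟨k₁, hk₁⟩ := hbelow x
  have hex : ∃ k : ℤ, (U ^ k) 0 ≤ x ∧ ∀ z : ℤ, (U ^ z) 0 ≤ x → z ≤ k := by
    refine Int.exists_greatest_of_bdd ⟨k₀, fun z hz => ?_⟩ ⟨k₁, hk₁⟩
    by_contra h
    exact absurd (hz.trans_lt hk₀) (not_lt.2 (hmono.monotone (not_le.1 h).le))
  obtain ⟨k, hk, hmax⟩ := hex
  refine ⟨k, hk, ?_⟩
  by_contra h
  have := hmax (k + 1) (not_lt.1 h)
  omega

/-- **C1.** An increasing homeomorphism of the real line without fixed points (moving all points to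
the right) is conjugate to the translation by `1`.

Proof. `U ^ k` (`k : ℤ`, the group `ℝ ≃o ℝ`). Let `x₀ = 0`, `x_k = (U ^ k) 0`, strictly increasing.
For each `x` there is `k` with `x_k ≤ x < x_{k+1}`: otherwise the sequence `x_k` (`k → ∞` or
`k → -∞`) is bounded, converges to a point `p`, and `U p = p` by continuity, a contradiction. For such
`k` put `A x = k + (U ^ (-k) x - x₀) / (x₁ - x₀) ∈ [k, k+1)`. `A` is strictly increasing (compare the
integer parts, then the fractional parts) and surjective (`s = k + θ`, `x = U ^ k (x₀ + θ (x₁ - x₀))`),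
so an order isomorphism (`StrictMono.orderIsoOfSurjective`), and `A (U x) = A x + 1`. -/
theorem abel (U : ℝ ≃o ℝ) (hU : ∀ x, x < U x) : ∃ A : ℝ ≃o ℝ, ∀ x, A (U x) = A x + 1 := by
  have hmono : StrictMono (fun k : ℤ => (U ^ k) 0) := by
    refine strictMono_int_of_lt_succ fun k => ?_
    show (U ^ k) 0 < (U ^ (k + 1)) 0
    have : (U ^ (k + 1)) 0 = U ((U ^ k) 0) := by
      rw [zpow_add_one, ← (Commute.self_zpow U k).eq]
      rfl
    rw [this]
    exact hU _
  choose k hk1 hk2 using c1_exists U hU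
  have huniq : ∀ x (j : ℤ), (U ^ j) 0 ≤ x → x < (U ^ (j + 1)) 0 → k x = j := by
    intro x j h1 h2
    have h3 : j < k x + 1 := hmono.lt_iff_lt.1 (h1.trans_lt (hk2 x))
    have h4 : k x < j + 1 := hmono.lt_iff_lt.1 ((hk1 x).trans_lt h2)
    omega
  have hc : 0 < U 0 := hU 0
  have hUU : ∀ (j : ℤ) (y : ℝ), (U ^ j) ((U ^ (-j)) y) = y := by
    intro j y
    have : (U ^ j) * (U ^ (-j)) = 1 := by rw [← zpow_add, add_neg_cancel, zpow_zero]
    exact DFunLike.congr_fun this y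
  have hUU' : ∀ (j : ℤ) (y : ℝ), (U ^ (-j)) ((U ^ j) y) = y := by
    intro j y
    have : (U ^ (-j)) * (U ^ j) = 1 := by rw [← zpow_add, neg_add_cancel, zpow_zero]
    exact DFunLike.congr_fun this y
  have hUs : ∀ (j : ℤ) (y : ℝ), (U ^ (j + 1)) y = (U ^ j) (U y) := by
    intro j y
    rw [zpow_add_one]
    rfl
  have hUs' : ∀ (j : ℤ) (y : ℝ), (U ^ (j + 1)) y = U ((U ^ j) y) := by
    intro j y
    rw [zpow_add_one, ← (Commute.self_zpow U j).eq]
    rfl
  let A : ℝ → ℝ := fun x => k x + (U ^ (-k x)) x / U 0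
  have hfrac1 : ∀ x, 0 ≤ (U ^ (-k x)) x := by
    intro x
    have h1 := (U ^ (-k x)).monotone (hk1 x)
    rwa [hUU'] at h1
  have hfrac2 : ∀ x, (U ^ (-k x)) x < U 0 := by
    intro x
    have h1 := (U ^ (-k x)).strictMono (hk2 x)
    rwa [hUs, hUU'] at h1
  have hA1 : ∀ x, (k x : ℝ) ≤ A x := fun x => by
    have := div_nonneg (hfrac1 x) hc.le
    show (k x : ℝ) ≤ k x + _
    linarith
  have hA2 : ∀ x, A x < k x + 1 := fun x => by
    have := (div_lt_one hc).2 (hfrac2 x)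
    show (k x : ℝ) + _ < k x + 1
    linarith
  have hAm : StrictMono A := by
    intro x y hxy
    have hkk : k x ≤ k y := by
      by_contra h
      have h1 : k y + 1 ≤ k x := by omega
      have h2 := hmono.monotone h1
      have h3 := hk2 y
      have h4 := hk1 x
      have h5 : y < x := h3.trans_le (h2.trans h4)
      linarith
    rcases hkk.lt_or_eq with h | h
    · have h1 : (k x : ℝ) + 1 ≤ k y := by exact_mod_cast h
      exact (hA2 x).trans_le (h1.trans (hA1 y))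
    · show (k x : ℝ) + (U ^ (-k x)) x / U 0 < k y + (U ^ (-k y)) y / U 0
      rw [← h]
      have h1 := (U ^ (-k x)).strictMono hxy
      have h2 := div_lt_div_of_pos_right h1 hc
      linarith
  have hAs : Function.Surjective A := by
    intro s
    set θ := Int.fract s
    have hθ0 : 0 ≤ θ := Int.fract_nonneg s
    have hθ1 : θ < 1 := Int.fract_lt_one s
    refine ⟨(U ^ ⌊s⌋) (θ * U 0), ?_⟩
    have h1 : (U ^ ⌊s⌋) 0 ≤ (U ^ ⌊s⌋) (θ * U 0) :=
      (U ^ ⌊s⌋).monotone (mul_nonneg hθ0 hc.le)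
    have h2 : (U ^ ⌊s⌋) (θ * U 0) < (U ^ (⌊s⌋ + 1)) 0 := by
      rw [hUs]
      apply (U ^ ⌊s⌋).strictMono
      nlinarith
    have h3 := huniq _ _ h1 h2
    show (k ((U ^ ⌊s⌋) (θ * U 0)) : ℝ) + _ / U 0 = s
    rw [h3, hUU', mul_div_cancel_right₀ _ hc.ne']
    exact Int.floor_add_fract s
  refine ⟨StrictMono.orderIsoOfSurjective A hAm hAs, fun x => ?_⟩
  show A (U x) = A x + 1
  have h1 : (U ^ (k x + 1)) 0 ≤ U x := by
    rw [hUs']; exact U.monotone (hk1 x)
  have h2 : U x < (U ^ (k x + 1 + 1)) 0 := by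
    rw [hUs']; exact U.strictMono (hk2 x)
  have h3 := huniq _ _ h1 h2
  show (k (U x) : ℝ) + (U ^ (-k (U x))) (U x) / U 0 = k x + (U ^ (-k x)) x / U 0 + 1
  rw [h3]
  have h4 : (U ^ (-(k x + 1))) (U x) = (U ^ (-k x)) x := by
    have : -k x = -(k x + 1) + 1 := by ring
    rw [this, hUs]
  rw [h4]
  push_cast
  ring

end Pool.Agent.Lib.H37C
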