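import Pool.Agent.Lib.H37C.C1

open TopologicalSpace Set Filter Topology

namespace Pool.Agent.Lib.H37C

/-- an order isomorphism between the unit interval and the line -/
theorem c2_iso : Nonempty (Ioo (0 : ℝ) 1 ≃o ℝ) := by
  let f : ℝ ≃o ℝ :=
    { toFun := fun x => (x + 1) / 2
      invFun := fun y => 2 * y - 1
      left_inv := fun x => by ring
      right_inv := fun y => by ring
      map_rel_iff' := by
        intro a b
        simp only [Equiv.coe_fn_mk]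
        constructor <;> intro h <;> linarith }
  have hf : ∀ x, x ∈ Ioo (-1 : ℝ) 1 ↔ f x ∈ Ioo (0 : ℝ) 1 := by
    intro x
    show _ ↔ (x + 1) / 2 ∈ _
    simp only [mem_Ioo]
    constructor <;> rintro ⟨h1, h2⟩ <;> constructor <;> linarith
  let g : Ioo (-1 : ℝ) 1 ≃o Ioo (0 : ℝ) 1 :=
    { toEquiv := f.toEquiv.subtypeEquiv hf
      map_rel_iff' := by
        rintro ⟨a, ha⟩ ⟨b, hb⟩
        exact f.le_iff_le }
  exact ⟨((orderIsoIooNegOneOne ℝ).trans g).symm⟩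

theorem c2_restrict (U : ℝ ≃o ℝ) (hU0 : ∀ y ∉ Ioo (0 : ℝ) 1, U y = y) :
    ∃ U' : Ioo (0 : ℝ) 1 ≃o Ioo (0 : ℝ) 1, ∀ y, (U' y : ℝ) = U y := by
  have h0 : U 0 = 0 := hU0 0 (by simp)
  have h1 : U 1 = 1 := hU0 1 (by simp)
  have hU : ∀ x, x ∈ Ioo (0 : ℝ) 1 ↔ U x ∈ Ioo (0 : ℝ) 1 := by
    intro x
    constructor
    · rintro ⟨a, b⟩
      exact ⟨h0 ▸ U.strictMono a, h1 ▸ U.strictMono b⟩
    · intro h
      by_contra hx
      rw [hU0 x hx] at h
      exact hx h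
  exact ⟨{ toEquiv := U.toEquiv.subtypeEquiv hU
           map_rel_iff' := by
            rintro ⟨a, ha⟩ ⟨b, hb⟩
            exact U.le_iff_le }, fun y => rfl⟩

theorem c2_extend (G' : Ioo (0 : ℝ) 1 ≃o Ioo (0 : ℝ) 1) :
    ∃ G : ℝ ≃o ℝ, (∀ y ∉ Ioo (0 : ℝ) 1, G y = y) ∧ ∀ y : Ioo (0 : ℝ) 1, G y = G' y := by
  classical
  let G : ℝ → ℝ := fun y => if h : y ∈ Ioo (0 : ℝ) 1 then (G' ⟨y, h⟩ : ℝ) else y
  have hG0 : ∀ y ∉ Ioo (0 : ℝ) 1, G y = y := fun y hy => by simp only [G, dif_neg hy]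
  have hG1 : ∀ y : Ioo (0 : ℝ) 1, G y = G' y := fun y => by
    simp only [G, dif_pos y.2]
  have hm : StrictMono G := by
    intro x y hxy
    by_cases hx : x ∈ Ioo (0 : ℝ) 1
    · have e1 : G x = G' ⟨x, hx⟩ := hG1 ⟨x, hx⟩
      by_cases hy : y ∈ Ioo (0 : ℝ) 1
      · have e2 : G y = G' ⟨y, hy⟩ := hG1 ⟨y, hy⟩
        rw [e1, e2]
        exact G'.strictMono (show (⟨x, hx⟩ : Ioo (0 : ℝ) 1) < ⟨y, hy⟩ from hxy)
      · rw [e1, hG0 y hy]
        have h3 : 1 ≤ y := by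
          by_contra h4
          exact hy ⟨hx.1.trans hxy, not_le.1 h4⟩
        exact (G' ⟨x, hx⟩).2.2.trans_le h3
    · rw [hG0 x hx]
      by_cases hy : y ∈ Ioo (0 : ℝ) 1
      · have e2 : G y = G' ⟨y, hy⟩ := hG1 ⟨y, hy⟩
        rw [e2]
        have h3 : x ≤ 0 := by
          by_contra h4
          exact hx ⟨not_le.1 h4, hxy.trans hy.2⟩
        exact h3.trans_lt (G' ⟨y, hy⟩).2.1
      · rw [hG0 y hy]; exact hxy
  have hs : Function.Surjective G := by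
    intro z
    by_cases hz : z ∈ Ioo (0 : ℝ) 1
    · refine ⟨G'.symm ⟨z, hz⟩, ?_⟩
      rw [hG1, G'.apply_symm_apply]
    · exact ⟨z, hG0 z hz⟩
  exact ⟨StrictMono.orderIsoOfSurjective G hm hs, hG0, hG1⟩

/-- **C2.** Two increasing homeomorphisms of the line which are the identity outside `(0,1)` and move
the points of `(0,1)` to the right are conjugate by a homeomorphism of the same kind.

Proof: there is an order isomorphism `Ioo 0 1 ≃o ℝ` (e.g. from `orderIsoIooNegOneOne` of Mathlib and an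
affine map, or `x ↦ (2x-1)/(x(1-x))`). `U` and `V` map `Ioo 0 1` onto itself; transport to `ℝ`, apply
`abel` to both, and put `G = A_V⁻¹ ∘ A_U` on `Ioo 0 1`, the identity outside; `G` is strictly
increasing and surjective (`StrictMono.orderIsoOfSurjective`). -/
theorem gap_conj (U V : ℝ ≃o ℝ) (hU0 : ∀ y ∉ Ioo (0 : ℝ) 1, U y = y)
    (hU1 : ∀ y ∈ Ioo (0 : ℝ) 1, y < U y) (hV0 : ∀ y ∉ Ioo (0 : ℝ) 1, V y = y)
    (hV1 : ∀ y ∈ Ioo (0 : ℝ) 1, y < V y) :
    ∃ G : ℝ ≃o ℝ, (∀ y ∉ Ioo (0 : ℝ) 1, G y = y) ∧ ∀ y, G (U y) = V (G y) := by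
  obtain ⟨E⟩ := c2_iso
  obtain ⟨U', hU'⟩ := c2_restrict U hU0
  obtain ⟨V', hV'⟩ := c2_restrict V hV0
  obtain ⟨A, hA⟩ := abel (E.symm.trans (U'.trans E)) (fun x => by
    show x < E (U' (E.symm x))
    have h1 : E.symm x < U' (E.symm x) := by
      show ((E.symm x : Ioo (0 : ℝ) 1) : ℝ) < U' (E.symm x)
      rw [hU']
      exact hU1 _ (E.symm x).2
    have h2 := E.strictMono h1
    rwa [E.apply_symm_apply] at h2)
  obtain ⟨B, hB⟩ := abel (E.symm.trans (V'.trans E)) (fun x => by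
    show x < E (V' (E.symm x))
    have h1 : E.symm x < V' (E.symm x) := by
      show ((E.symm x : Ioo (0 : ℝ) 1) : ℝ) < V' (E.symm x)
      rw [hV']
      exact hV1 _ (E.symm x).2
    have h2 := E.strictMono h1
    rwa [E.apply_symm_apply] at h2)
  have hA' : ∀ y : Ioo (0 : ℝ) 1, A (E (U' y)) = A (E y) + 1 := by
    intro y
    have := hA (E y)
    simpa using this
  have hB' : ∀ y : Ioo (0 : ℝ) 1, B (E (V' y)) = B (E y) + 1 := by
    intro y
    have := hB (E y)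
    simpa using this
  let G' : Ioo (0 : ℝ) 1 ≃o Ioo (0 : ℝ) 1 := E.trans (A.trans (B.symm.trans E.symm))
  have hG' : ∀ y, G' y = E.symm (B.symm (A (E y))) := fun y => rfl
  have hconj : ∀ y, G' (U' y) = V' (G' y) := by
    intro y
    apply E.injective
    apply B.injective
    rw [hB', hG', hG', E.apply_symm_apply, E.apply_symm_apply, B.apply_symm_apply,
      B.apply_symm_apply, hA']
  obtain ⟨G, hG0, hG1⟩ := c2_extend G'
  refine ⟨G, hG0, fun y => ?_⟩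
  by_cases hy : y ∈ Ioo (0 : ℝ) 1
  · have e1 : U y = U' ⟨y, hy⟩ := (hU' ⟨y, hy⟩).symm
    have e2 : G y = G' ⟨y, hy⟩ := hG1 ⟨y, hy⟩
    rw [e1, e2, hG1, hconj, hV']
  · rw [hU0 y hy, hG0 y hy, hV0 y hy]

end Pool.Agent.Lib.H37C
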