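import Pool.Agent.Lib.H37C.Defs

open TopologicalSpace Set Filter Topology

namespace Pool.Agent.Lib.H37C

/-- **K0.** The weights `2^(-i-1)` are positive and have the sum `1`. -/
theorem wt_pos (i : ℕ) : 0 < wt i := by
  unfold wt; positivity

theorem hasSum_wt : HasSum wt 1 := by
  have h := hasSum_geometric_two' (1 : ℝ)
  convert h using 1
  funext i
  unfold wt
  rw [pow_succ, div_pow, one_pow]
  field_simp

/-- sums over sets of indices -/
theorem summable_ind (I : Set ℕ) : Summable (I.indicator wt) :=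
  hasSum_wt.summable.indicator I

/-- The total length of the gaps in `I`. -/
noncomputable def pt (I : Set ℕ) : ℝ := ∑' i, I.indicator wt i

theorem pt_nonneg (I : Set ℕ) : 0 ≤ pt I :=
  tsum_nonneg fun i => Set.indicator_nonneg (fun j _ => (wt_pos j).le) i

theorem pt_mono {I J : Set ℕ} (h : I ⊆ J) : pt I ≤ pt J :=
  (summable_ind I).tsum_le_tsum (fun i =>
    Set.indicator_le_indicator_of_subset h (fun j => (wt_pos j).le) i) (summable_ind J)

theorem k0_union {I J : Set ℕ} (h : Disjoint I J) : pt (I ∪ J) = pt I + pt J := by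
  unfold pt
  rw [← (summable_ind I).tsum_add (summable_ind J)]
  congr 1
  funext i
  rw [Set.indicator_union_of_disjoint h]

theorem k0_single (i : ℕ) : pt {i} = wt i := by
  unfold pt
  rw [tsum_eq_single i]
  · simp
  · intro j hj
    simp [hj]

/-- an element of `J` outside `I` makes the difference at least its weight -/
theorem pt_add_le {I J : Set ℕ} (h : I ⊆ J) {i : ℕ} (hi : i ∈ J) (hi' : i ∉ I) :
    pt I + wt i ≤ pt J := by
  rw [← k0_single i, ← k0_union (by simpa using hi')]
  exact pt_mono (union_subset h (by simpa using hi))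

theorem pt_compl (I : Set ℕ) : pt I + pt Iᶜ = 1 := by
  rw [← k0_union disjoint_compl_right, union_compl_self]
  unfold pt
  rw [Set.indicator_univ]
  exact hasSum_wt.tsum_eq

theorem pt_le_one (I : Set ℕ) : pt I ≤ 1 := by
  have h1 := pt_compl I
  have h2 := pt_nonneg Iᶜ
  linarith

/-- a finite part of `I` carries most of the length -/
theorem exists_finset_pt (I : Set ℕ) {ε : ℝ} (hε : 0 < ε) :
    ∃ F : Finset ℕ, ↑F ⊆ I ∧ pt I - ε < pt (F : Set ℕ) := by
  classical
  have h := (summable_ind I).hasSum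
  have h1 : ∀ᶠ F : Finset ℕ in atTop, pt I - ε < ∑ i ∈ F, I.indicator wt i :=
    h.eventually (lt_mem_nhds (sub_lt_self _ hε))
  obtain ⟨F, hF⟩ := h1.exists
  refine ⟨F.filter (· ∈ I), fun i hi => (Finset.mem_filter.1 hi).2, hF.trans_le (le_of_eq ?_)⟩
  unfold pt
  rw [tsum_eq_sum (s := F.filter (· ∈ I))]
  · rw [Finset.sum_filter]
    refine Finset.sum_congr rfl fun i hi => ?_
    by_cases h2 : i ∈ I
    · simp [h2, hi]
    · simp [h2]
  · intro i hi
    rw [Set.indicator_of_notMem]
    exact hi

theorem lend_eq_pt (lt : ℕ → ℕ → Prop) (i : ℕ) : lend lt i = pt {j | lt j i} := rfl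

theorem lend_nonneg (lt : ℕ → ℕ → Prop) (i : ℕ) : 0 ≤ lend lt i := pt_nonneg _

section

variable {lt : ℕ → ℕ → Prop} [IsStrictTotalOrder ℕ lt]

/-- `lend i + wt i` is the total length of the gaps `≤ i` -/
theorem lend_add (i : ℕ) : lend lt i + wt i = pt {j | j = i ∨ lt j i} := by
  rw [lend_eq_pt, ← k0_single i, ← k0_union]
  · congr 1
    ext j
    simp [or_comm]
  · rw [Set.disjoint_singleton_right]
    exact irrefl_of lt i

theorem lend_add_le_one (i : ℕ) : lend lt i + wt i ≤ 1 := by
  rw [lend_add]; exact pt_le_one _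

/-- the gaps are ordered as the indices -/
theorem lend_add_le {i j : ℕ} (h : lt i j) : lend lt i + wt i ≤ lend lt j := by
  rw [lend_add, lend_eq_pt]
  refine pt_mono ?_
  rintro k (hk | hk)
  · subst hk; exact h
  · exact _root_.trans hk h

end

end Pool.Agent.Lib.H37C
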