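import Pool.Agent.Lib.H37C.Defs
import Pool.Agent.Lib.H37C.K0

open TopologicalSpace Set Filter Topology

namespace Pool.Agent.Lib.H37C

variable {lt : ℕ → ℕ → Prop} [IsStrictTotalOrder ℕ lt]

/-- the gaps to the left of the point `k` -/
def below (lt : ℕ → ℕ → Prop) (k : ℝ) : Set ℕ := {i | lend lt i + wt i ≤ k}

theorem k1_max (F : Finset ℕ) (hF : F.Nonempty) : ∃ i ∈ F, ∀ j ∈ F, j = i ∨ lt j i := by
  classical
  induction hF using Finset.Nonempty.cons_induction with
  | singleton a => exact ⟨a, by simp, by simp⟩
  | cons a F ha hF ih =>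
    obtain ⟨i, hi, hmax⟩ := ih
    rcases trichotomous_of lt a i with h | h | h
    · refine ⟨i, by simp [hi], fun j hj => ?_⟩
      rw [Finset.mem_cons] at hj
      rcases hj with rfl | hj
      · exact Or.inr h
      · exact hmax j hj
    · refine ⟨i, by simp [hi], fun j hj => ?_⟩
      rw [Finset.mem_cons] at hj
      rcases hj with rfl | hj
      · exact Or.inl h
      · exact hmax j hj
    · refine ⟨a, by simp, fun j hj => ?_⟩
      rw [Finset.mem_cons] at hj
      rcases hj with rfl | hj
      · exact Or.inl rfl
      · rcases hmax j hj with h1 | h1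
        · rw [h1]; exact Or.inr h
        · exact Or.inr (_root_.trans h1 h)

theorem k1_min (F : Finset ℕ) (hF : F.Nonempty) : ∃ i ∈ F, ∀ j ∈ F, j = i ∨ lt i j := by
  have : IsStrictTotalOrder ℕ (fun a b => lt b a) :=
    { trichotomous := fun a b h1 h2 => by
        rcases trichotomous_of lt a b with h | h | h
        · exact absurd h h2
        · exact h
        · exact absurd h h1
      irrefl := fun a => irrefl_of lt a
      trans := fun a b c h1 h2 => _root_.trans h2 h1 }
  exact k1_max (lt := fun a b => lt b a) F hF

/-- **K1.** A point of `Kset` is the total length of the gaps to the left of it.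

Proof: `I = below lt k` is an initial segment of the order. Each finite subset `F` of `I` has total
length at most `k`: if `i` is its largest element, `pt F ≤ pt {j | j = i ∨ lt j i} =
lend i + wt i ≤ k` (`lend_add`, `pt_mono`); so `pt I ≤ k` by `exists_finset_pt`. The indices `i`
outside `I` satisfy `k ≤ lend i` (definition of `Kset`); for a finite set `F` of such indices with
least element `i`: `pt F ≤ pt {j | ¬ lt j i} = 1 - lend i ≤ 1 - k` (`pt_compl`). So `pt Iᶜ ≤ 1 - k`,
and `pt I + pt Iᶜ = 1` gives equality. -/
theorem pt_below {k : ℝ} (hk : k ∈ Kset lt) : pt (below lt k) = k := by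
  classical
  obtain ⟨hk0, hk1, hk2⟩ := hk
  -- finite subsets to the left
  have key : ∀ F : Finset ℕ, (↑F : Set ℕ) ⊆ below lt k → pt (F : Set ℕ) ≤ k := by
    intro F hF
    rcases F.eq_empty_or_nonempty with rfl | hne
    · simpa [pt] using hk0
    · obtain ⟨i, hi, hmax⟩ := k1_max (lt := lt) F hne
      calc pt (F : Set ℕ) ≤ pt {j | j = i ∨ lt j i} := pt_mono fun j hj => hmax j hj
        _ = lend lt i + wt i := (lend_add i).symm
        _ ≤ k := hF hi
  have key' : ∀ F : Finset ℕ, (↑F : Set ℕ) ⊆ (below lt k)ᶜ → pt (F : Set ℕ) ≤ 1 - k := by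
    intro F hF
    rcases F.eq_empty_or_nonempty with rfl | hne
    · have : pt ((∅ : Finset ℕ) : Set ℕ) = 0 := by simp [pt]
      rw [this]; linarith
    · obtain ⟨i, hi, hmin⟩ := k1_min (lt := lt) F hne
      have h1 : k ≤ lend lt i := (hk2 i).resolve_right (hF hi)
      have h2 : pt (F : Set ℕ) ≤ pt {j | lt j i}ᶜ := pt_mono fun j hj => by
        rcases hmin j hj with h3 | h3
        · subst h3; exact irrefl_of lt _
        · exact asymm_of lt h3
      have h3 := pt_compl {j | lt j i}
      rw [← lend_eq_pt] at h3
      linarith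
  have h1 : pt (below lt k) ≤ k := by
    by_contra h
    obtain ⟨F, hF, hF'⟩ := exists_finset_pt (below lt k) (sub_pos.2 (not_le.1 h))
    have := key F hF
    linarith
  have h2 : pt (below lt k)ᶜ ≤ 1 - k := by
    by_contra h
    obtain ⟨F, hF, hF'⟩ := exists_finset_pt (below lt k)ᶜ (sub_pos.2 (not_le.1 h))
    have := key' F hF
    linarith
  have h3 := pt_compl (below lt k)
  linarith

/-- **K1, second part.** The total length of an initial segment is a point of `Kset` with this
initial segment to the left of it.

Proof: if `i ∈ I`, then `{j | j = i ∨ lt j i} ⊆ I`, so `lend i + wt i ≤ pt I` (`lend_add`,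
`pt_mono`); if `i ∉ I`, then `I ⊆ {j | lt j i}` (as `I` is an initial segment and the order is
total), so `pt I ≤ lend i`. -/
theorem pt_mem_Kset {I : Set ℕ} (hI : ∀ i j, lt i j → j ∈ I → i ∈ I) : pt I ∈ Kset lt := by
  refine ⟨pt_nonneg _, pt_le_one _, fun i => ?_⟩
  by_cases hi : i ∈ I
  · right
    rw [lend_add]
    refine pt_mono ?_
    rintro j (hj | hj)
    · subst hj; exact hi
    · exact hI j i hj hi
  · left
    rw [lend_eq_pt]
    refine pt_mono fun j hj => ?_
    rcases trichotomous_of lt j i with h | h | h
    · exact h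
    · subst h; exact absurd hj hi
    · exact absurd (hI i j h hj) hi

theorem below_pt {I : Set ℕ} (hI : ∀ i j, lt i j → j ∈ I → i ∈ I) : below lt (pt I) = I := by
  ext i
  constructor
  · intro hi
    by_contra hi'
    have h1 : pt I ≤ lend lt i := by
      rw [lend_eq_pt]
      refine pt_mono fun j hj => ?_
      rcases trichotomous_of lt j i with h | h | h
      · exact h
      · subst h; exact absurd hj hi'
      · exact absurd (hI i j h hj) hi'
    have h2 : lend lt i + wt i ≤ pt I := hi
    have := wt_pos i
    linarith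
  · intro hi
    show lend lt i + wt i ≤ pt I
    rw [lend_add]
    refine pt_mono ?_
    rintro j (hj | hj)
    · subst hj; exact hi
    · exact hI j i hj hi

/-- `below lt k` is an initial segment -/
theorem below_initial (k : ℝ) : ∀ i j, lt i j → j ∈ below lt k → i ∈ below lt k := by
  intro i j hij hj
  have h1 : lend lt j + wt j ≤ k := hj
  have h2 := lend_add_le hij
  have := wt_pos j
  show lend lt i + wt i ≤ k
  linarith

/-- **K1, third part.** Between two points of `Kset` there is a gap.

Proof: `below k ⊆ below k'`; if they were equal, `k = k'` by `pt_below`. -/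
theorem exists_gap {k k' : ℝ} (hk : k ∈ Kset lt) (hk' : k' ∈ Kset lt) (h : k < k') :
    ∃ i, k ≤ lend lt i ∧ lend lt i + wt i ≤ k' := by
  by_contra hcon
  push Not at hcon
  have h1 : below lt k' ⊆ below lt k := by
    intro i hi
    by_contra h2
    exact absurd hi (not_le.2 (hcon i ((hk.2.2 i).resolve_right h2)))
  have h2 := pt_mono h1
  rw [pt_below hk, pt_below hk'] at h2
  linarith

end Pool.Agent.Lib.H37C
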