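import Pool.Agent.Lib.H37C.Defs
import Pool.Agent.Lib.H37C.K1

open TopologicalSpace Set Filter Topology

namespace Pool.Agent.Lib.H37C

variable {lt lt' : ℕ → ℕ → Prop} [IsStrictTotalOrder ℕ lt] [IsStrictTotalOrder ℕ lt']

/-- the normalized position of `x` in the gap `i`, cut off at `0` and `1` -/
noncomputable def c3_c (lt : ℕ → ℕ → Prop) (i : ℕ) (x : ℝ) : ℝ :=
  max 0 (min 1 ((x - lend lt i) / wt i))

omit [IsStrictTotalOrder ℕ lt] in
theorem c3_c_mem (i : ℕ) (x : ℝ) : c3_c lt i x ∈ Icc (0 : ℝ) 1 :=
  ⟨le_max_left _ _, max_le zero_le_one (min_le_left _ _)⟩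

omit [IsStrictTotalOrder ℕ lt] in
theorem c3_c_mono (i : ℕ) : Monotone (c3_c lt i) := by
  intro x y h
  unfold c3_c
  have := wt_pos i
  gcongr

omit [IsStrictTotalOrder ℕ lt] in
theorem c3_c_zero {i : ℕ} {x : ℝ} (h : x ≤ lend lt i) : c3_c lt i x = 0 := by
  have hw := wt_pos i
  have h1 : (x - lend lt i) / wt i ≤ 0 := div_nonpos_of_nonpos_of_nonneg (by linarith) hw.le
  unfold c3_c
  rw [min_eq_right (h1.trans zero_le_one), max_eq_left h1]

omit [IsStrictTotalOrder ℕ lt] in
theorem c3_c_one {i : ℕ} {x : ℝ} (h : lend lt i + wt i ≤ x) : c3_c lt i x = 1 := by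
  have hw := wt_pos i
  have h1 : 1 ≤ (x - lend lt i) / wt i := by
    rw [le_div_iff₀ hw]; linarith
  unfold c3_c
  rw [min_eq_left h1, max_eq_right zero_le_one]

omit [IsStrictTotalOrder ℕ lt] in
theorem c3_c_eq {i : ℕ} {y : ℝ} (h : y ∈ Icc (0 : ℝ) 1) :
    c3_c lt i (lend lt i + wt i * y) = y := by
  have hw := wt_pos i
  have h1 : (lend lt i + wt i * y - lend lt i) / wt i = y := by
    field_simp
    ring
  unfold c3_c
  rw [h1, min_eq_right h.2, max_eq_right h.1]

omit [IsStrictTotalOrder ℕ lt] in
theorem c3_c_lt {i : ℕ} {x y : ℝ} (hxy : x < y) (hx : x < lend lt i + wt i)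
    (hy : lend lt i < y) : c3_c lt i x < c3_c lt i y := by
  have hw := wt_pos i
  have h1 : (x - lend lt i) / wt i < 1 := by
    rw [div_lt_one hw]; linarith
  have h2 : 0 < (y - lend lt i) / wt i := div_pos (by linarith) hw
  have h3 : (x - lend lt i) / wt i < (y - lend lt i) / wt i :=
    div_lt_div_of_pos_right (by linarith) hw
  unfold c3_c
  rw [min_eq_right h1.le]
  have h4 : 0 < min 1 ((y - lend lt i) / wt i) := lt_min one_pos h2
  rw [max_eq_right h4.le]
  exact max_lt h4 (lt_min h1 h3)

omit [IsStrictTotalOrder ℕ lt] in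
theorem c3_c_cont (i : ℕ) : Continuous (c3_c lt i) := by
  unfold c3_c
  fun_prop

/-- **C3.** Gluing. An isomorphism `π` of the orders and homeomorphisms `G i` of `[0,1]` give a
homeomorphism `φ` of `[0,1]` which maps the gap `i` of `lt` to the gap `π i` of `lt'` by `G i` (up to
affine maps), and `Kset lt` to `Kset lt'`.

Proof. For `x ∈ [0,1]` put `φ x = ∑' i, wt (π i) * G i (max 0 (min 1 ((x - lend lt i) / wt i)))`, for
`x ∉ (0,1)` put `φ x = x`. The terms are continuous, non-decreasing functions with values in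
`[0, wt (π i)]`, and `∑ wt (π i) = 1` (`Equiv.hasSum_iff`), so `φ` is continuous and non-decreasing;
`φ 0 = 0` and `φ 1 = 1` (`lend_nonneg`, `lend_add_le_one`). For `x` in the closed gap `i`,
`x = lend lt i + wt i * y`, the terms `j` with `lt j i` have the value `wt (π j)` (`lend_add_le`), the
terms with `lt i j` have the value `0`; so `φ x = ∑_{lt j i} wt (π j) + wt (π i) * G i y` and
`∑_{lt j i} wt (π j) = lend lt' (π i)` (reindexing by `π`). Strictly increasing on `[0,1]`: if
`x < y`, either `x` is in the interior of a gap or `y` is, or both are in `Kset` and there is a gap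
between them (`exists_gap`); in each case one term increases strictly. So `φ` is an order
isomorphism (surjective by the intermediate value theorem). If `x ∈ Kset lt` were mapped into the
interior of the gap `π i` of `lt'`, then `φ x = φ z` with `z` in the interior of the gap `i`, so
`x = z`, a contradiction. -/
theorem glue (π : lt ≃r lt') (G : ℕ → ℝ ≃o ℝ) (hG : ∀ i, ∀ y ∉ Ioo (0 : ℝ) 1, G i y = y) :
    ∃ φ : ℝ ≃o ℝ, (∀ r ∉ Ioo (0 : ℝ) 1, φ r = r) ∧
      (∀ i, ∀ y ∈ Icc (0 : ℝ) 1, φ (lend lt i + wt i * y) = lend lt' (π i) + wt (π i) * G i y) ∧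
      ∀ r ∈ Kset lt, φ r ∈ Kset lt' := by
  classical
  have hG0 : ∀ i, G i 0 = 0 := fun i => hG i 0 (by simp)
  have hG1 : ∀ i, G i 1 = 1 := fun i => hG i 1 (by simp)
  have hGm : ∀ i, ∀ y ∈ Icc (0 : ℝ) 1, G i y ∈ Icc (0 : ℝ) 1 := fun i y hy =>
    ⟨hG0 i ▸ (G i).monotone hy.1, hG1 i ▸ (G i).monotone hy.2⟩
  have hsum : HasSum (fun i => wt (π i)) 1 := π.toEquiv.hasSum_iff.2 hasSum_wt
  let tm : ℕ → ℝ → ℝ := fun i x => wt (π i) * G i (c3_c lt i x)
  have htm0 : ∀ i x, 0 ≤ tm i x := fun i x =>
    mul_nonneg (wt_pos _).le (hGm i _ (c3_c_mem i x)).1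
  have htm1 : ∀ i x, tm i x ≤ wt (π i) := fun i x =>
    mul_le_of_le_one_right (wt_pos _).le (hGm i _ (c3_c_mem i x)).2
  have htms : ∀ x, Summable (fun i => tm i x) := fun x =>
    Summable.of_nonneg_of_le (fun i => htm0 i x) (fun i => htm1 i x) hsum.summable
  have htmm : ∀ i, Monotone (tm i) := fun i x y h =>
    mul_le_mul_of_nonneg_left ((G i).monotone (c3_c_mono i h)) (wt_pos _).le
  let φ₀ : ℝ → ℝ := fun x => ∑' i, tm i x
  have hφc : Continuous φ₀ := by
    refine continuous_tsum (u := fun i => wt (π i)) (fun i => ?_) hsum.summable (fun i x => ?_)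
    · exact continuous_const.mul ((G i).continuous.comp (c3_c_cont i))
    · rw [Real.norm_eq_abs, abs_of_nonneg (htm0 i x)]
      exact htm1 i x
  have hφm : Monotone φ₀ := fun x y h =>
    (htms x).tsum_le_tsum (fun i => htmm i h) (htms y)
  have hφ0 : ∀ x ≤ 0, φ₀ x = 0 := by
    intro x hx
    have : ∀ i, tm i x = 0 := by
      intro i
      show wt (π i) * G i (c3_c lt i x) = 0
      rw [c3_c_zero (hx.trans (lend_nonneg lt i)), hG0, mul_zero]
    show ∑' i, tm i x = 0
    simp [this]
  have hφ1 : ∀ x, 1 ≤ x → φ₀ x = 1 := by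
    intro x hx
    have : ∀ i, tm i x = wt (π i) := by
      intro i
      show wt (π i) * G i (c3_c lt i x) = wt (π i)
      rw [c3_c_one ((lend_add_le_one i).trans hx), hG1, mul_one]
    show ∑' i, tm i x = 1
    simp_rw [this]
    exact hsum.tsum_eq
  have hφs : ∀ x y, 0 ≤ x → x < y → y ≤ 1 → φ₀ x < φ₀ y := by
    intro x y hx hxy hy
    obtain ⟨i, hi1, hi2⟩ : ∃ i, lend lt i < y ∧ x < lend lt i + wt i := by
      by_contra hcon
      push Not at hcon
      have hd : ∀ i, y ≤ lend lt i ∨ lend lt i + wt i ≤ x := by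
        intro i
        by_cases h : y ≤ lend lt i
        · exact Or.inl h
        · exact Or.inr (hcon i (not_le.1 h))
      have hxK : x ∈ Kset lt := ⟨hx, hxy.le.trans hy, fun i =>
        (hd i).imp (fun h => hxy.le.trans h) id⟩
      have hyK : y ∈ Kset lt := ⟨hx.trans hxy.le, hy, fun i =>
        (hd i).imp id (fun h => h.trans hxy.le)⟩
      obtain ⟨i, h1, h2⟩ := exists_gap hxK hyK hxy
      have := wt_pos i
      rcases hd i with h3 | h3 <;> linarith
    refine (htms x).tsum_lt_tsum (i := i) (fun j => htmm j hxy.le) ?_ (htms y)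
    exact mul_lt_mul_of_pos_left ((G i).strictMono (c3_c_lt hxy hi2 hi1)) (wt_pos _)
  let φ : ℝ → ℝ := fun x => φ₀ x + (min x 0 + max (x - 1) 0)
  have hφin : ∀ x ∈ Icc (0 : ℝ) 1, φ x = φ₀ x := by
    intro x hx
    show φ₀ x + (min x 0 + max (x - 1) 0) = φ₀ x
    rw [min_eq_right hx.1, max_eq_right (by linarith [hx.2])]
    ring
  have hφout : ∀ x ∉ Ioo (0 : ℝ) 1, φ x = x := by
    intro x hx
    show φ₀ x + (min x 0 + max (x - 1) 0) = x
    by_cases h : x ≤ 0
    · rw [hφ0 x h, min_eq_left h, max_eq_right (by linarith)]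
      ring
    · have h1 : 1 ≤ x := by
        by_contra h2
        exact hx ⟨not_le.1 h, not_le.1 h2⟩
      rw [hφ1 x h1, min_eq_right (by linarith), max_eq_left (by linarith)]
      ring
  have hφsm : StrictMono φ := by
    intro x y hxy
    have h1 : φ₀ x ≤ φ₀ y := hφm hxy.le
    have h2 : min x 0 ≤ min y 0 := min_le_min_right _ hxy.le
    have h3 : max (x - 1) 0 ≤ max (y - 1) 0 := max_le_max_right _ (by linarith)
    show φ₀ x + (min x 0 + max (x - 1) 0) < φ₀ y + (min y 0 + max (y - 1) 0)
    by_cases hx : 0 ≤ x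
    · by_cases hy : y ≤ 1
      · have := hφs x y hx hxy hy
        linarith
      · have h4 : max (x - 1) 0 < max (y - 1) 0 := by
          rw [max_eq_left (show (0 : ℝ) ≤ y - 1 by linarith)]
          exact max_lt (by linarith) (by linarith)
        linarith
    · have h4 : min x 0 < min y 0 := by
        rw [min_eq_left (show x ≤ 0 by linarith)]
        exact lt_min hxy (by linarith)
      linarith
  have hφcont : Continuous φ := by
    show Continuous fun x => φ₀ x + (min x 0 + max (x - 1) 0)
    fun_prop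
  have hφsurj : Function.Surjective φ := by
    refine hφcont.surjective ?_ ?_
    · refine tendsto_id.congr' ?_
      filter_upwards [eventually_ge_atTop (1 : ℝ)] with x hx
      exact (hφout x (fun h => absurd h.2 (not_lt.2 hx))).symm
    · refine tendsto_id.congr' ?_
      filter_upwards [eventually_le_atBot (0 : ℝ)] with x hx
      exact (hφout x (fun h => absurd h.1 (not_lt.2 hx))).symm
  have hform : ∀ i, ∀ y ∈ Icc (0 : ℝ) 1,
      φ (lend lt i + wt i * y) = lend lt' (π i) + wt (π i) * G i y := by
    intro i y hy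
    have hw := wt_pos i
    have hy1 : 0 ≤ wt i * y := mul_nonneg hw.le hy.1
    have hy2 : wt i * y ≤ wt i := mul_le_of_le_one_right hw.le hy.2
    have hx : lend lt i + wt i * y ∈ Icc (0 : ℝ) 1 :=
      ⟨add_nonneg (lend_nonneg lt i) hy1, by linarith [lend_add_le_one (lt := lt) i]⟩
    rw [hφin _ hx]
    have h1 : ∀ j, tm j (lend lt i + wt i * y) =
        Set.indicator {j | lt j i} (fun j => wt (π j)) j +
          Set.indicator {i} (fun _ => wt (π i) * G i y) j := by
      intro j
      show wt (π j) * G j (c3_c lt j (lend lt i + wt i * y)) = _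
      rcases trichotomous_of lt j i with h | h | h
      · have hne : j ∉ ({i} : Set ℕ) := by
          rintro rfl; exact irrefl_of lt _ h
        rw [c3_c_one ((lend_add_le h).trans (by linarith)), hG1, Set.indicator_of_mem (by exact h),
          Set.indicator_of_notMem hne]
        ring
      · subst h
        rw [c3_c_eq hy, Set.indicator_of_notMem (by exact irrefl_of lt j),
          Set.indicator_of_mem (mem_singleton j)]
        ring
      · have hne : j ∉ ({i} : Set ℕ) := by
          rintro rfl; exact irrefl_of lt _ h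
        have hna : j ∉ {j | lt j i} := asymm_of lt h
        rw [c3_c_zero ((show lend lt i + wt i * y ≤ lend lt i + wt i by linarith).trans
          (lend_add_le h)), hG0, Set.indicator_of_notMem hna, Set.indicator_of_notMem hne]
        ring
    show ∑' j, tm j (lend lt i + wt i * y) = _
    simp_rw [h1]
    rw [Summable.tsum_add (hsum.summable.indicator _) (summable_of_finite_support
      ((Set.finite_singleton i).subset Set.support_indicator_subset))]
    congr 1
    · have h2 : (fun j => Set.indicator {j | lt j i} (fun j => wt (π j)) j) =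
          (Set.indicator {j' | lt' j' (π i)} wt) ∘ π := by
        funext j
        by_cases h : lt j i
        · have h3 : lt' (π j) (π i) := π.map_rel_iff.2 h
          rw [Set.indicator_of_mem (by exact h), Function.comp, Set.indicator_of_mem (by exact h3)]
        · have h3 : ¬ lt' (π j) (π i) := fun h4 => h (π.map_rel_iff.1 h4)
          rw [Set.indicator_of_notMem (by exact h), Function.comp,
            Set.indicator_of_notMem (by exact h3)]
      rw [h2]
      exact π.toEquiv.tsum_eq (Set.indicator {j' | lt' j' (π i)} wt)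
    · rw [tsum_eq_single i]
      · rw [Set.indicator_of_mem (mem_singleton i)]
      · intro j hj
        rw [Set.indicator_of_notMem (by simpa using hj)]
  refine ⟨StrictMono.orderIsoOfSurjective φ hφsm hφsurj, hφout, hform, ?_⟩
  intro r hr
  show φ r ∈ Kset lt'
  have e0 : φ 0 = 0 := hφout 0 (by simp)
  have e1 : φ 1 = 1 := hφout 1 (by simp)
  refine ⟨e0 ▸ hφsm.monotone hr.1, e1 ▸ hφsm.monotone hr.2.1, fun i' => ?_⟩
  obtain ⟨i, rfl⟩ := π.surjective i'
  rcases hr.2.2 i with h | h
  · left
    have h1 := hform i 0 (by simp)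
    rw [hG0, mul_zero, mul_zero, add_zero, add_zero] at h1
    rw [← h1]
    exact hφsm.monotone h
  · right
    have h1 := hform i 1 (by simp)
    rw [hG1, mul_one, mul_one] at h1
    rw [← h1]
    exact hφsm.monotone h

end Pool.Agent.Lib.H37C
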