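import Pool.Agent.Lib.H37C.Defs
import Pool.Agent.Lib.H37C.K0

open TopologicalSpace Set Filter Topology
open scoped Manifold ContDiff
open Pool.Agent.Lib.Helper37.ConjBorel

namespace Pool.Agent.Lib.H37C

/-- **S1.** Elementary properties of the bump function (Mathlib: `expNegInvGlue`). -/
theorem bmp_contDiff : ContDiff ℝ ∞ bmp := by
  unfold bmp
  exact expNegInvGlue.contDiff.mul (expNegInvGlue.contDiff.comp (contDiff_const.sub contDiff_id))

theorem bmp_pos {y : ℝ} (hy : y ∈ Ioo (0 : ℝ) 1) : 0 < bmp y := by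
  unfold bmp
  exact mul_pos (expNegInvGlue.pos_of_pos hy.1) (expNegInvGlue.pos_of_pos (by linarith [hy.2]))

theorem bmp_zero {y : ℝ} (hy : y ∉ Ioo (0 : ℝ) 1) : bmp y = 0 := by
  unfold bmp
  by_cases h : 0 < y
  · have h1 : 1 ≤ y := by
      by_contra h2
      exact hy ⟨h, not_le.1 h2⟩
    rw [expNegInvGlue.zero_of_nonpos (show 1 - y ≤ 0 by linarith), mul_zero]
  · rw [expNegInvGlue.zero_of_nonpos (not_lt.1 h), zero_mul]

theorem bmp_nonneg (y : ℝ) : 0 ≤ bmp y := by
  unfold bmp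
  exact mul_nonneg (expNegInvGlue.nonneg _) (expNegInvGlue.nonneg _)

/-- The radial field is smooth as a function of the parameter `s > -1/2` and the point.

Proof: for `x ≠ 0` the norm and its inverse are smooth (`contDiffAt_norm`, `ContDiffAt.inv`); near a
point `(s, 0)` with `s > -1/2` we have `‖x‖ - 1 - s < 0`, so the field is `0` there. -/
theorem Vf_contDiffOn {n : ℕ} {w : ℝ} (hw : 0 < w) :
    ContDiffOn ℝ ∞ (fun p : ℝ × Euc n => Vf w p.1 p.2) {p | -(1 / 2) < p.1} := by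
  rintro ⟨s, x⟩ hs
  have hs' : -(1 / 2) < s := hs
  apply ContDiffAt.contDiffWithinAt
  by_cases hx : x = 0
  · subst hx
    have h1 : IsOpen {q : ℝ × Euc n | ‖q.2‖ - 1 - q.1 < 0} := by
      apply isOpen_lt _ continuous_const
      fun_prop
    have h2 : (s, (0 : Euc n)) ∈ {q : ℝ × Euc n | ‖q.2‖ - 1 - q.1 < 0} := by
      change ‖(0 : Euc n)‖ - 1 - s < 0
      rw [norm_zero]
      linarith
    have h3 : (fun p : ℝ × Euc n => Vf w p.1 p.2) =ᶠ[𝓝 (s, (0 : Euc n))] fun _ => 0 := by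
      filter_upwards [h1.mem_nhds h2] with q hq
      have hq' : ‖q.2‖ - 1 - q.1 < 0 := hq
      unfold Vf
      rw [bmp_zero, zero_mul, zero_smul]
      intro h4
      have h5 := h4.1
      rw [lt_div_iff₀ hw] at h5
      linarith
    exact contDiffAt_const.congr_of_eventuallyEq h3
  · unfold Vf
    have hn : ContDiffAt ℝ ∞ (fun p : ℝ × Euc n => ‖p.2‖) (s, x) :=
      (contDiffAt_norm ℝ hx).comp (s, x) contDiffAt_snd
    have hn0 : ‖x‖ ≠ 0 := norm_ne_zero_iff.2 hx
    refine ContDiffAt.smul (ContDiffAt.mul ?_ (hn.inv hn0)) contDiffAt_snd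
    refine ContDiffAt.comp (g := bmp) (s, x) bmp_contDiff.contDiffAt ?_
    exact ((hn.sub contDiffAt_const).sub contDiffAt_fst).div_const w

/-- The field is supported in the shell `1 < ‖x‖ < 2`. -/
theorem Vf_zero {n : ℕ} {w s : ℝ} (hw : 0 < w) (hs : 0 ≤ s) (h : s + w ≤ 1) {x : Euc n}
    (hx : ‖x‖ ∉ Ioo (1 : ℝ) 2) : Vf w s x = 0 := by
  unfold Vf
  rw [bmp_zero, zero_mul, zero_smul]
  intro h1
  apply hx
  have h2 := h1.1
  have h3 := h1.2
  rw [lt_div_iff₀ hw] at h2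
  rw [div_lt_iff₀ hw] at h3
  constructor
  · linarith
  · linarith

end Pool.Agent.Lib.H37C
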