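import Pool.Agent.Lib.H37C.Defs
import Pool.Agent.Lib.H37C.S1

open TopologicalSpace Set Filter Topology
open scoped Manifold ContDiff
open Pool.Agent.Lib.Helper37.ConjBorel

namespace Pool.Agent.Lib.H37C

theorem regN_pair {P E : Type*} [NormedAddCommGroup P] [NormedSpace ℝ P]
    [NormedAddCommGroup E] [NormedSpace ℝ E] (s₀ : P) (x₀ : E) :
    RegN ⊤ (fun (s : P) (x : E) => (s, x)) s₀ x₀ := by
  have hsm : ∀ s : P, ContDiff ℝ ∞ (fun x : E => (s, x)) := fun s => contDiff_const.prodMk contDiff_id
  have h0 : RegN 0 (fun (s : P) (x : E) => (s, x)) s₀ x₀ := by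
    refine ⟨Filter.Eventually.of_forall fun p => (hsm p.1).contDiffAt, fun k hk => ?_⟩
    have hk0 : k = 0 := by
      have : (k : ℕ∞) ≤ ((0 : ℕ) : ℕ∞) := by simpa using hk
      have h3 : k ≤ 0 := by exact_mod_cast this
      omega
    subst hk0
    have e : (fun p : P × E => iteratedFDeriv ℝ 0 (fun x : E => (p.1, x)) p.2) =
        fun p : P × E => (continuousMultilinearCurryFin0 ℝ E (P × E)).symm p := by
      funext p
      rw [iteratedFDeriv_zero_eq_comp]
      rfl
    rw [e]
    exact (continuousMultilinearCurryFin0 ℝ E (P × E)).symm.continuous.continuousAt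
  rw [regN_top_iff]
  intro n
  rcases n with _ | n
  · exact h0
  · refine RegN.ofDerivReg h0 ?_
    have e : (fun s : P => fderiv ℝ (fun x : E => (s, x))) =
        fun _ : P => fun _ : E => ContinuousLinearMap.inr ℝ P E := by
      funext s x
      have h1 : HasFDerivAt (fun x : E => (s, x)) (ContinuousLinearMap.inr ℝ P E) x :=
        hasFDerivAt_prodMk_right s x
      exact h1.fderiv
    rw [e]
    exact regN_of_contDiffOn isOpen_univ contDiff_const.contDiffOn s₀ (mem_univ x₀)

/-- **S2.** A jointly smooth family is regular.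

Proof: the slice `g s` is `G ∘ (fun x => (s, x))` with `G p = g p.1 p.2`; near a point of `O` it is
smooth, and its iterated derivatives are
`iteratedFDeriv ℝ k (g s) x = (iteratedFDeriv ℝ k G (s, x)).compContinuousLinearMap (fun _ => inr)`
(`g s x = G ((s, 0) + inr x)`: `ContinuousLinearMap.iteratedFDeriv_comp_right` for the linear map
`inr`, applied to the translated function, `iteratedFDeriv_comp_add_left`; as `G` is only smooth on
the open set `O`, one may argue with `ContDiffOn`/`iteratedFDerivWithin`, or use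
`iteratedFDeriv_comp` of Mathlib for `ContDiffAt` functions as in `RegN.comp`); the right hand side
is continuous in `(s, x)`. -/
theorem regN_of_joint {P E F : Type*} [NormedAddCommGroup P] [NormedSpace ℝ P]
    [NormedAddCommGroup E] [NormedSpace ℝ E] [NormedAddCommGroup F] [NormedSpace ℝ F]
    (g : P → E → F) {O : Set (P × E)} (hO : IsOpen O)
    (hg : ContDiffOn ℝ ∞ (fun p : P × E => g p.1 p.2) O) {s₀ : P} {x₀ : E} (h : (s₀, x₀) ∈ O) :
    RegN ⊤ g s₀ x₀ := by
  have h1 : RegN ⊤ (fun _ : P => (fun p : P × E => g p.1 p.2)) s₀ (s₀, x₀) :=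
    regN_of_contDiffOn hO hg s₀ h
  exact RegN.comp (G := fun _ : P => (fun p : P × E => g p.1 p.2)) h1 (regN_pair s₀ x₀)

/-- reparametrization of a regular family -/
theorem RegN.reparam {T P E F : Type*} [TopologicalSpace T] [TopologicalSpace P]
    [NormedAddCommGroup E] [NormedSpace ℝ E] [NormedAddCommGroup F] [NormedSpace ℝ F]
    {g : P → E → F} {σ : T → P} {t₀ : T} {x₀ : E} (hg : RegN ⊤ g (σ t₀) x₀)
    (hσ : ContinuousAt σ t₀) : RegN ⊤ (fun t => g (σ t)) t₀ x₀ := by
  have h1 : ContinuousAt (fun p : T × E => (σ p.1, p.2)) (t₀, x₀) :=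
    (ContinuousAt.comp (f := fun p : T × E => p.1) (x := (t₀, x₀)) hσ continuous_fst.continuousAt).prodMk
      continuous_snd.continuousAt
  refine ⟨h1.eventually hg.1, fun k hk => ?_⟩
  exact ContinuousAt.comp (f := fun p : T × E => (σ p.1, p.2)) (x := (t₀, x₀)) (hg.2 k hk) h1

end Pool.Agent.Lib.H37C
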