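import Pool.Agent.Lib.H37C.Defs
import Pool.Agent.Lib.H37C.S1
import Pool.Agent.Lib.H37C.S2

open TopologicalSpace Set Filter Topology
open scoped Manifold ContDiff
open Pool.Agent.Lib.Helper37.ConjBorel

namespace Pool.Agent.Lib.H37C

/-- **S3.** The derivatives of the fields are bounded, uniformly in `s`.

Proof: `(s, x) ↦ iteratedFDeriv ℝ k (Vf w s) x` is continuous at all `(s, x)` with `s ≥ 0`
(`regN_of_joint`, `Vf_contDiffOn`), so it is bounded on the compact set `[0,1] × closedBall 0 3`;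
for `‖x‖ > 2` the field vanishes near `x` (`Vf_zero`), so the derivatives are `0`. -/
theorem Vf_bound {n : ℕ} {w : ℝ} (hw : 0 < w) (k : ℕ) :
    ∃ C : ℝ, ∀ s, 0 ≤ s → s + w ≤ 1 → ∀ x : Euc n, ‖iteratedFDeriv ℝ k (Vf w s) x‖ ≤ C := by
  have hO : IsOpen {p : ℝ × Euc n | -(1 / 2) < p.1} := isOpen_lt continuous_const continuous_fst
  have hc : ContinuousOn (fun p : ℝ × Euc n => iteratedFDeriv ℝ k (Vf w p.1) p.2)
      (Icc (0 : ℝ) 1 ×ˢ Metric.closedBall (0 : Euc n) 2) := by
    rintro ⟨s, x⟩ ⟨hs, _⟩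
    have h1 : (s, x) ∈ {p : ℝ × Euc n | -(1 / 2) < p.1} := by
      change -(1 / 2) < s
      linarith [hs.1]
    have h2 := (regN_of_joint (fun s (x : Euc n) => Vf w s x) hO (Vf_contDiffOn hw) h1).2 k le_top
    exact h2.continuousWithinAt
  obtain ⟨C, hC⟩ := (isCompact_Icc.prod (isCompact_closedBall (0 : Euc n) 2)).exists_bound_of_continuousOn hc
  refine ⟨max C 0, fun s hs hsw x => ?_⟩
  by_cases hx : ‖x‖ ≤ 2
  · refine (hC (s, x) ⟨⟨hs, by linarith⟩, ?_⟩).trans (le_max_left _ _)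
    rw [Metric.mem_closedBall, dist_zero_right]
    exact hx
  · rw [not_le] at hx
    have h1 : Vf w s =ᶠ[𝓝 x] fun _ : Euc n => (0 : Euc n) := by
      have h2 : IsOpen {y : Euc n | 2 < ‖y‖} := isOpen_lt continuous_const continuous_norm
      filter_upwards [h2.mem_nhds hx] with y hy
      have hy' : 2 < ‖y‖ := hy
      exact Vf_zero hw hs hsw (fun h => by linarith [h.2])
    rw [(h1.iteratedFDeriv ℝ k).eq_of_nhds]
    have h3 : iteratedFDeriv ℝ k (fun _ : Euc n => (0 : Euc n)) x = 0 := by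
      have h4 := iteratedFDeriv_zero_fun (𝕜 := ℝ) (E := Euc n) (F := Euc n) (n := k)
      exact congrFun h4 x
    rw [h3, norm_zero]
    exact le_max_right _ _

/-- `bmp` is Lipschitz (its derivative has compact support). -/
theorem bmp_lip : ∃ C : ℝ, ∀ y y' : ℝ, |bmp y - bmp y'| ≤ C * |y - y'| := by
  have h1 : HasCompactSupport bmp := by
    apply HasCompactSupport.intro (isCompact_Icc (a := (0 : ℝ)) (b := 1))
    intro y hy
    exact bmp_zero fun h => hy ⟨h.1.le, h.2.le⟩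
  obtain ⟨C, hC⟩ := bmp_contDiff.lipschitzWith_of_hasCompactSupport h1 (by simp)
  refine ⟨C, fun y y' => ?_⟩
  have h2 := hC.dist_le_mul y y'
  rwa [Real.dist_eq, Real.dist_eq] at h2

end Pool.Agent.Lib.H37C
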