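import Pool.Agent.Lib.H37C.Defs
import Pool.Agent.Lib.H37C.S1
import Pool.Agent.Lib.H37C.S3

open TopologicalSpace Set Filter Topology
open scoped Manifold ContDiff
open Pool.Agent.Lib.Helper37.ConjBorel

namespace Pool.Agent.Lib.H37C

/-- **S4.** The heights of the fields in the gaps.

Proof: let `C i k ≥ 0` be the bound of `Vf_bound` for `w = wt i` (maximum with `0`), `C₀` the
constant of `bmp_lip`. Put
`ε i = (1/2)^(i+2) * min 1 (wt i) / (1 + |C₀| + ∑ k ∈ range (i+2), C i k)`. For fixed `k` and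
`i ≥ k`, `ε i * C i k ≤ (1/2)^(i+2)`; so `u i = ε i * C i k` is summable. For `k = 1` the bound
holds for all `i`, and gives the Lipschitz constant (`lipschitzWith_of_nnnorm_fderiv_le`,
`norm_iteratedFDeriv_one`; smooth by `Vf_contDiffOn`). -/
theorem exists_eps (n : ℕ) : ∃ ε : ℕ → ℝ, (∀ i, 0 < ε i) ∧
    (∀ k : ℕ, ∃ u : ℕ → ℝ, Summable u ∧ ∀ i s, 0 ≤ s → s + wt i ≤ 1 → ∀ x : Euc n,
      ‖iteratedFDeriv ℝ k (fun x => ε i • Vf (wt i) s x) x‖ ≤ u i) ∧
    (∀ i s, 0 ≤ s → s + wt i ≤ 1 → ∀ x y : Euc n,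
      ‖ε i • Vf (wt i) s x - ε i • Vf (wt i) s y‖ ≤ (1 / 2) ^ (i + 2) * ‖x - y‖) ∧
    ∀ i, ∀ y y' : ℝ, |ε i * bmp y - ε i * bmp y'| ≤ wt i / 2 * |y - y'| := by
  have hwt1 : ∀ i, wt i ≤ 1 := by
    intro i
    unfold wt
    exact pow_le_one₀ (by norm_num) (by norm_num)
  choose C hC using fun i k => Vf_bound (n := n) (wt_pos i) k
  obtain ⟨C₀, hC₀⟩ := bmp_lip
  have hS0 : ∀ i, 0 ≤ ∑ k ∈ Finset.range (i + 2), |C i k| := fun i =>
    Finset.sum_nonneg fun k _ => abs_nonneg _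
  set ε : ℕ → ℝ := fun i => (1 / 2) ^ (i + 2) * wt i /
    (1 + |C₀| + ∑ k ∈ Finset.range (i + 2), |C i k|) with hε
  have hden : ∀ i, 0 < 1 + |C₀| + ∑ k ∈ Finset.range (i + 2), |C i k| := fun i => by
    have h1 := hS0 i
    have h2 := abs_nonneg C₀
    linarith
  have hpos : ∀ i, 0 < ε i := fun i => by
    simp only [hε]
    have h1 := hden i
    have h2 := wt_pos i
    positivity
  have hkey : ∀ i a, 0 ≤ a → a ≤ 1 + |C₀| + ∑ k ∈ Finset.range (i + 2), |C i k| →
      ε i * a ≤ (1 / 2) ^ (i + 2) * wt i := by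
    intro i a _ ha
    simp only [hε]
    rw [div_mul_eq_mul_div, div_le_iff₀ (hden i)]
    apply mul_le_mul_of_nonneg_left ha
    have := wt_pos i
    positivity
  have hkeyk : ∀ i k, k < i + 2 → ε i * |C i k| ≤ (1 / 2) ^ (i + 2) := by
    intro i k hk
    have h1 : |C i k| ≤ ∑ k ∈ Finset.range (i + 2), |C i k| :=
      Finset.single_le_sum (f := fun k => |C i k|) (fun k _ => abs_nonneg _) (Finset.mem_range.2 hk)
    have h2 := hkey i |C i k| (abs_nonneg _) (by
      have := abs_nonneg C₀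
      linarith)
    refine h2.trans ?_
    have h3 := hwt1 i
    have h4 : (0 : ℝ) < (1 / 2) ^ (i + 2) := by positivity
    nlinarith
  have hsm : ∀ i s, 0 ≤ s → ContDiff ℝ ∞ (fun x : Euc n => Vf (wt i) s x) := by
    intro i s hs
    rw [contDiff_iff_contDiffAt]
    intro x
    have hO : IsOpen {p : ℝ × Euc n | -(1 / 2) < p.1} := isOpen_lt continuous_const continuous_fst
    have h1 : (s, x) ∈ {p : ℝ × Euc n | -(1 / 2) < p.1} := by
      change -(1 / 2) < s
      linarith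
    have h2 := (Vf_contDiffOn (n := n) (wt_pos i)).contDiffAt (hO.mem_nhds h1)
    exact h2.comp (g := fun p : ℝ × Euc n => Vf (wt i) p.1 p.2) x
      (contDiffAt_const.prodMk contDiffAt_id)
  refine ⟨ε, hpos, ?_, ?_, ?_⟩
  · intro k
    refine ⟨fun i => ε i * |C i k|, ?_, ?_⟩
    · refine Summable.of_norm_bounded_eventually_nat (g := fun i => (1 / 2 : ℝ) ^ (i + 2)) ?_ ?_
      · have h1 : Summable fun i : ℕ => (1 / 2 : ℝ) ^ i := summable_geometric_two
        have h2 := h1.mul_right ((1 / 2 : ℝ) ^ 2)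
        refine h2.congr fun i => ?_
        rw [pow_add]
      · filter_upwards [Filter.eventually_ge_atTop k] with i hi
        rw [Real.norm_eq_abs, abs_of_nonneg (mul_nonneg (hpos i).le (abs_nonneg _))]
        exact hkeyk i k (by omega)
    · intro i s hs hsw x
      have h1 : iteratedFDeriv ℝ k (fun x : Euc n => ε i • Vf (wt i) s x) x =
          ε i • iteratedFDeriv ℝ k (fun x : Euc n => Vf (wt i) s x) x :=
        iteratedFDeriv_const_smul_apply' ((hsm i s hs).of_le (by exact_mod_cast le_top)).contDiffAt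
      rw [h1, norm_smul, Real.norm_eq_abs, abs_of_pos (hpos i)]
      apply mul_le_mul_of_nonneg_left _ (hpos i).le
      exact (hC i k s hs hsw x).trans (le_abs_self _)
  · intro i s hs hsw x y
    rw [← smul_sub, norm_smul, Real.norm_eq_abs, abs_of_pos (hpos i)]
    have h1 : ‖Vf (wt i) s x - Vf (wt i) s y‖ ≤ |C i 1| * ‖x - y‖ := by
      have h2 := Convex.norm_image_sub_le_of_norm_fderiv_le (𝕜 := ℝ) (f := fun x : Euc n => Vf (wt i) s x)
        (C := |C i 1|) (s := univ) (x := y) (y := x)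
        (fun z _ => ((hsm i s hs).differentiable (by simp)).differentiableAt)
        (fun z _ => by
          rw [← norm_iteratedFDeriv_one]
          exact (hC i 1 s hs hsw z).trans (le_abs_self _)) convex_univ (mem_univ _) (mem_univ _)
      exact h2
    calc ε i * ‖Vf (wt i) s x - Vf (wt i) s y‖ ≤ ε i * (|C i 1| * ‖x - y‖) :=
          mul_le_mul_of_nonneg_left h1 (hpos i).le
      _ = (ε i * |C i 1|) * ‖x - y‖ := by ring
      _ ≤ (1 / 2) ^ (i + 2) * ‖x - y‖ :=
          mul_le_mul_of_nonneg_right (hkeyk i 1 (by omega)) (norm_nonneg _)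
  · intro i y y'
    rw [← mul_sub, abs_mul, abs_of_pos (hpos i)]
    have h1 : |bmp y - bmp y'| ≤ |C₀| * |y - y'| :=
      (hC₀ y y').trans (mul_le_mul_of_nonneg_right (le_abs_self _) (abs_nonneg _))
    have h2 := hkey i |C₀| (abs_nonneg _) (by
      have := hS0 i
      linarith)
    have h3 : ((1 : ℝ) / 2) ^ (i + 2) ≤ 1 / 2 := by
      have h4 : ((1 : ℝ) / 2) ^ (i + 2) ≤ (1 / 2) ^ 1 :=
        pow_le_pow_of_le_one (by norm_num) (by norm_num) (by omega)
      rwa [pow_one] at h4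
    have h4 := wt_pos i
    calc ε i * |bmp y - bmp y'| ≤ ε i * (|C₀| * |y - y'|) :=
          mul_le_mul_of_nonneg_left h1 (hpos i).le
      _ = (ε i * |C₀|) * |y - y'| := by ring
      _ ≤ (wt i / 2) * |y - y'| := by
          apply mul_le_mul_of_nonneg_right _ (abs_nonneg _)
          nlinarith

/-- the heights of the fields in the gaps -/
noncomputable def eps (n : ℕ) : ℕ → ℝ := (exists_eps n).choose

theorem eps_pos (n : ℕ) (i : ℕ) : 0 < eps n i := (exists_eps n).choose_spec.1 i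

theorem eps_bound (n k : ℕ) : ∃ u : ℕ → ℝ, Summable u ∧ ∀ i s, 0 ≤ s → s + wt i ≤ 1 →
    ∀ x : Euc n, ‖iteratedFDeriv ℝ k (fun x => eps n i • Vf (wt i) s x) x‖ ≤ u i :=
  (exists_eps n).choose_spec.2.1 k

theorem eps_lip (n : ℕ) : ∀ i s, 0 ≤ s → s + wt i ≤ 1 → ∀ x y : Euc n,
    ‖eps n i • Vf (wt i) s x - eps n i • Vf (wt i) s y‖ ≤ (1 / 2) ^ (i + 2) * ‖x - y‖ :=
  (exists_eps n).choose_spec.2.2.1

theorem eps_lip' (n : ℕ) : ∀ i, ∀ y y' : ℝ,
    |eps n i * bmp y - eps n i * bmp y'| ≤ wt i / 2 * |y - y'| :=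
  (exists_eps n).choose_spec.2.2.2

/-- the field of the order `lt` -/
noncomputable def Fld {n : ℕ} (lt : ℕ → ℕ → Prop) (x : Euc n) : Euc n :=
  ∑' i, eps n i • Vf (wt i) (lend lt i) x

/-- the height function of the order `lt` -/
noncomputable def vv (n : ℕ) (lt : ℕ → ℕ → Prop) (r : ℝ) : ℝ :=
  ∑' i, eps n i * bmp ((r - lend lt i) / wt i)

/-- the perturbation of the identity -/
noncomputable def psi {n : ℕ} (lt : ℕ → ℕ → Prop) (δ : ℝ) (x : Euc n) : Euc n := x + δ • Fld lt x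

end Pool.Agent.Lib.H37C
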