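import Pool.Agent.Lib.H37C.Defs
import Pool.Agent.Lib.H37C.K1
import Pool.Agent.Lib.H37C.S4

open TopologicalSpace Set Filter Topology
open scoped Manifold ContDiff
open Pool.Agent.Lib.Helper37.ConjBorel

namespace Pool.Agent.Lib.H37C

variable {lt : ℕ → ℕ → Prop} [IsStrictTotalOrder ℕ lt]

omit [IsStrictTotalOrder ℕ lt] in
theorem s5_out {i : ℕ} {r : ℝ} (h : r ≤ lend lt i ∨ lend lt i + wt i ≤ r) : bmp ((r - lend lt i) / wt i) = 0 := by
  have hw := wt_pos i
  apply bmp_zero
  rintro ⟨h1, h2⟩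
  rw [lt_div_iff₀ hw, zero_mul] at h1
  rw [div_lt_one hw] at h2
  rcases h with h | h <;> linarith

theorem s5_other {i j : ℕ} (hij : j ≠ i) {r : ℝ} (h1 : lend lt i ≤ r) (h2 : r ≤ lend lt i + wt i) :
    r ≤ lend lt j ∨ lend lt j + wt j ≤ r := by
  rcases trichotomous_of lt i j with h | h | h
  · left
    exact h2.trans (lend_add_le h)
  · exact absurd h.symm hij
  · right
    exact (lend_add_le h).trans h1

/-- **S5.** The height function in the `i`-th gap: the other terms vanish, as the gaps are disjoint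
(`lend_add_le`, `bmp_zero`). -/
theorem vv_gap (n : ℕ) (i : ℕ) {y : ℝ} (hy : y ∈ Icc (0 : ℝ) 1) :
    vv n lt (lend lt i + wt i * y) = eps n i * bmp y := by
  have hw := wt_pos i
  unfold vv
  rw [tsum_eq_single i]
  · rw [add_sub_cancel_left, mul_div_cancel_left₀ _ hw.ne']
  · intro j hj
    rw [s5_out, mul_zero]
    exact s5_other hj (by nlinarith [hy.1]) (by nlinarith [hy.2])

/-- outside the gaps the height function is `0` -/
theorem vv_zero (n : ℕ) {r : ℝ} (h : ∀ i, r ≤ lend lt i ∨ lend lt i + wt i ≤ r) :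
    vv n lt r = 0 := by
  unfold vv
  rw [← tsum_zero (β := ℕ)]
  congr 1
  funext i
  rw [s5_out (h i), mul_zero]

theorem vv_out (n : ℕ) {r : ℝ} (hr : r ∉ Ioo (0 : ℝ) 1) : vv n lt r = 0 := by
  apply vv_zero
  intro i
  by_cases h : 0 < r
  · right
    have h1 : 1 ≤ r := by
      by_contra h2
      exact hr ⟨h, not_le.mp h2⟩
    exact (lend_add_le_one i).trans h1
  · left
    exact (not_lt.mp h).trans (lend_nonneg lt i)

theorem vv_nonneg (n : ℕ) (r : ℝ) : 0 ≤ vv n lt r :=
  tsum_nonneg fun i => mul_nonneg (eps_pos n i).le (bmp_nonneg _)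

/-- the zeros of the height function in `[0,1]` are the points of `Kset` -/
theorem vv_eq_zero_iff (n : ℕ) {r : ℝ} (hr : r ∈ Icc (0 : ℝ) 1) :
    vv n lt r = 0 ↔ r ∈ Kset lt := by
  constructor
  · intro h
    refine ⟨hr.1, hr.2, fun i => ?_⟩
    by_contra hc
    push Not at hc
    have hw := wt_pos i
    have hy : (r - lend lt i) / wt i ∈ Ioo (0 : ℝ) 1 := by
      constructor
      · apply div_pos _ hw
        linarith [hc.1]
      · rw [div_lt_one hw]
        linarith [hc.2]
    have h1 := vv_gap (lt := lt) n i (Ioo_subset_Icc_self hy)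
    rw [mul_div_cancel₀ _ hw.ne', add_sub_cancel, h] at h1
    exact absurd h1 (mul_pos (eps_pos n i) (bmp_pos hy)).ne
  · intro h
    exact vv_zero n h.2.2

theorem s5_summable (n : ℕ) (r : ℝ) : Summable fun i => eps n i * bmp ((r - lend lt i) / wt i) := by
  by_cases h : ∀ i, r ≤ lend lt i ∨ lend lt i + wt i ≤ r
  · have e : (fun i => eps n i * bmp ((r - lend lt i) / wt i)) = fun _ => 0 := by
      funext i
      rw [s5_out (h i), mul_zero]
    rw [e]
    exact summable_zero
  · push Not at h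
    obtain ⟨i, h1, h2⟩ := h
    refine (hasSum_single i fun j hj => ?_).summable
    rw [s5_out (s5_other hj h1.le h2.le), mul_zero]

/-- The field in terms of the height function (at each point at most one term of the series is not
zero, so `tsum` commutes with the scalar multiplication). -/
theorem fld_eq {n : ℕ} (x : Euc n) : Fld lt x = (vv n lt (‖x‖ - 1) * ‖x‖⁻¹) • x := by
  have h := (s5_summable (lt := lt) n (‖x‖ - 1)).tsum_smul_const (‖x‖⁻¹ • x)
  rw [smul_smul] at h
  unfold vv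
  rw [← h]
  unfold Fld
  congr 1
  funext i
  unfold Vf
  rw [smul_smul, smul_smul, mul_assoc]

theorem fld_zero {n : ℕ} {x : Euc n} (hx : ‖x‖ ∉ Ioo (1 : ℝ) 2) : Fld lt x = 0 := by
  rw [fld_eq, vv_out, zero_mul, zero_smul]
  rintro ⟨h1, h2⟩
  exact hx ⟨by linarith, by linarith⟩

/-- norm and direction of `psi` -/
theorem psi_eq {n : ℕ} {δ : ℝ} (x : Euc n) :
    psi lt δ x = ((‖x‖ + δ * vv n lt (‖x‖ - 1)) * ‖x‖⁻¹) • x := by
  unfold psi
  rw [fld_eq]
  by_cases hx : x = 0
  · rw [hx, smul_zero, smul_zero, smul_zero, add_zero]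
  · have h1 : ‖x‖ ≠ 0 := norm_ne_zero_iff.mpr hx
    rw [add_mul, mul_inv_cancel₀ h1, add_smul, one_smul, smul_smul, mul_assoc]

theorem norm_psi {n : ℕ} {δ : ℝ} (hδ : 0 ≤ δ) (x : Euc n) :
    ‖psi lt δ x‖ = ‖x‖ + δ * vv n lt (‖x‖ - 1) := by
  rw [psi_eq, norm_smul]
  have h0 : 0 ≤ vv n lt (‖x‖ - 1) := vv_nonneg n _
  by_cases hx : x = 0
  · rw [hx, norm_zero, mul_zero, zero_add, vv_out, mul_zero]
    rintro ⟨h1, -⟩
    linarith
  · have h1 : 0 < ‖x‖ := norm_pos_iff.mpr hx
    rw [Real.norm_eq_abs, abs_of_nonneg (by positivity), mul_assoc, inv_mul_cancel₀ h1.ne', mul_one]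

end Pool.Agent.Lib.H37C
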