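import Pool.Agent.Lib.H37C.Defs
import Pool.Agent.Lib.H37C.C2
import Pool.Agent.Lib.H37C.C3
import Pool.Agent.Lib.H37C.S5

open TopologicalSpace Set Filter Topology

namespace Pool.Agent.Lib.H37C

/-- **C4.** The normalized map in a gap is an increasing homeomorphism: `y ↦ y + c * bmp y` is
strictly increasing if `c * bmp` is Lipschitz with constant `1/2`, continuous, and the identity
outside `(0,1)`, so surjective. -/
theorem exists_gapIso {c : ℝ} (hlip : ∀ y y' : ℝ, |c * bmp y - c * bmp y'| ≤ 1 / 2 * |y - y'|) :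
    ∃ U : ℝ ≃o ℝ, ∀ y, U y = y + c * bmp y := by
  have hm : StrictMono (fun y => y + c * bmp y) := by
    intro x y hxy
    have h1 := hlip y x
    have h2 := neg_abs_le (c * bmp y - c * bmp x)
    rw [abs_of_pos (by linarith : (0 : ℝ) < y - x)] at h1
    show x + c * bmp x < y + c * bmp y
    linarith
  have hc : Continuous (fun y => y + c * bmp y) := by
    have := bmp_contDiff.continuous
    fun_prop
  have hout : ∀ y ∉ Ioo (0 : ℝ) 1, y + c * bmp y = y := by
    intro y hy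
    rw [bmp_zero hy, mul_zero, add_zero]
  have hs : Function.Surjective (fun y => y + c * bmp y) := by
    refine hc.surjective ?_ ?_
    · refine tendsto_id.congr' ?_
      filter_upwards [eventually_ge_atTop (1 : ℝ)] with x hx
      exact (hout x (fun h => absurd h.2 (not_lt.2 hx))).symm
    · refine tendsto_id.congr' ?_
      filter_upwards [eventually_le_atBot (0 : ℝ)] with x hx
      exact (hout x (fun h => absurd h.1 (not_lt.2 hx))).symm
  exact ⟨StrictMono.orderIsoOfSurjective _ hm hs, fun y => rfl⟩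

variable {lt lt' : ℕ → ℕ → Prop} [IsStrictTotalOrder ℕ lt] [IsStrictTotalOrder ℕ lt']

/-- **C4, second part.** Isomorphic orders give conjugate maps of the interval.

Proof. For each `i` let `U i y = y + (δ * eps n i / wt i) * bmp y` (`exists_gapIso`; the Lipschitz
condition from `eps_lip'` and `δ ≤ 1`), and `G i` a conjugacy from `U i` to `U (π i)` (`gap_conj`,
`bmp_pos`, `bmp_zero`), `φ` from `glue`. In the gap `i`, `r = lend lt i + wt i * y`, `y ∈ [0,1]`, we
have `r + δ * vv n lt r = lend lt i + wt i * U i y` (`vv_gap`) with `U i y ∈ [0,1]`, and so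
`φ (r + δ * vv n lt r) = lend lt' (π i) + wt (π i) * G i (U i y) = lend lt' (π i) + wt (π i) *
U (π i) (G i y) = φ r + δ * vv n lt' (φ r)` (`vv_gap` again, `G i y ∈ [0,1]`). If `r` is in no closed
gap and in `[0,1]` then `r ∈ Kset lt`, `φ r ∈ Kset lt'` and both height functions vanish
(`vv_eq_zero_iff`); if `r ∉ (0,1)`, `vv_out`. -/
theorem conj_line (n : ℕ) (π : lt ≃r lt') {δ : ℝ} (h0 : 0 < δ) (h1 : δ ≤ 1) :
    ∃ φ : ℝ ≃o ℝ, (∀ r ∉ Ioo (0 : ℝ) 1, φ r = r) ∧
      ∀ r, φ (r + δ * vv n lt r) = φ r + δ * vv n lt' (φ r) := by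
  have hU : ∀ i, ∃ U : ℝ ≃o ℝ, ∀ y, U y = y + (δ * eps n i / wt i) * bmp y := by
    intro i
    apply exists_gapIso
    intro y y'
    have hw := wt_pos i
    have h2 := eps_lip' n i y y'
    have h3 : δ * eps n i / wt i * bmp y - δ * eps n i / wt i * bmp y' =
        (δ / wt i) * (eps n i * bmp y - eps n i * bmp y') := by ring
    rw [h3, abs_mul, abs_of_pos (div_pos h0 hw)]
    calc δ / wt i * |eps n i * bmp y - eps n i * bmp y'|
        ≤ δ / wt i * (wt i / 2 * |y - y'|) :=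
          mul_le_mul_of_nonneg_left h2 (div_pos h0 hw).le
      _ = δ / 2 * |y - y'| := by field_simp
      _ ≤ 1 / 2 * |y - y'| := by
          apply mul_le_mul_of_nonneg_right _ (abs_nonneg _)
          linarith
  choose U hU using hU
  have hU0 : ∀ i, ∀ y ∉ Ioo (0 : ℝ) 1, U i y = y := fun i y hy => by
    rw [hU, bmp_zero hy, mul_zero, add_zero]
  have hU1 : ∀ i, ∀ y ∈ Ioo (0 : ℝ) 1, y < U i y := fun i y hy => by
    rw [hU]
    have := mul_pos (div_pos (mul_pos h0 (eps_pos n i)) (wt_pos i)) (bmp_pos hy)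
    linarith
  have hG := fun i => gap_conj (U i) (U (π i)) (hU0 i) (hU1 i) (hU0 (π i)) (hU1 (π i))
  choose G hG0 hG1 using hG
  obtain ⟨φ, hφ1, hφ2, hφ3⟩ := glue π G hG0
  refine ⟨φ, hφ1, fun r => ?_⟩
  have hGm : ∀ i, ∀ y ∈ Icc (0 : ℝ) 1, G i y ∈ Icc (0 : ℝ) 1 := fun i y hy => by
    have e0 : G i 0 = 0 := hG0 i 0 (by simp)
    have e1 : G i 1 = 1 := hG0 i 1 (by simp)
    exact ⟨e0 ▸ (G i).monotone hy.1, e1 ▸ (G i).monotone hy.2⟩
  have hUm : ∀ i, ∀ y ∈ Icc (0 : ℝ) 1, U i y ∈ Icc (0 : ℝ) 1 := fun i y hy => by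
    have e0 : U i 0 = 0 := hU0 i 0 (by simp)
    have e1 : U i 1 = 1 := hU0 i 1 (by simp)
    exact ⟨e0 ▸ (U i).monotone hy.1, e1 ▸ (U i).monotone hy.2⟩
  by_cases hr : ∃ i, lend lt i < r ∧ r < lend lt i + wt i
  · obtain ⟨i, hi1, hi2⟩ := hr
    have hw := wt_pos i
    obtain ⟨y, hy, rfl⟩ : ∃ y ∈ Icc (0 : ℝ) 1, r = lend lt i + wt i * y := by
      refine ⟨(r - lend lt i) / wt i, ⟨div_nonneg (by linarith) hw.le, ?_⟩, ?_⟩
      · rw [div_le_one hw]; linarith
      · field_simp
        ring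
    rw [vv_gap n i hy]
    have h2 : lend lt i + wt i * y + δ * (eps n i * bmp y) = lend lt i + wt i * U i y := by
      rw [hU]
      field_simp
      ring
    rw [h2, hφ2 i _ (hUm i y hy), hφ2 i y hy, vv_gap n (π i) (hGm i y hy), hG1, hU]
    have := wt_pos (π i)
    field_simp
    ring
  · have hd : ∀ i, r ≤ lend lt i ∨ lend lt i + wt i ≤ r := by
      intro i
      by_contra h
      push Not at h
      exact hr ⟨i, h.1, h.2⟩
    rw [vv_zero n hd, mul_zero, add_zero]
    by_cases hr01 : r ∈ Ioo (0 : ℝ) 1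
    · have h1 : r ∈ Kset lt := ⟨hr01.1.le, hr01.2.le, hd⟩
      have h2 := hφ3 r h1
      rw [vv_zero n h2.2.2, mul_zero, add_zero]
    · rw [hφ1 r hr01, vv_out n hr01, mul_zero, add_zero]

end Pool.Agent.Lib.H37C
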