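import Pool.Agent.Lib.H37C.Defs
import Pool.Agent.Lib.H37C.C4
import Pool.Agent.Lib.H37C.S5

open TopologicalSpace Set Filter Topology
open Pool.Agent.Lib.Helper37.ConjBorel

namespace Pool.Agent.Lib.H37C

/-- the radial map -/
noncomputable def c5_map {n : ℕ} (φ : ℝ ≃o ℝ) (x : Euc n) : Euc n :=
  ((φ (‖x‖ - 1) + 1) * ‖x‖⁻¹) • x

theorem c5_zero {n : ℕ} (φ : ℝ ≃o ℝ) : c5_map φ (0 : Euc n) = 0 := by
  simp [c5_map]

theorem c5_small {n : ℕ} {φ : ℝ ≃o ℝ} (hφ : ∀ r ∉ Ioo (0 : ℝ) 1, φ r = r) {x : Euc n}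
    (hx : ‖x‖ ∉ Ioo (1 : ℝ) 2) : c5_map φ x = x := by
  by_cases h0 : x = 0
  · rw [h0, c5_zero]
  · have h1 : φ (‖x‖ - 1) = ‖x‖ - 1 := hφ _ (fun h => hx ⟨by linarith [h.1], by linarith [h.2]⟩)
    have h2 : ‖x‖ ≠ 0 := norm_ne_zero_iff.2 h0
    unfold c5_map
    rw [h1, sub_add_cancel, mul_inv_cancel₀ h2, one_smul]

theorem c5_pos {n : ℕ} {φ : ℝ ≃o ℝ} (hφ : ∀ r ∉ Ioo (0 : ℝ) 1, φ r = r) {x : Euc n}
    (hx : x ≠ 0) : 0 < φ (‖x‖ - 1) + 1 := by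
  have h1 : φ (-1) = -1 := hφ _ (by simp)
  have h2 : (-1 : ℝ) < ‖x‖ - 1 := by
    have := norm_pos_iff.2 hx
    linarith
  have := φ.strictMono h2
  linarith

theorem c5_norm {n : ℕ} {φ : ℝ ≃o ℝ} (hφ : ∀ r ∉ Ioo (0 : ℝ) 1, φ r = r) (x : Euc n) :
    ‖c5_map φ x‖ = φ (‖x‖ - 1) + 1 := by
  by_cases h0 : x = 0
  · rw [h0, c5_zero, norm_zero, zero_sub, hφ (-1) (by simp)]
    ring
  · have h1 := c5_pos hφ h0
    have h2 : ‖x‖ ≠ 0 := norm_ne_zero_iff.2 h0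
    unfold c5_map
    rw [norm_smul, Real.norm_eq_abs, abs_of_nonneg (mul_nonneg h1.le (inv_nonneg.2 (norm_nonneg _))),
      mul_assoc, inv_mul_cancel₀ h2, mul_one]

theorem c5_inv {n : ℕ} {φ : ℝ ≃o ℝ} (hφ : ∀ r ∉ Ioo (0 : ℝ) 1, φ r = r) (x : Euc n) :
    c5_map φ.symm (c5_map φ x) = x := by
  by_cases h0 : x = 0
  · rw [h0, c5_zero, c5_zero]
  · have h1 := c5_pos hφ h0
    have h2 : ‖x‖ ≠ 0 := norm_ne_zero_iff.2 h0
    have h3 : φ.symm (‖c5_map φ x‖ - 1) = ‖x‖ - 1 := by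
      rw [c5_norm hφ, add_sub_cancel_right, φ.symm_apply_apply]
    rw [c5_map, h3, c5_norm hφ, c5_map, smul_smul, sub_add_cancel]
    have : ‖x‖ * (φ (‖x‖ - 1) + 1)⁻¹ * ((φ (‖x‖ - 1) + 1) * ‖x‖⁻¹) = 1 := by
      field_simp
    rw [this, one_smul]

theorem c5_cont {n : ℕ} {φ : ℝ ≃o ℝ} (hφ : ∀ r ∉ Ioo (0 : ℝ) 1, φ r = r) :
    Continuous (c5_map φ : Euc n → Euc n) := by
  rw [continuous_iff_continuousAt]
  intro x
  by_cases h0 : x = 0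
  · subst h0
    refine continuousAt_id.congr ?_
    have h1 : ∀ᶠ x : Euc n in 𝓝 0, ‖x‖ < 1 := by
      have := (continuous_norm (E := Euc n)).continuousAt (x := 0)
      exact this.eventually (by simpa using gt_mem_nhds (show (0 : ℝ) < 1 by norm_num))
    filter_upwards [h1] with x hx
    exact (c5_small hφ (fun h => absurd h.1 (not_lt.2 hx.le))).symm
  · have h2 : ‖x‖ ≠ 0 := norm_ne_zero_iff.2 h0
    unfold c5_map
    have h3 : Continuous fun x : Euc n => φ (‖x‖ - 1) + 1 := by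
      have := φ.continuous
      fun_prop
    exact (h3.continuousAt.mul (continuous_norm.continuousAt.inv₀ h2)).smul continuousAt_id

/-- **C5.** Radial homeomorphisms.

Proof: `φ` is continuous (`OrderIso.continuous`) and maps `[-1, ∞)` to itself. The map
`Φ x = ((φ (‖x‖ - 1) + 1) * ‖x‖⁻¹) • x` is continuous at `x ≠ 0` and it is the identity near `0`
(for `0 < ‖x‖ < 1`, `φ (‖x‖ - 1) = ‖x‖ - 1`; `Φ 0 = 0`). Its norm is `φ (‖x‖ - 1) + 1`. The inverse is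
the same map for `φ.symm`. -/
theorem exists_radial {n : ℕ} (φ : ℝ ≃o ℝ) (hφ : ∀ r ∉ Ioo (0 : ℝ) 1, φ r = r) :
    ∃ Φ : Euc n ≃ₜ Euc n, ∀ x, Φ x = ((φ (‖x‖ - 1) + 1) * ‖x‖⁻¹) • x := by
  have hφ' : ∀ r ∉ Ioo (0 : ℝ) 1, φ.symm r = r := fun r hr => by
    rw [φ.symm_apply_eq, hφ r hr]
  exact ⟨{ toFun := c5_map φ
           invFun := c5_map φ.symm
           left_inv := c5_inv hφ
           right_inv := fun x => c5_inv (φ := φ.symm) hφ' x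
           continuous_toFun := c5_cont hφ
           continuous_invFun := c5_cont hφ' }, fun x => rfl⟩

variable {lt lt' : ℕ → ℕ → Prop} [IsStrictTotalOrder ℕ lt] [IsStrictTotalOrder ℕ lt']

/-- **C5, second part.** Isomorphic orders give conjugate maps `psi` of the Euclidean space.

Proof: `conj_line` and `exists_radial`; for `x ≠ 0` compare norms and directions: by `psi_eq`,
`norm_psi`, `Φ (psi lt δ x)` is `x / ‖x‖` times `φ (‖x‖ - 1 + δ * vv n lt (‖x‖ - 1)) + 1` and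
`psi lt' δ (Φ x)` is `x / ‖x‖` times `φ (‖x‖ - 1) + 1 + δ * vv n lt' (φ (‖x‖ - 1))`. If `‖x‖ ≥ 2` or
`‖x‖ ≤ 1` then `Φ x = x`. -/
theorem conj_space (n : ℕ) (π : lt ≃r lt') {δ : ℝ} (h0 : 0 < δ) (h1 : δ ≤ 1) :
    ∃ Φ : Euc n ≃ₜ Euc n, (∀ x, 2 ≤ ‖x‖ → Φ x = x) ∧
      ∀ x, Φ (psi lt δ x) = psi lt' δ (Φ x) := by
  obtain ⟨φ, hφ1, hφ2⟩ := conj_line n π h0 h1
  obtain ⟨Φ, hΦ⟩ := exists_radial (n := n) φ hφ1
  have hΦ' : ∀ x, Φ x = c5_map φ x := hΦ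
  refine ⟨Φ, fun x hx => ?_, fun x => ?_⟩
  · rw [hΦ', c5_small hφ1 (fun h => absurd h.2 (not_lt.2 hx))]
  · by_cases hx : x = 0
    · subst hx
      have e1 : psi lt δ (0 : Euc n) = 0 := by rw [psi_eq]; simp
      have e2 : psi lt' δ (0 : Euc n) = 0 := by rw [psi_eq]; simp
      rw [e1, hΦ', c5_zero, e2]
    · have hn : ‖x‖ ≠ 0 := norm_ne_zero_iff.2 hx
      have hp : 0 < ‖x‖ := norm_pos_iff.2 hx
      have hv := vv_nonneg n (lt := lt) (‖x‖ - 1)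
      have hpos := c5_pos hφ1 hx
      have hψ : ‖x‖ + δ * vv n lt (‖x‖ - 1) ≠ 0 := by
        have := mul_nonneg h0.le hv
        linarith
      have hL : Φ (psi lt δ x) =
          ((φ (‖x‖ - 1) + δ * vv n lt' (φ (‖x‖ - 1)) + 1) * ‖x‖⁻¹) • x := by
        rw [hΦ', c5_map, norm_psi h0.le]
        have e1 : ‖x‖ + δ * vv n lt (‖x‖ - 1) - 1 = (‖x‖ - 1) + δ * vv n lt (‖x‖ - 1) := by ring
        rw [e1, hφ2, psi_eq, smul_smul]
        congr 1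
        field_simp
      have hN := c5_norm hφ1 x
      have hR : psi lt' δ (Φ x) =
          ((φ (‖x‖ - 1) + δ * vv n lt' (φ (‖x‖ - 1)) + 1) * ‖x‖⁻¹) • x := by
        rw [hΦ', psi_eq, hN, add_sub_cancel_right, c5_map, smul_smul]
        congr 1
        have := hpos.ne'
        field_simp
        ring
      rw [hL, hR]

end Pool.Agent.Lib.H37C
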