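import Pool.Agent.Lib.H37C.Defs

open TopologicalSpace Set Filter Topology
open scoped Manifold ContDiff
open Pool.Agent.Lib.Helper37.ConjBorel

namespace Pool.Agent.Lib.H37C

variable {n : ℕ} {M : Type*} [TopologicalSpace M] [ChartedSpace (Euc n) M]

open Classical in
/-- the self-map of `M` which is `ψ` in the chart `e` and the identity outside the chart -/
noncomputable def ext (e : OpenPartialHomeomorph M (Euc n)) (ψ : Euc n → Euc n) (z : M) : M :=
  if z ∈ e.source then e.symm (ψ (e z)) else z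

theorem ext_of_mem {e : OpenPartialHomeomorph M (Euc n)} {ψ : Euc n → Euc n} {z : M}
    (hz : z ∈ e.source) : ext e ψ z = e.symm (ψ (e z)) := by
  simp [ext, hz]

theorem ext_of_notMem {e : OpenPartialHomeomorph M (Euc n)} {ψ : Euc n → Euc n} {z : M}
    (hz : z ∉ e.source) : ext e ψ z = z := by
  simp [ext, hz]

/-- the closed set outside which `ext` is the identity -/
theorem e1_closed [T2Space M] {e : OpenPartialHomeomorph M (Euc n)}
    (hb : Metric.closedBall 0 2 ⊆ e.target) :
    IsClosed (e.symm '' Metric.closedBall (0 : Euc n) 2) :=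
  ((isCompact_closedBall (0 : Euc n) 2).image_of_continuousOn
    (e.continuousOn_symm.mono hb)).isClosed

theorem e1_off {e : OpenPartialHomeomorph M (Euc n)} {ψ : Euc n → Euc n}
    (hψ2 : ∀ x, 2 ≤ ‖x‖ → ψ x = x) {z : M}
    (hz : z ∉ e.symm '' Metric.closedBall (0 : Euc n) 2) : ext e ψ z = z := by
  by_cases h : z ∈ e.source
  · rw [ext_of_mem h]
    by_cases h2 : ‖e z‖ ≤ 2
    · exact absurd ⟨e z, by simpa using h2, e.left_inv h⟩ hz
    · rw [hψ2 _ (not_le.1 h2).le, e.left_inv h]
  · exact ext_of_notMem h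

theorem e1_notMem {e : OpenPartialHomeomorph M (Euc n)}
    (hb : Metric.closedBall 0 2 ⊆ e.target) {z : M} (hz : z ∉ e.source) :
    z ∉ e.symm '' Metric.closedBall (0 : Euc n) 2 := by
  rintro ⟨x, hx, rfl⟩
  exact hz (e.map_target (hb hx))

theorem e1_target {e : OpenPartialHomeomorph M (Euc n)}
    (hb : Metric.closedBall 0 2 ⊆ e.target) {ψ : Euc n → Euc n}
    (hψ2 : ∀ x, 2 ≤ ‖x‖ → ψ x = x) (hψi : Function.Injective ψ) {x : Euc n}
    (hx : x ∈ e.target) : ψ x ∈ e.target := by
  by_cases h : 2 ≤ ‖x‖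
  · rw [hψ2 x h]; exact hx
  · apply hb
    rw [mem_closedBall_zero_iff]
    by_contra h2
    have h3 := hψi (hψ2 (ψ x) (not_le.1 h2).le)
    rw [h3] at h2
    exact h (not_le.1 h2).le

theorem e1_comp {e : OpenPartialHomeomorph M (Euc n)}
    (hb : Metric.closedBall 0 2 ⊆ e.target) {ψ g : Euc n → Euc n}
    (hψ2 : ∀ x, 2 ≤ ‖x‖ → ψ x = x) (h1 : ∀ x, g (ψ x) = x) (z : M) :
    ext e g (ext e ψ z) = z := by
  by_cases h : z ∈ e.source
  · have h2 := e1_target hb hψ2 (Function.LeftInverse.injective h1) (e.map_source h)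
    have h3 := e.map_target h2
    rw [ext_of_mem h, ext_of_mem h3, e.right_inv h2, h1, e.left_inv h]
  · rw [ext_of_notMem h, ext_of_notMem h]

theorem e1_cont [T2Space M] {e : OpenPartialHomeomorph M (Euc n)}
    (hb : Metric.closedBall 0 2 ⊆ e.target) {ψ : Euc n → Euc n} (hψ : Continuous ψ)
    (hψ2 : ∀ x, 2 ≤ ‖x‖ → ψ x = x) (hψi : Function.Injective ψ) : Continuous (ext e ψ) := by
  rw [continuous_iff_continuousAt]
  intro z
  by_cases h : z ∈ e.source
  · have h1 : ContinuousAt (fun z => e.symm (ψ (e z))) z := by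
      refine ContinuousAt.comp (g := e.symm) (f := fun z => ψ (e z)) ?_ ?_
      · exact e.symm.continuousAt (e1_target hb hψ2 hψi (e.map_source h))
      · exact hψ.continuousAt.comp (e.continuousAt h)
    refine h1.congr ?_
    filter_upwards [e.open_source.mem_nhds h] with w hw
    exact (ext_of_mem hw).symm
  · refine continuousAt_id.congr ?_
    filter_upwards [(e1_closed hb).isOpen_compl.mem_nhds (e1_notMem hb h)] with w hw
    exact (e1_off hψ2 hw).symm

theorem e1_smooth [T2Space M] [IsManifold (𝓡 n) ∞ M] {e : OpenPartialHomeomorph M (Euc n)}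
    (he : e ∈ IsManifold.maximalAtlas (𝓡 n) ∞ M)
    (hb : Metric.closedBall 0 2 ⊆ e.target) {ψ : Euc n → Euc n} (hψ : ContDiff ℝ ∞ ψ)
    (hψ2 : ∀ x, 2 ≤ ‖x‖ → ψ x = x) (hψi : Function.Injective ψ) :
    ContMDiff (𝓡 n) (𝓡 n) ∞ (ext e ψ) := by
  intro z
  by_cases h : z ∈ e.source
  · have h1 : ContMDiffAt (𝓡 n) (𝓡 n) ∞ (fun z => e.symm (ψ (e z))) z := by
      have h2 : ContMDiffAt (𝓡 n) (𝓡 n) ∞ ψ (e z) := hψ.contMDiff.contMDiffAt
      have h3 : ContMDiffAt (𝓡 n) (𝓡 n) ∞ e z :=
        (contMDiffOn_of_mem_maximalAtlas he).contMDiffAt (e.open_source.mem_nhds h)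
      have h4 : ContMDiffAt (𝓡 n) (𝓡 n) ∞ e.symm (ψ (e z)) :=
        (contMDiffOn_symm_of_mem_maximalAtlas he).contMDiffAt
          (e.open_target.mem_nhds (e1_target hb hψ2 hψi (e.map_source h)))
      exact h4.comp z (h2.comp z h3)
    refine h1.congr_of_eventuallyEq ?_
    filter_upwards [e.open_source.mem_nhds h] with w hw
    exact ext_of_mem hw
  · refine contMDiffAt_id.congr_of_eventuallyEq ?_
    filter_upwards [(e1_closed hb).isOpen_compl.mem_nhds (e1_notMem hb h)] with w hw
    exact e1_off hψ2 hw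

/-- **E1.** Homeomorphisms of the Euclidean space supported in the ball of radius `2` give
homeomorphisms of `M`, if the ball is in the image of the chart.

Proof: `Φ` maps the ball to itself (it is a bijection and the identity outside), so `ext e Φ` and
`ext e Φ.symm` are inverse to each other (`e z` in the ball or not). Continuity of `ext e Φ`: on the
open set `e.source` it is `e.symm ∘ Φ ∘ e`; the set `e.symm '' closedBall 0 2` is compact, so closed,
and outside this set `ext e Φ` is the identity; the two open sets cover `M`. -/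
theorem exists_homeo [T2Space M] {e : OpenPartialHomeomorph M (Euc n)}
    (hb : Metric.closedBall 0 2 ⊆ e.target) (Φ : Euc n ≃ₜ Euc n) (hΦ : ∀ x, 2 ≤ ‖x‖ → Φ x = x) :
    ∃ H : M ≃ₜ M, ∀ z, H z = ext e Φ z := by
  have hΦ' : ∀ x, 2 ≤ ‖x‖ → Φ.symm x = x := fun x hx => by
    rw [Φ.symm_apply_eq, hΦ x hx]
  exact ⟨{ toFun := ext e Φ
           invFun := ext e Φ.symm
           left_inv := e1_comp hb hΦ Φ.symm_apply_apply
           right_inv := e1_comp hb hΦ' Φ.apply_symm_apply
           continuous_toFun := e1_cont hb Φ.continuous hΦ Φ.injective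
           continuous_invFun := e1_cont hb Φ.symm.continuous hΦ' Φ.symm.injective },
    fun z => rfl⟩

/-- **E1, second part.** The same for diffeomorphisms. -/
theorem exists_diff [T2Space M] [IsManifold (𝓡 n) ∞ M] {e : OpenPartialHomeomorph M (Euc n)}
    (he : e ∈ IsManifold.maximalAtlas (𝓡 n) ∞ M) (hb : Metric.closedBall 0 2 ⊆ e.target)
    {ψ g : Euc n → Euc n} (hψ : ContDiff ℝ ∞ ψ) (hg : ContDiff ℝ ∞ g) (h1 : ∀ x, g (ψ x) = x)
    (h2 : ∀ x, ψ (g x) = x) (hψ2 : ∀ x, 2 ≤ ‖x‖ → ψ x = x) :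
    ∃ G : DiffInf n M, ∀ z, G z = ext e ψ z := by
  have hg2 : ∀ x, 2 ≤ ‖x‖ → g x = x := fun x hx => by
    rw [← hψ2 x hx, h1, hψ2 x hx]
  exact ⟨{ toFun := ext e ψ
           invFun := ext e g
           left_inv := e1_comp hb hψ2 h1
           right_inv := e1_comp hb hg2 h2
           contMDiff_toFun := e1_smooth he hb hψ hψ2 (Function.LeftInverse.injective h1)
           contMDiff_invFun := e1_smooth he hb hg hg2 (Function.LeftInverse.injective h2) },
    fun z => rfl⟩

end Pool.Agent.Lib.H37C
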