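import Pool.Agent.Lib.H37C.Defs
import Pool.Agent.Lib.H37C.E1

open TopologicalSpace Set Filter Topology
open scoped Manifold ContDiff
open Pool.Agent.Lib.Helper37.ConjBorel

namespace Pool.Agent.Lib.H37C

variable {n : ℕ} {M : Type*} [TopologicalSpace M] [ChartedSpace (Euc n) M]

/-- A chart inside a periodic spot of `f₀` of exact period `m`. -/
structure SpotData (f₀ : DiffInf n M) (m : ℕ) (e : OpenPartialHomeomorph M (Euc n)) : Prop where
  pos : 0 < m
  mem : e ∈ IsManifold.maximalAtlas (𝓡 n) ∞ M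
  ball : Metric.closedBall 0 2 ⊆ e.target
  per : ∀ z ∈ e.source, (⇑f₀)^[m] z = z
  disj : ∀ i, 0 < i → i < m → ∀ z ∈ e.source, (⇑f₀)^[i] z ∉ e.source

/-- **D1.** The points of a spot: after shrinking, they have the same exact period and the iterates
of the spot are disjoint.

Proof. Let `W` be open, nonempty with `f^q = id` on `W`. Each point of `W` is periodic with minimal
period (`Function.minimalPeriod`) at most `q`. Choose `x ∈ W` with maximal minimal period `m`. The
points `f^i x`, `0 ≤ i < m`, are distinct; as `M` is Hausdorff there are disjoint neighbourhoods, so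
an open `W' ∋ x`, `W' ⊆ W` with `f^i W' ∩ W' = ∅` for `0 < i < m` (for each `i` separately: disjoint
neighbourhoods of `x` and `f^i x`, continuity of `f^i`, finite intersection). All points of `W'` have
minimal period at least `m` (as `f^i y ≠ y` for `0 < i < m`), so exactly `m` by maximality, hence
`f^m = id` on `W'`. -/
theorem exists_disjoint_spot [T2Space M] (f : DiffInf n M) (h : HasSpot f) :
    ∃ m : ℕ, 0 < m ∧ ∃ W : Set M, IsOpen W ∧ W.Nonempty ∧ (∀ x ∈ W, (⇑f)^[m] x = x) ∧
      ∀ i, 0 < i → i < m → ∀ x ∈ W, (⇑f)^[i] x ∉ W := by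
  classical
  obtain ⟨q, hq, W, hW, hne, hper⟩ := h
  have hpp : ∀ x ∈ W, Function.IsPeriodicPt (⇑f) q x := hper
  let S : Set ℕ := {k | ∃ x ∈ W, Function.minimalPeriod (⇑f) x = k}
  have hSne : S.Nonempty := by
    obtain ⟨x, hx⟩ := hne
    exact ⟨_, x, hx, rfl⟩
  have hSb : BddAbove S := ⟨q, by
    rintro _ ⟨x, hx, rfl⟩
    exact Nat.le_of_dvd hq (hpp x hx).minimalPeriod_dvd⟩
  obtain ⟨x, hx, hxm⟩ := Nat.sSup_mem hSne hSb
  set m := sSup S with hm
  have hmax : ∀ y ∈ W, Function.minimalPeriod (⇑f) y ≤ m := fun y hy =>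
    le_csSup hSb ⟨y, hy, rfl⟩
  have hmpos : 0 < m := by
    rw [← hxm]
    exact (hpp x hx).minimalPeriod_pos hq
  have hcont : ∀ i, Continuous ((⇑f)^[i]) := fun i => f.continuous.iterate i
  have hN : ∀ i, 0 < i → i < m → ∃ N : Set M, IsOpen N ∧ x ∈ N ∧ ∀ y ∈ N, (⇑f)^[i] y ∉ N := by
    intro i hi him
    have hne : x ≠ (⇑f)^[i] x := by
      intro h1
      have h2 : Function.IsPeriodicPt (⇑f) i x := h1.symm
      have h3 := h2.minimalPeriod_le hi
      omega
    obtain ⟨U, V, hU, hV, hxU, hxV, hUV⟩ := t2_separation hne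
    refine ⟨U ∩ (⇑f)^[i] ⁻¹' V, hU.inter (hV.preimage (hcont i)), ⟨hxU, hxV⟩, ?_⟩
    rintro y ⟨hy1, hy2⟩ ⟨hy3, -⟩
    exact Set.disjoint_left.1 hUV hy3 hy2
  choose! N hN1 hN2 hN3 using hN
  refine ⟨m, hmpos, W ∩ ⋂ i ∈ Finset.Ioo 0 m, N i, hW.inter (isOpen_biInter_finset fun i hi => ?_),
    ⟨x, hx, ?_⟩, ?_, ?_⟩
  · rw [Finset.mem_Ioo] at hi
    exact hN1 i hi.1 hi.2
  · simp only [mem_iInter]
    intro i hi
    rw [Finset.mem_Ioo] at hi
    exact hN2 i hi.1 hi.2
  · rintro y ⟨hy1, hy2⟩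
    simp only [mem_iInter] at hy2
    have hpos := (hpp y hy1).minimalPeriod_pos hq
    have h1 : m ≤ Function.minimalPeriod (⇑f) y := by
      by_contra h2
      have h3 := hy2 (Function.minimalPeriod (⇑f) y) (Finset.mem_Ioo.2 ⟨hpos, not_le.1 h2⟩)
      have h4 := hN3 _ hpos (not_le.1 h2) y h3
      rw [Function.iterate_minimalPeriod] at h4
      exact h4 h3
    have h2 : Function.minimalPeriod (⇑f) y = m := le_antisymm (hmax y hy1) h1
    have h3 : (⇑f)^[Function.minimalPeriod (⇑f) y] y = y := Function.iterate_minimalPeriod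
    rwa [h2] at h3
  · rintro i hi him y ⟨-, hy2⟩ ⟨-, hy3⟩
    simp only [mem_iInter] at hy2 hy3
    exact hN3 i hi him y (hy2 i (Finset.mem_Ioo.2 ⟨hi, him⟩)) (hy3 i (Finset.mem_Ioo.2 ⟨hi, him⟩))

/-- **D1, second part.** A chart in an open set whose image contains the ball of radius `2`.

Proof: let `p ∈ W`, `e₀ = chartAt p`, restricted to `W` (`OpenPartialHomeomorph.restrOpen` or
`restr`; in the maximal atlas: `restriction_mem_maximalAtlas`-like lemmas,
`StructureGroupoid.restriction_in_maximalAtlas`), followed by the affine homeomorphism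
`y ↦ (2 / ρ) • (y - e₀ p)` with `closedBall (e₀ p) ρ ⊆ e₀.target`
(`OpenPartialHomeomorph.transHomeomorph` or `trans`). It is in the maximal atlas since the affine map
is smooth with smooth inverse (`mem_maximalAtlas_iff`, `contDiffGroupoid`). -/
theorem exists_chart [IsManifold (𝓡 n) ∞ M] {W : Set M} (hW : IsOpen W) (hne : W.Nonempty) :
    ∃ e : OpenPartialHomeomorph M (Euc n), e ∈ IsManifold.maximalAtlas (𝓡 n) ∞ M ∧
      e.source ⊆ W ∧ Metric.closedBall 0 2 ⊆ e.target := by
  obtain ⟨p, hp⟩ := hne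
  set e₀ := (chartAt (Euc n) p).restr W with he₀
  have h₀ : e₀ ∈ (contDiffGroupoid ∞ (𝓡 n)).maximalAtlas M :=
    restr_mem_maximalAtlas _ (IsManifold.chart_mem_maximalAtlas p) hW
  have hs₀ : e₀.source = (chartAt (Euc n) p).source ∩ W := by
    rw [he₀, OpenPartialHomeomorph.restr_source, hW.interior_eq]
  have hp₀ : p ∈ e₀.source := by rw [hs₀]; exact ⟨mem_chart_source _ _, hp⟩
  obtain ⟨ρ, hρ, hball⟩ := Metric.nhds_basis_closedBall.mem_iff.1
    (e₀.open_target.mem_nhds (e₀.map_source hp₀))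
  -- the affine homeomorphism
  let a : Euc n ≃ₜ Euc n :=
    { toFun := fun y => (2 / ρ) • (y - e₀ p)
      invFun := fun y => (ρ / 2) • y + e₀ p
      left_inv := fun y => by
        simp only [smul_smul]
        rw [show ρ / 2 * (2 / ρ) = 1 by field_simp, one_smul, sub_add_cancel]
      right_inv := fun y => by
        simp only [add_sub_cancel_right, smul_smul]
        rw [show 2 / ρ * (ρ / 2) = 1 by field_simp, one_smul]
      continuous_toFun := by fun_prop
      continuous_invFun := by fun_prop }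
  have ha : a.toOpenPartialHomeomorph ∈ contDiffGroupoid ∞ (𝓡 n) := by
    rw [contDiffGroupoid, mem_groupoid_of_pregroupoid]
    constructor
    · show ContDiffOn ℝ ∞ _ _
      have : ContDiff ℝ ∞ (fun y : Euc n => (2 / ρ) • (y - e₀ p)) := by fun_prop
      exact this.contDiffOn
    · show ContDiffOn ℝ ∞ _ _
      have : ContDiff ℝ ∞ (fun y : Euc n => (ρ / 2) • y + e₀ p) := by fun_prop
      exact this.contDiffOn
  have ha' : a.toOpenPartialHomeomorph.symm ∈ contDiffGroupoid ∞ (𝓡 n) :=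
    StructureGroupoid.symm _ ha
  refine ⟨e₀.trans a.toOpenPartialHomeomorph, ?_, ?_, ?_⟩
  · show _ ∈ (contDiffGroupoid ∞ (𝓡 n)).maximalAtlas M
    rw [mem_maximalAtlas_iff] at h₀ ⊢
    intro e' he'
    obtain ⟨h1, h2⟩ := h₀ e' he'
    constructor
    · rw [OpenPartialHomeomorph.trans_symm_eq_symm_trans_symm, OpenPartialHomeomorph.trans_assoc]
      exact StructureGroupoid.trans _ ha' h1
    · rw [← OpenPartialHomeomorph.trans_assoc]
      exact StructureGroupoid.trans _ h2 ha
  · intro z hz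
    rw [OpenPartialHomeomorph.trans_source] at hz
    have := hz.1
    rw [hs₀] at this
    exact this.2
  · intro y hy
    rw [OpenPartialHomeomorph.trans_target]
    refine ⟨mem_univ _, ?_⟩
    show (ρ / 2) • y + e₀ p ∈ e₀.target
    apply hball
    rw [Metric.mem_closedBall, dist_eq_norm, add_sub_cancel_right, norm_smul, Real.norm_eq_abs,
      abs_of_pos (by positivity)]
    rw [mem_closedBall_zero_iff] at hy
    nlinarith

theorem exists_spotData [T2Space M] [IsManifold (𝓡 n) ∞ M] (f : DiffInf n M) (h : HasSpot f) :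
    ∃ (m : ℕ) (e : OpenPartialHomeomorph M (Euc n)), SpotData f m e := by
  obtain ⟨m, hm, W, hW, hne, h1, h2⟩ := exists_disjoint_spot f h
  obtain ⟨e, he, hs, hb⟩ := exists_chart (n := n) hW hne
  exact ⟨m, e, hm, he, hb, fun z hz => h1 z (hs hz), fun i h0 hi z hz hz' =>
    h2 i h0 hi z (hs hz) (hs hz')⟩

end Pool.Agent.Lib.H37C
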