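import Pool.Agent.Lib.H37C.Defs
import Pool.Agent.Lib.H37C.D1

open TopologicalSpace Set Filter Topology
open scoped Manifold ContDiff
open Pool.Agent.Lib.Helper37.ConjBorel

namespace Pool.Agent.Lib.H37C

variable {n : ℕ} {M : Type*} [TopologicalSpace M] [ChartedSpace (Euc n) M]

/-- the open shell in the chart -/
def Co (e : OpenPartialHomeomorph M (Euc n)) : Set M := {z | z ∈ e.source ∧ 1 < ‖e z‖ ∧ ‖e z‖ < 2}

/-- the radial coordinate -/
noncomputable def rad (e : OpenPartialHomeomorph M (Euc n)) (z : M) : ℝ := ‖e z‖ - 1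

variable {f₀ : DiffInf n M} {m : ℕ} {e : OpenPartialHomeomorph M (Euc n)}

/-- **D2.** `ψ` is a bijection of the ball to itself; `F = f₀ ∘ ext e ψ`. In the spot, the `m`-th
iterate of `F` is `ext e ψ`.

Proof: let `y = ext e ψ z ∈ e.source` (`e.map_target`; `ψ (e z)` is in the target: if `‖e z‖ ≤ 2` by
`hψb` and `ball`, else `ψ (e z) = e z`). By induction `F^[j] z = f₀^[j] y` for `1 ≤ j ≤ m`: for
`1 ≤ j < m` the point `f₀^[j] y` is not in `e.source` (`disj`), so `ext e ψ` fixes it. And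
`f₀^[m] y = y` (`per`). -/
theorem iter_on (hS : SpotData f₀ m e) {ψ : Euc n → Euc n} (hψ : ∀ x, 2 ≤ ‖x‖ → ψ x = x)
    (hψb : ∀ x, ‖x‖ ≤ 2 → ‖ψ x‖ ≤ 2) {F : DiffInf n M} (hF : ∀ z, F z = f₀ (ext e ψ z)) {z : M}
    (hz : z ∈ e.source) : (⇑F)^[m] z = ext e ψ z := by
  have hy : ext e ψ z ∈ e.source := by
    rw [ext_of_mem hz]
    apply e.map_target
    by_cases h : ‖e z‖ ≤ 2
    · exact hS.ball (by simpa using hψb _ h)
    · rw [hψ _ (not_le.1 h).le]
      exact e.map_source hz
  have key : ∀ j, j < m → (⇑F)^[j + 1] z = (⇑f₀)^[j + 1] (ext e ψ z) := by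
    intro j
    induction j with
    | zero => intro _; exact hF z
    | succ j ih =>
      intro hj
      have h1 := ih (by omega)
      rw [Function.iterate_succ_apply', h1, Function.iterate_succ_apply' _ (j + 1), hF,
        ext_of_notMem (hS.disj (j + 1) (by omega) hj _ hy)]
  obtain ⟨k, hk⟩ : ∃ k, m = k + 1 := ⟨m - 1, by have := hS.pos; omega⟩
  have h2 := key k (by omega)
  rw [← hk] at h2
  rw [h2, hS.per _ hy]

/-- **D2, second part.** Outside the orbit of the shell nothing changes.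

Proof: `ext e ψ` is the identity outside `Co e` (`hψ1`). By induction on `j ≤ m`,
`F^[j] z = f₀^[j] z`: for this `f₀^[j] z` must not be in `Co e` for `j < m`. If `y = f₀^[j] z ∈ Co e`,
`j > 0`, then `f₀^[m-j] y = f₀^[m-j] (f₀^[j] z)`; the point `z' = f₀^[m-j] y` satisfies
`f₀^[j] z' = f₀^[m] y = y = f₀^[j] z`, so `z' = z` by injectivity of `f₀`, a contradiction to `hz` with
`i = m - j < m`. For `j = 0`, `z ∉ Co e` by `hz` with `i = 0`. -/
theorem iter_off (hS : SpotData f₀ m e) {ψ : Euc n → Euc n}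
    (hψ1 : ∀ x, ¬ (1 < ‖x‖ ∧ ‖x‖ < 2) → ψ x = x) {F : DiffInf n M}
    (hF : ∀ z, F z = f₀ (ext e ψ z)) {z : M} (hz : ∀ i < m, ∀ y ∈ Co e, (⇑f₀)^[i] y ≠ z) :
    (⇑F)^[m] z = (⇑f₀)^[m] z := by
  have hfix : ∀ w, w ∉ Co e → ext e ψ w = w := by
    intro w hw
    by_cases h : w ∈ e.source
    · rw [ext_of_mem h, hψ1 _ (fun h2 => hw ⟨h, h2⟩), e.left_inv h]
    · exact ext_of_notMem h
  have hinj : Function.Injective (⇑f₀) := f₀.injective
  have hnot : ∀ j < m, (⇑f₀)^[j] z ∉ Co e := by
    intro j hj hmem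
    rcases Nat.eq_zero_or_pos j with rfl | hpos
    · exact hz 0 hS.pos _ hmem rfl
    · refine hz (m - j) (by omega) _ hmem ?_
      apply hinj.iterate j
      rw [← Function.iterate_add_apply, show j + (m - j) = m by omega]
      exact hS.per _ hmem.1
  have key : ∀ j ≤ m, (⇑F)^[j] z = (⇑f₀)^[j] z := by
    intro j
    induction j with
    | zero => intro _; rfl
    | succ j ih =>
      intro hj
      rw [Function.iterate_succ_apply', ih (by omega), hF, hfix _ (hnot j (by omega)),
        Function.iterate_succ_apply']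
  exact key m le_rfl

/-- **D2, third part.** The points of the orbit of the shell return to the shell: for `0 ≤ i ≤ m` the
point `f₀^[i] y`, `y ∈ Co e`, is mapped by some iterate of `F` (namely `m - i`, or `0` for `i = 0`) to
`y`. -/
theorem iter_back (hS : SpotData f₀ m e) {ψ : Euc n → Euc n} {F : DiffInf n M}
    (hF : ∀ z, F z = f₀ (ext e ψ z)) {y : M} (hy : y ∈ Co e) {i : ℕ} (hi : i < m) :
    ∃ j, (⇑F)^[j] ((⇑f₀)^[i] y) = y := by
  rcases Nat.eq_zero_or_pos i with rfl | hpos
  · exact ⟨0, rfl⟩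
  · refine ⟨m - i, ?_⟩
    have key : ∀ j, j + i ≤ m → (⇑F)^[j] ((⇑f₀)^[i] y) = (⇑f₀)^[j + i] y := by
      intro j
      induction j with
      | zero => intro _; simp
      | succ j ih =>
        intro hj
        rw [Function.iterate_succ_apply', ih (by omega), hF,
          ext_of_notMem (hS.disj (j + i) (by omega) (by omega) _ hy.1),
          show j + 1 + i = (j + i) + 1 by omega, Function.iterate_succ_apply']
    rw [key (m - i) (by omega), show m - i + i = m by omega]
    exact hS.per _ hy.1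

end Pool.Agent.Lib.H37C
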