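import Pool.Agent.Lib.H37C.Defs
import Pool.Agent.Lib.H37C.S2
import Pool.Agent.Lib.H37C.S4
import Pool.Agent.Lib.H37C.S5

open TopologicalSpace Set Filter Topology
open scoped Manifold ContDiff
open Pool.Agent.Lib.Helper37.ConjBorel

namespace Pool.Agent.Lib.H37C

/-- **S6.** The left ends of the gaps depend continuously on the order.

Proof: `continuous_tsum` with the summable bound `wt j`; each term is continuous, as the set
`{t | lt t j i}` is clopen (`IsClopen.continuous_indicator`-like, `continuous_const.piecewise`). -/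
theorem continuous_lend {T : Type*} [TopologicalSpace T] (lt : T → ℕ → ℕ → Prop)
    (hc : ∀ i j, IsClopen {t | lt t i j}) (i : ℕ) : Continuous fun t => lend (lt t) i := by
  unfold lend
  refine continuous_tsum (u := wt) (fun j => ?_) hasSum_wt.summable (fun j t => ?_)
  · have e : (fun t => Set.indicator {j | lt t j i} wt j)
        = Set.indicator {t | lt t j i} (fun _ => wt j) := by
      funext t
      by_cases h : lt t j i
      · rw [Set.indicator_of_mem (s := {j | lt t j i}) h, Set.indicator_of_mem (s := {t | lt t j i}) h]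
      · rw [Set.indicator_of_notMem (s := {j | lt t j i}) h,
          Set.indicator_of_notMem (s := {t | lt t j i}) h]
    rw [e]
    refine continuous_const.indicator ?_
    intro a ha
    rw [(hc j i).frontier_eq] at ha
    exact absurd ha (Set.notMem_empty a)
  · have h0 : 0 ≤ wt j := (wt_pos j).le
    rw [Real.norm_eq_abs, abs_of_nonneg (Set.indicator_nonneg (fun _ _ => (wt_pos _).le) j)]
    exact Set.indicator_le_self' (fun _ _ => (wt_pos _).le) j

theorem s6_contDiff {n : ℕ} (i : ℕ) {s : ℝ} (hs : 0 ≤ s) :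
    ContDiff ℝ ∞ (fun x : Euc n => eps n i • Vf (wt i) s x) := by
  rw [contDiff_iff_contDiffAt]
  intro x
  have h := (Vf_contDiffOn (n := n) (wt_pos i)).contDiffAt (x := (s, x))
    ((isOpen_lt continuous_const continuous_fst).mem_nhds (by
      show -(1 / 2) < s
      linarith))
  have h2 : ContDiffAt ℝ ∞ (fun x : Euc n => (s, x)) x := (contDiff_prodMk_right s).contDiffAt
  exact (ContDiffAt.comp x (g := fun p : ℝ × Euc n => Vf (wt i) p.1 p.2) h h2).const_smul _

theorem s6_reg {n : ℕ} {T : Type*} [TopologicalSpace T] (lt : T → ℕ → ℕ → Prop)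
    (hc : ∀ i j, IsClopen {t | lt t i j}) (i : ℕ) (t₀ : T) (x₀ : Euc n) :
    RegN ⊤ (fun t => (fun x : Euc n => eps n i • Vf (wt i) (lend (lt t) i) x)) t₀ x₀ := by
  refine RegN.reparam (g := fun s => (fun x : Euc n => eps n i • Vf (wt i) s x))
    (σ := fun t => lend (lt t) i) ?_ (continuous_lend lt hc i).continuousAt
  refine regN_of_joint _ (O := {p : ℝ × Euc n | -(1 / 2) < p.1})
    (isOpen_lt continuous_const continuous_fst) ?_ ?_
  · exact (Vf_contDiffOn (n := n) (wt_pos i)).const_smul _
  · show -(1 / 2) < lend (lt t₀) i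
    have := lend_nonneg (lt t₀) i
    linarith

/-- **S6, second part.** The field is a regular family.

Proof: the term `i` is the family `s ↦ (x ↦ eps n i • Vf (wt i) s x)`, reparametrized by
`s = lend (lt t) i`; it is regular (`Vf_contDiffOn`, `regN_of_joint`, `RegN.reparam`,
`continuous_lend`) and its `k`-th derivatives are bounded by the summable sequence of `eps_bound n k`
(`lend_nonneg`, `lend_add_le_one`). So the sum is smooth (`contDiff_tsum`), its `k`-th derivative is
the sum of the `k`-th derivatives (`iteratedFDeriv_tsum`), and this is continuous in `(t, x)`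
(`continuous_tsum`). -/
theorem fld_regN {n : ℕ} {T : Type*} [TopologicalSpace T] (lt : T → ℕ → ℕ → Prop)
    (hs : ∀ t, IsStrictTotalOrder ℕ (lt t)) (hc : ∀ i j, IsClopen {t | lt t i j}) (t₀ : T)
    (x₀ : Euc n) : RegN ⊤ (fun t => (Fld (lt t) : Euc n → Euc n)) t₀ x₀ := by
  choose u hu hb using eps_bound n
  have hB : ∀ (t : T) (k i : ℕ) (x : Euc n),
      ‖iteratedFDeriv ℝ k (fun x : Euc n => eps n i • Vf (wt i) (lend (lt t) i) x) x‖ ≤ u k i := by
    intro t k i x
    have := hs t
    exact hb k i _ (lend_nonneg _ _) (lend_add_le_one i) x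
  have hC : ∀ (t : T) (i : ℕ),
      ContDiff ℝ ((⊤ : ℕ∞) : WithTop ℕ∞)
        (fun x : Euc n => eps n i • Vf (wt i) (lend (lt t) i) x) := by
    intro t i
    exact s6_contDiff i (lend_nonneg _ _)
  refine ⟨Eventually.of_forall fun p => ?_, fun k _ => ?_⟩
  · have h := contDiff_tsum (𝕜 := ℝ) (N := (⊤ : ℕ∞)) (v := u) (hC p.1) (fun k _ => hu k)
      (fun k i x _ => hB p.1 k i x)
    exact h.contDiffAt
  · have e : (fun p : T × Euc n => iteratedFDeriv ℝ k (Fld (lt p.1) : Euc n → Euc n) p.2) =
        fun p : T × Euc n => ∑' i, iteratedFDeriv ℝ k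
          (fun x : Euc n => eps n i • Vf (wt i) (lend (lt p.1) i) x) p.2 := by
      funext p
      exact iteratedFDeriv_tsum_apply (𝕜 := ℝ) (N := (⊤ : ℕ∞)) (v := u) (hC p.1) (fun k _ => hu k)
        (fun k i x _ => hB p.1 k i x) le_top p.2
    rw [e]
    have hcont : ∀ i, Continuous (fun p : T × Euc n => iteratedFDeriv ℝ k
          (fun x : Euc n => eps n i • Vf (wt i) (lend (lt p.1) i) x) p.2) := by
      intro i
      rw [continuous_iff_continuousAt]
      rintro ⟨t, x⟩
      exact (s6_reg lt hc i t x).2 k le_top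
    exact (continuous_tsum hcont (hu k) (fun i p => hB p.1 k i p.2)).continuousAt

/-- **S6, third part.** The family `psi (lt t) δ` is regular in `(t, δ)`.

Proof: `psi (lt t) δ x = x + δ • Fld (lt t) x`: sums and multiples by the parameter; the iterated
derivatives are those of the identity plus `δ` times those of `Fld (lt t)`. (Or `RegN.comp` with the
jointly smooth map `(δ, x, y) ↦ x + δ • y`.) -/
theorem psi_regN {n : ℕ} {T : Type*} [TopologicalSpace T] (lt : T → ℕ → ℕ → Prop)
    (hs : ∀ t, IsStrictTotalOrder ℕ (lt t)) (hc : ∀ i j, IsClopen {t | lt t i j}) (p₀ : T × ℝ)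
    (x₀ : Euc n) : RegN ⊤ (fun p : T × ℝ => (psi (lt p.1) p.2 : Euc n → Euc n)) p₀ x₀ := by
  have hF : ∀ t : T, ContDiff ℝ ∞ (Fld (lt t) : Euc n → Euc n) := by
    intro t
    rw [contDiff_iff_contDiffAt]
    intro x
    exact (fld_regN lt hs hc t x).1.self_of_nhds
  refine ⟨Eventually.of_forall fun p => ?_, fun k hk => ?_⟩
  · have h : ContDiff ℝ ∞ (fun x : Euc n => x + p.1.2 • Fld (lt p.1.1) x) :=
      contDiff_id.add ((hF p.1.1).const_smul p.1.2)
    exact h.contDiffAt
  · have e : (fun p : (T × ℝ) × Euc n =>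
          iteratedFDeriv ℝ k (psi (lt p.1.1) p.1.2 : Euc n → Euc n) p.2) =
        fun p : (T × ℝ) × Euc n => iteratedFDeriv ℝ k (fun x : Euc n => x) p.2 +
          p.1.2 • iteratedFDeriv ℝ k (Fld (lt p.1.1) : Euc n → Euc n) p.2 := by
      funext p
      have h1 : ContDiffAt ℝ k (fun x : Euc n => x) p.2 := contDiffAt_id
      have h2 : ContDiffAt ℝ k (fun x : Euc n => p.1.2 • Fld (lt p.1.1) x) p.2 :=
        (((hF p.1.1).const_smul p.1.2).of_le (by exact_mod_cast le_top)).contDiffAt
      have h3 : ContDiffAt ℝ k (Fld (lt p.1.1) : Euc n → Euc n) p.2 :=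
        ((hF p.1.1).of_le (by exact_mod_cast le_top)).contDiffAt
      have h4 := iteratedFDeriv_add_apply h1 h2
      have h5 := iteratedFDeriv_const_smul_apply (a := p.1.2) h3
      have h6 : (psi (lt p.1.1) p.1.2 : Euc n → Euc n) =
          (fun x : Euc n => x) + (fun x : Euc n => p.1.2 • Fld (lt p.1.1) x) := rfl
      have h7 : (fun x : Euc n => p.1.2 • Fld (lt p.1.1) x) =
          p.1.2 • (Fld (lt p.1.1) : Euc n → Euc n) := rfl
      rw [h6, h4, h7, h5]
    rw [e]
    refine ContinuousAt.fun_add ?_ (ContinuousAt.fun_smul ?_ ?_)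
    · have h8 : Continuous (fun x : Euc n => iteratedFDeriv ℝ k (fun x : Euc n => x) x) :=
        (contDiff_id (𝕜 := ℝ) (n := (⊤ : ℕ∞))).continuous_iteratedFDeriv (by exact_mod_cast le_top)
      exact (h8.comp continuous_snd).continuousAt
    · exact (continuous_snd.comp continuous_fst).continuousAt
    · have h9 := (fld_regN lt hs hc p₀.1 x₀).2 k le_top
      have h10 : ContinuousAt (fun p : (T × ℝ) × Euc n => (p.1.1, p.2)) (p₀, x₀) :=
        ((continuous_fst.comp continuous_fst).prodMk continuous_snd).continuousAt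
      have h11 : ContinuousAt (fun p : T × Euc n =>
        iteratedFDeriv ℝ k (Fld (lt p.1) : Euc n → Euc n) p.2)
          ((fun p : (T × ℝ) × Euc n => (p.1.1, p.2)) (p₀, x₀)) := h9
      exact ContinuousAt.comp (f := fun p : (T × ℝ) × Euc n => (p.1.1, p.2)) h11 h10

end Pool.Agent.Lib.H37C
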