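import Pool.Agent.Lib.H37C.Defs
import Pool.Agent.Lib.H37C.S4
import Pool.Agent.Lib.H37C.S5
import Pool.Agent.Lib.H37C.S6

open TopologicalSpace Set Filter Topology
open scoped Manifold ContDiff NNReal
open Pool.Agent.Lib.Helper37.ConjBorel

namespace Pool.Agent.Lib.H37C

variable {lt : ℕ → ℕ → Prop} [IsStrictTotalOrder ℕ lt]

theorem s7_summable {n : ℕ} (x : Euc n) :
    Summable fun i => eps n i • Vf (wt i) (lend lt i) x := by
  obtain ⟨u, hu, hb⟩ := eps_bound n 0
  refine Summable.of_norm_bounded hu fun i => ?_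
  have h := hb i (lend lt i) (lend_nonneg _ _) (lend_add_le_one i) x
  rwa [norm_iteratedFDeriv_zero] at h

/-- **S7.** The field is Lipschitz with constant `1/2` (sum of the constants `(1/2)^(i+2)`, a
geometric series; `eps_lip`; the series converges absolutely by `eps_bound n 0`). -/
theorem fld_lip {n : ℕ} (x y : Euc n) : ‖(Fld lt x : Euc n) - Fld lt y‖ ≤ 1 / 2 * ‖x - y‖ := by
  have hg : HasSum (fun i : ℕ => (1 / 2 : ℝ) ^ (i + 2) * ‖x - y‖) (1 / 2 * ‖x - y‖) := by
    have h1 : HasSum (fun i : ℕ => (1 / 2 : ℝ) ^ (i + 2)) (1 / 2) := by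
      have h2 := (hasSum_geometric_two).mul_right ((1 / 2 : ℝ) ^ 2)
      have e : (fun i : ℕ => (1 / 2 : ℝ) ^ i * (1 / 2) ^ 2) = fun i => (1 / 2 : ℝ) ^ (i + 2) := by
        funext i
        rw [pow_add]
      rw [e] at h2
      have e2 : (2 : ℝ) * (1 / 2) ^ 2 = 1 / 2 := by norm_num
      rwa [e2] at h2
    exact h1.mul_right _
  unfold Fld
  rw [← (s7_summable x).tsum_sub (s7_summable y)]
  exact tsum_of_norm_bounded hg fun i =>
    eps_lip n i (lend lt i) (lend_nonneg _ _) (lend_add_le_one i) x y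

theorem s7_fld_contDiff {n : ℕ} : ContDiff ℝ ∞ (Fld lt : Euc n → Euc n) := by
  rw [contDiff_iff_contDiffAt]
  intro x
  have h := (fld_regN (n := n) (T := Unit) (fun _ => lt) (fun _ => inferInstance)
    (fun i j => by
      by_cases h : lt i j
      · simp only [h, Set.ofPred_true]
        exact isClopen_univ
      · simp only [h, Set.ofPred_false]
        exact isClopen_empty) () x).1.self_of_nhds
  exact h

/-- **S7, second part.** `psi lt δ` is a smooth diffeomorphism of the Euclidean space for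
`0 ≤ δ ≤ 1`.

Proof: `psi lt δ = id + u` with `u` smooth (`psi_regN` for a constant family gives smoothness of
`psi`), Lipschitz with constant `1/2`: injective; surjective, as `x ↦ y - u x` is a contraction
(`ContractingWith`), or by `ApproximatesLinearOn.toHomeomorph` (Mathlib). The derivative
`id + Du` is invertible as `‖Du‖ ≤ 1/2`; so the inverse is smooth
(`OpenPartialHomeomorph.contDiffAt_symm` or `ContDiffAt.to_localInverse`). -/
theorem psi_diffeo {n : ℕ} {δ : ℝ} (h0 : 0 ≤ δ) (h1 : δ ≤ 1) :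
    ContDiff ℝ ∞ (psi lt δ : Euc n → Euc n) ∧ ∃ g : Euc n → Euc n, ContDiff ℝ ∞ g ∧
      (∀ x, g (psi lt δ x) = x) ∧ ∀ x, psi lt δ (g x) = x := by
  have hF := s7_fld_contDiff (lt := lt) (n := n)
  have hc : ContDiff ℝ ∞ (psi lt δ : Euc n → Euc n) := contDiff_id.add (hF.const_smul δ)
  refine ⟨hc, ?_⟩
  -- Lipschitz bound of `δ • Fld`
  have hL : ∀ x y : Euc n, ‖δ • (Fld lt x : Euc n) - δ • Fld lt y‖ ≤ 1 / 2 * ‖x - y‖ := by
    intro x y
    rw [← smul_sub, norm_smul, Real.norm_eq_abs, abs_of_nonneg h0]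
    calc δ * ‖(Fld lt x : Euc n) - Fld lt y‖ ≤ 1 * (1 / 2 * ‖x - y‖) :=
          mul_le_mul h1 (fld_lip x y) (norm_nonneg _) zero_le_one
      _ = _ := one_mul _
  have hA : ApproximatesLinearOn (psi lt δ : Euc n → Euc n)
      ((ContinuousLinearEquiv.refl ℝ (Euc n) : Euc n ≃L[ℝ] Euc n) : Euc n →L[ℝ] Euc n)
      univ (1 / 2 : ℝ≥0) := by
    intro x _ y _
    have e : psi lt δ x - psi lt δ y -
        ((ContinuousLinearEquiv.refl ℝ (Euc n) : Euc n ≃L[ℝ] Euc n) : Euc n →L[ℝ] Euc n) (x - y) =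
        δ • (Fld lt x : Euc n) - δ • Fld lt y := by
      simp only [psi, ContinuousLinearEquiv.coe_refl, ContinuousLinearMap.id_apply]
      abel
    rw [e]
    have := hL x y
    simpa using this
  have hN : Subsingleton (Euc n) ∨ (1 / 2 : ℝ≥0) <
      ‖((ContinuousLinearEquiv.refl ℝ (Euc n)).symm : Euc n →L[ℝ] Euc n)‖₊⁻¹ := by
    rcases subsingleton_or_nontrivial (Euc n) with h | h
    · exact Or.inl h
    · right
      have : ‖((ContinuousLinearEquiv.refl ℝ (Euc n)).symm : Euc n →L[ℝ] Euc n)‖₊ = 1 := by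
        have h3 : ((ContinuousLinearEquiv.refl ℝ (Euc n)).symm : Euc n →L[ℝ] Euc n) =
          ContinuousLinearMap.id ℝ (Euc n) := rfl
        rw [h3]
        ext
        simp
      rw [this, inv_one]
      exact NNReal.half_lt_self one_ne_zero
  set h : Euc n ≃ₜ Euc n := hA.toHomeomorph _ hN with hh
  have hco : (h : Euc n → Euc n) = psi lt δ := rfl
  -- the derivative
  have hlip : LipschitzWith (1 / 2 : ℝ≥0) (fun x : Euc n => -(δ • (Fld lt x : Euc n))) := by
    refine LipschitzWith.of_dist_le_mul fun x y => ?_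
    rw [dist_eq_norm, dist_eq_norm, ← neg_sub', norm_neg]
    simpa using hL x y
  have hD : ∀ a : Euc n, ∃ f' : Euc n ≃L[ℝ] Euc n, HasFDerivAt h (f' : Euc n →L[ℝ] Euc n) a := by
    intro a
    set t : Euc n →L[ℝ] Euc n := fderiv ℝ (fun x : Euc n => -(δ • (Fld lt x : Euc n))) a with ht
    have ht1 : ‖t‖ < 1 := by
      have := norm_fderiv_le_of_lipschitz ℝ (x₀ := a) hlip
      calc ‖t‖ ≤ ((1 / 2 : ℝ≥0) : ℝ) := this
        _ < 1 := by simp; norm_num
    refine ⟨ContinuousLinearEquiv.unitsEquiv ℝ (Euc n) (Units.oneSub t ht1), ?_⟩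
    have hd : HasFDerivAt (fun x : Euc n => -(δ • (Fld lt x : Euc n))) t a :=
      ((hF.const_smul δ).neg.differentiable (by simp) a).hasFDerivAt
    have h2 : HasFDerivAt (fun x : Euc n => x - -(δ • (Fld lt x : Euc n)))
        (ContinuousLinearMap.id ℝ (Euc n) - t) a := (hasFDerivAt_id a).sub hd
    have e : (h : Euc n → Euc n) = fun x : Euc n => x - -(δ • (Fld lt x : Euc n)) := by
      rw [hco]
      funext x
      rw [sub_neg_eq_add]
      rfl
    rw [e]
    exact h2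
  choose f' hf' using hD
  refine ⟨h.symm, h.contDiff_symm hf' hc, fun x => ?_, fun x => ?_⟩
  · exact h.symm_apply_apply x
  · exact h.apply_symm_apply x

/-- outside the shell `psi` is the identity -/
theorem psi_out {n : ℕ} {δ : ℝ} {x : Euc n} (hx : ‖x‖ ∉ Ioo (1 : ℝ) 2) : psi lt δ x = x := by
  unfold psi
  rw [fld_zero hx, smul_zero, add_zero]

/-- `psi` maps the ball of radius `2` to itself, and its inverse does too -/
theorem psi_ball {n : ℕ} {δ : ℝ} (h0 : 0 ≤ δ) (h1 : δ ≤ 1) {x : Euc n} :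
    ‖psi lt δ x‖ ≤ 2 ↔ ‖x‖ ≤ 2 := by
  by_cases hx : ‖x‖ ∈ Ioo (1 : ℝ) 2
  · refine ⟨fun _ => hx.2.le, fun _ => ?_⟩
    have hx0 : 0 < ‖x‖ := by linarith [hx.1]
    have hy : ‖(2 / ‖x‖) • x‖ = 2 := by
      rw [norm_smul, Real.norm_eq_abs, abs_of_pos (by positivity), div_mul_cancel₀ _ hx0.ne']
    have hy0 : (Fld lt ((2 / ‖x‖) • x) : Euc n) = 0 := by
      apply fld_zero
      rw [hy]
      exact fun h => lt_irrefl _ h.2
    have h2 := fld_lip (lt := lt) x ((2 / ‖x‖) • x)
    rw [hy0, sub_zero] at h2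
    have h3 : ‖x - (2 / ‖x‖) • x‖ = 2 - ‖x‖ := by
      have e : x - (2 / ‖x‖) • x = (1 - 2 / ‖x‖) • x := by
        rw [sub_smul, one_smul]
      rw [e, norm_smul, Real.norm_eq_abs, abs_of_nonpos]
      · rw [neg_sub, sub_mul, div_mul_cancel₀ _ hx0.ne', one_mul]
      · rw [sub_nonpos, le_div_iff₀ hx0]
        linarith [hx.2]
    rw [h3] at h2
    unfold psi
    calc ‖x + δ • (Fld lt x : Euc n)‖ ≤ ‖x‖ + ‖δ • (Fld lt x : Euc n)‖ := norm_add_le _ _
      _ = ‖x‖ + δ * ‖(Fld lt x : Euc n)‖ := by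
          rw [norm_smul, Real.norm_eq_abs, abs_of_nonneg h0]
      _ ≤ ‖x‖ + 1 * (1 / 2 * (2 - ‖x‖)) := by
          gcongr
      _ ≤ 2 := by linarith [hx.2]
  · rw [psi_out hx]

end Pool.Agent.Lib.H37C
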