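import Pool.Agent.Lib.H37C.Defs
import Pool.Agent.Lib.H37C.E1
import Pool.Agent.Lib.H37C.D1
import Pool.Agent.Lib.H37C.D2
import Pool.Agent.Lib.H37C.C5
import Pool.Agent.Lib.H37C.S7

open TopologicalSpace Set Filter Topology
open scoped Manifold ContDiff
open Pool.Agent.Lib.Helper37.ConjBorel

namespace Pool.Agent.Lib.H37C

variable {n : ℕ} {M : Type*} [TopologicalSpace M] [ChartedSpace (Euc n) M]
variable {f₀ : DiffInf n M} {m : ℕ} {e : OpenPartialHomeomorph M (Euc n)}

/-- the product of the conjugates of `H` along the orbit -/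
def d3_h (f H : M ≃ₜ M) : ℕ → (M ≃ₜ M)
  | 0 => 1
  | k + 1 => (f ^ k * H * (f ^ k)⁻¹) * d3_h f H k

omit [ChartedSpace (Euc n) M] in
theorem d3_pow (f : M ≃ₜ M) (k : ℕ) (z : M) : (f ^ k) z = (⇑f)^[k] z := by
  induction k generalizing z with
  | zero => rfl
  | succ k ih =>
    rw [pow_succ', Function.iterate_succ_apply']
    show f ((f ^ k) z) = _
    rw [ih]

omit [ChartedSpace (Euc n) M] in
/-- the factor `k` at a point -/
theorem d3_factor (f H : M ≃ₜ M) (k : ℕ) (y : M) :
    (f ^ k * H * (f ^ k)⁻¹) ((⇑f)^[k] y) = (⇑f)^[k] (H y) := by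
  have h1 : ((f ^ k)⁻¹ : M ≃ₜ M) ((⇑f)^[k] y) = y := by
    rw [← d3_pow]
    exact (f ^ k).symm_apply_apply y
  show (f ^ k) (H (((f ^ k)⁻¹ : M ≃ₜ M) ((⇑f)^[k] y))) = _
  rw [h1, d3_pow]

omit [ChartedSpace (Euc n) M] in
theorem d3_factor' (f H : M ≃ₜ M) (A : Set M) (hH1 : ∀ z ∉ A, H z = z) (k : ℕ) (z : M)
    (hz : ∀ y ∈ A, (⇑f)^[k] y ≠ z) : (f ^ k * H * (f ^ k)⁻¹) z = z := by
  obtain ⟨y, rfl⟩ : ∃ y, (⇑f)^[k] y = z := by
    refine ⟨(f ^ k).symm z, ?_⟩
    rw [← d3_pow]
    exact (f ^ k).apply_symm_apply z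
  rw [d3_factor, hH1 y (fun hy => hz y hy rfl)]

omit [ChartedSpace (Euc n) M] in
theorem d3_main (f H : M ≃ₜ M) (A : Set M) (m : ℕ) (hm : 0 < m)
    (hper : ∀ z ∈ A, (⇑f)^[m] z = z)
    (hdisj : ∀ i, 0 < i → i < m → ∀ z ∈ A, (⇑f)^[i] z ∉ A)
    (hH1 : ∀ z ∉ A, H z = z) (hH2 : ∀ z ∈ A, H z ∈ A) :
    ∃ h : M ≃ₜ M, (∀ z, h (f z) = f (h z)) ∧ (∀ z ∈ A, h z = H z) ∧ ∀ z ∉ A, h z ∉ A := by
  have hinj : ∀ i, Function.Injective ((⇑f)^[i]) := fun i => f.injective.iterate i
  -- disjointness of the iterates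
  have hdd : ∀ i j, i < m → j < m → i ≠ j → ∀ y ∈ A, ∀ y' ∈ A, (⇑f)^[i] y ≠ (⇑f)^[j] y' := by
    have key : ∀ i j, i < j → j < m → ∀ y ∈ A, ∀ y' ∈ A, (⇑f)^[i] y ≠ (⇑f)^[j] y' := by
      intro i j hij hj y hy y' hy' h
      have h1 : (⇑f)^[i] y = (⇑f)^[i] ((⇑f)^[j - i] y') := by
        rw [← Function.iterate_add_apply, show i + (j - i) = j by omega]
        exact h
      have h2 := hinj i h1
      exact hdisj (j - i) (by omega) (by omega) y' hy' (h2 ▸ hy)
    intro i j hi hj hij y hy y' hy' h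
    rcases lt_or_gt_of_ne hij with h1 | h1
    · exact key i j h1 hj y hy y' hy' h
    · exact key j i h1 hi y' hy' y hy h.symm
  have h1 : ∀ k ≤ m, (∀ i < k, ∀ y ∈ A, d3_h f H k ((⇑f)^[i] y) = (⇑f)^[i] (H y)) ∧
      ∀ z, (∀ i < k, ∀ y ∈ A, (⇑f)^[i] y ≠ z) → d3_h f H k z = z := by
    intro k
    induction k with
    | zero => exact fun _ => ⟨fun i hi => absurd hi (Nat.not_lt_zero i), fun z _ => rfl⟩
    | succ k ih =>
      intro hk
      obtain ⟨ih1, ih2⟩ := ih (by omega)
      constructor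
      · intro i hi y hy
        show (f ^ k * H * (f ^ k)⁻¹) (d3_h f H k ((⇑f)^[i] y)) = _
        rcases Nat.lt_succ_iff_lt_or_eq.1 hi with h3 | h3
        · rw [ih1 i h3 y hy]
          apply d3_factor' f H A hH1
          intro y' hy'
          exact hdd k i (by omega) (by omega) (by omega) y' hy' _ (hH2 y hy)
        · subst h3
          rw [ih2]
          · exact d3_factor f H i y
          · intro j hj y' hy'
            exact hdd j i (by omega) (by omega) (by omega) y' hy' y hy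
      · intro z hz
        show (f ^ k * H * (f ^ k)⁻¹) (d3_h f H k z) = z
        rw [ih2 z (fun i hi => hz i (by omega))]
        exact d3_factor' f H A hH1 k z (hz k (by omega))
  obtain ⟨hA, hB⟩ := h1 m le_rfl
  have hon : ∀ z ∈ A, d3_h f H m z = H z := fun z hz => hA 0 hm z hz
  refine ⟨d3_h f H m, fun z => ?_, hon, ?_⟩
  · by_cases hz : ∃ i < m, ∃ y ∈ A, (⇑f)^[i] y = z
    · obtain ⟨i, hi, y, hy, rfl⟩ := hz
      rw [hA i hi y hy, ← Function.iterate_succ_apply' (⇑f) i y,
        ← Function.iterate_succ_apply' (⇑f) i (H y)]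
      by_cases h3 : i + 1 < m
      · exact hA (i + 1) h3 y hy
      · have h4 : i.succ = m := by omega
        rw [h4, hper y hy, hper _ (hH2 y hy), hon y hy]
    · push Not at hz
      rw [hB z (fun i hi y hy => hz i hi y hy), hB]
      intro i hi y hy h3
      rcases Nat.eq_zero_or_pos i with rfl | hpos
      · have h4 : f z = f ((⇑f)^[m - 1] y) := by
          rw [← Function.iterate_succ_apply' (⇑f) (m - 1) y, show (m - 1).succ = m by omega,
            hper y hy]
          exact h3.symm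
        exact hz (m - 1) (by omega) y hy (f.injective h4).symm
      · have h4 : f ((⇑f)^[i - 1] y) = f z := by
          rw [← Function.iterate_succ_apply' (⇑f) (i - 1) y, show (i - 1).succ = i by omega]
          exact h3
        exact hz (i - 1) (by omega) y hy (f.injective h4)
  · intro z hz hhz
    -- `H` maps `A` onto `A`
    obtain ⟨y, hy⟩ := H.surjective (d3_h f H m z)
    have hyA : y ∈ A := by
      by_contra h3
      rw [hH1 y h3] at hy
      exact h3 (hy ▸ hhz)
    rw [← hon y hyA] at hy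
    exact hz ((d3_h f H m).injective hy ▸ hyA)

/-- **D3.** A homeomorphism `H` supported in the ball of the chart can be spread along the orbit of
the spot: there is a homeomorphism `h` of `M` which commutes with `f₀`, is equal to `H` on `e.source`
and maps `e.source` to itself.

Proof. `H` is the identity outside `C = e.symm '' closedBall 0 2 ⊆ e.source`, and maps `e.source` to
itself. In the group `M ≃ₜ M` let `f` be the homeomorphism `f₀` and `h k = ∏_{i<k} (f^i H f^{-i})`
(recursively `h (k+1) = f^k H f^{-k} * h k`). The factor `i` is the identity outside `f^i e.source`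
and maps this set to itself, and these sets are pairwise disjoint for `0 ≤ i < m` (`disj`: if
`f^i y = f^j y'` with `i < j`, `y, y' ∈ e.source`, then `y = f^(j-i) y'`, excluded). By induction on
`k ≤ m`: `h k z = f^i H f^{-i} z` for `z ∈ f^i e.source`, `i < k`, and `h k z = z` if `z` is in none of
these sets. So `h = h m` satisfies `h z = H z` on `e.source` (`i = 0`). It commutes with `f`: let
`z ∈ f^i e.source`, `z = f^i y`. If `i + 1 < m`: `h (f z) = f^(i+1) H y = f (h z)`. If `i + 1 = m`: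
`f z = f^m y = y`, `h (f z) = H y`, and `f (h z) = f^m H y = H y` by `per`. If `z` is in none of the
sets then `f z` is in none of them (`f z = f^i y` with `i > 0` gives `z = f^(i-1) y`; with `i = 0`,
`f z = y = f^m y` gives `z = f^(m-1) y`), so both sides are `f z`. -/
theorem exists_spread (hS : SpotData f₀ m e) (H : M ≃ₜ M)
    (hH1 : ∀ z ∉ e.source, H z = z) (hH2 : ∀ z ∈ e.source, H z ∈ e.source) :
    ∃ h : M ≃ₜ M, (∀ z, h (f₀ z) = f₀ (h z)) ∧ (∀ z ∈ e.source, h z = H z) ∧
      ∀ z ∉ e.source, h z ∉ e.source :=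
  d3_main f₀.toHomeomorph H e.source m hS.pos hS.per hS.disj hH1 hH2

/-- **D3, conclusion.** Isomorphic orders give topologically conjugate diffeomorphisms.

Proof: `Φ` from `conj_space`, `H` from `exists_homeo`, `h` from `exists_spread`
(`hH2`: `Φ` maps the target to itself: `‖Φ x‖ ≤ 2` if `‖x‖ ≤ 2`, as `Φ` is a bijection which is the
identity for `‖x‖ > 2`). Then `h (F z) = h (f₀ (ext e (psi lt δ) z)) = f₀ (h (ext e (psi lt δ) z))` and
`F' (h z) = f₀ (ext e (psi lt' δ) (h z))`. For `z ∈ e.source` the arguments agree by `conj_space`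
(all is computed in the chart); for `z ∉ e.source` both are `h z`. -/
theorem topConj_of_iso [T2Space M] [IsManifold (𝓡 n) ∞ M] (hS : SpotData f₀ m e)
    {lt lt' : ℕ → ℕ → Prop} [IsStrictTotalOrder ℕ lt] [IsStrictTotalOrder ℕ lt'] (π : lt ≃r lt')
    {δ : ℝ} (h0 : 0 < δ) (h1 : δ ≤ 1) {F F' : DiffInf n M}
    (hF : ∀ z, F z = f₀ (ext e (psi lt δ) z)) (hF' : ∀ z, F' z = f₀ (ext e (psi lt' δ) z)) :
    TopConj F F' := by
  obtain ⟨Φ, hΦ1, hΦ2⟩ := conj_space n π h0 h1
  obtain ⟨H, hH⟩ := exists_homeo (M := M) hS.ball Φ hΦ1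
  have hΦb : ∀ x, ‖x‖ ≤ 2 → ‖Φ x‖ ≤ 2 := by
    intro x hx
    by_contra h3
    have h4 := hΦ1 (Φ x) (not_le.1 h3).le
    have h5 := Φ.injective h4
    rw [h5] at h3
    exact h3 hx
  have htar : ∀ x ∈ e.target, Φ x ∈ e.target := by
    intro x hx
    by_cases h3 : ‖x‖ ≤ 2
    · exact hS.ball (by simpa using hΦb x h3)
    · rw [hΦ1 x (not_le.1 h3).le]; exact hx
  have hψt : ∀ (l : ℕ → ℕ → Prop) [IsStrictTotalOrder ℕ l], ∀ x ∈ e.target,
      psi l δ x ∈ e.target := by
    intro l _ x hx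
    by_cases h3 : ‖x‖ ≤ 2
    · exact hS.ball (by simpa using (psi_ball h0.le h1).2 h3)
    · rw [psi_out (fun h4 => h3 h4.2.le)]; exact hx
  have hH1 : ∀ z ∉ e.source, H z = z := fun z hz => by rw [hH, ext_of_notMem hz]
  have hH2 : ∀ z ∈ e.source, H z ∈ e.source := fun z hz => by
    rw [hH, ext_of_mem hz]
    exact e.map_target (htar _ (e.map_source hz))
  obtain ⟨h, hc, hon, hoff⟩ := exists_spread hS H hH1 hH2
  refine ⟨h, fun z => ?_⟩
  rw [hF, hF', hc]
  congr 1
  by_cases hz : z ∈ e.source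
  · have hz' : ext e (psi lt δ) z ∈ e.source := by
      rw [ext_of_mem hz]
      exact e.map_target (hψt lt _ (e.map_source hz))
    rw [hon _ hz', hon _ hz, hH, ext_of_mem hz', ext_of_mem (hH2 z hz), ext_of_mem hz, hH,
      ext_of_mem hz, e.right_inv (hψt lt _ (e.map_source hz)),
      e.right_inv (htar _ (e.map_source hz)), hΦ2]
  · rw [ext_of_notMem hz, ext_of_notMem (hoff z hz)]

end Pool.Agent.Lib.H37C
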