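import Pool.Agent.Lib.Helper37.ConjBorel.Proof

/-!
# Topological conjugacy near diffeomorphisms with a periodic spot: definitions
-/

open TopologicalSpace Set Filter Topology
open scoped Manifold ContDiff
open Pool.Agent.Lib.Helper37.ConjBorel

namespace Pool.Agent.Lib.H37C

/-! ## Orders on `ℕ` and compact sets of real numbers -/

/-- the length `2^(-i-1)` of the `i`-th gap -/
noncomputable def wt (i : ℕ) : ℝ := (1 / 2) ^ (i + 1)

/-- the left end of the `i`-th gap: the total length of the gaps `j` with `lt j i` -/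
noncomputable def lend (lt : ℕ → ℕ → Prop) (i : ℕ) : ℝ := ∑' j, Set.indicator {j | lt j i} wt j

/-- the complement in `[0,1]` of the gaps `(lend i, lend i + wt i)` -/
def Kset (lt : ℕ → ℕ → Prop) : Set ℝ :=
  {r | 0 ≤ r ∧ r ≤ 1 ∧ ∀ i, r ≤ lend lt i ∨ lend lt i + wt i ≤ r}

/-- the part of `Kset lt` in the open interval `(0,1)` -/
def Kint (lt : ℕ → ℕ → Prop) : Set ℝ := Kset lt ∩ Ioo 0 1

/-- The order on the finitely supported functions `Ω → ℤ` given by a relation `r` on `Ω`: the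
largest difference decides. -/
def NLt {Ω : Type*} (r : Ω → Ω → Prop) (f g : Ω →₀ ℤ) : Prop :=
  ∃ j, f j < g j ∧ ∀ k, r j k → f k = g k

/-- `ι` embeds `ℤ^Ω` as a convex subset of the order `lt` on `ℕ` -/
structure BlockEmb (lt : ℕ → ℕ → Prop) {Ω : Type*} (r : Ω → Ω → Prop) (ι : (Ω →₀ ℤ) → ℕ) :
    Prop where
  mono : ∀ f g, NLt r f g → lt (ι f) (ι g)
  conv : ∀ f g i, lt (ι f) i → lt i (ι g) → ∃ h, ι h = i

/-- the order `lt` is `1 + ℤ^Ω + 1` -/
def IsA (lt : ℕ → ℕ → Prop) {Ω : Type*} (r : Ω → Ω → Prop) : Prop :=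
  ∃ (b t : ℕ) (ι : (Ω →₀ ℤ) → ℕ), BlockEmb lt r ι ∧ (∀ f, lt b (ι f)) ∧ (∀ f, lt (ι f) t) ∧
    ∀ i, i = b ∨ i = t ∨ ∃ f, ι f = i

/-- the order `lt` is `1 + ℚ × ℤ^Ω + 1` -/
def IsB (lt : ℕ → ℕ → Prop) {Ω : Type*} (r : Ω → Ω → Prop) : Prop :=
  ∃ (b t : ℕ) (ι : ℚ → (Ω →₀ ℤ) → ℕ), (∀ q, BlockEmb lt r (ι q)) ∧
    (∀ q q', q < q' → ∀ f g, lt (ι q f) (ι q' g)) ∧ (∀ q f, lt b (ι q f)) ∧
    (∀ q f, lt (ι q f) t) ∧ ∀ i, i = b ∨ i = t ∨ ∃ q f, ι q f = i

/-! ## Derived sets -/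

section Top

variable {Z : Type*} [TopologicalSpace Z]

/-- `x` is a limit of points of `S` outside the component of `x` in `X` -/
def AccX (X S : Set Z) (x : Z) : Prop := x ∈ closure (S \ connectedComponentIn X x)

/-- a good family of subsets of `X`: the points of `R l` are limits of points of `R l'`, for all
`l' < l` -/
def GoodFam (X : Set Z) {Ω : Type*} (r : Ω → Ω → Prop) (R : Ω → Set Z) : Prop :=
  ∀ l, ∀ x ∈ R l, x ∈ X ∧ ∀ l', r l' l → AccX X (R l') x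

/-- `D` accumulates at each of its points -/
def SelfAcc (X D : Set Z) : Prop := D ⊆ X ∧ ∀ x ∈ D, AccX X D x

/-- `X` contains a point of rank `Ω` which does not belong to the perfect kernel -/
def TopProp {Ω : Type*} (r : Ω → Ω → Prop) (X : Set Z) : Prop :=
  ∃ R : Ω → Set Z, GoodFam X r R ∧ ∃ x ∈ X, (∀ l, AccX X (R l) x) ∧ ∀ D, SelfAcc X D → x ∉ D

/-- one-dimensional version of `AccX` -/
def AccR (S : Set ℝ) (k : ℝ) : Prop := k ∈ closure (S \ {k})

/-- one-dimensional version of `GoodFam` -/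
def GoodR (K : Set ℝ) {Ω : Type*} (r : Ω → Ω → Prop) (R : Ω → Set ℝ) : Prop :=
  ∀ l, ∀ k ∈ R l, k ∈ K ∧ ∀ l', r l' l → AccR (R l') k

/-- one-dimensional version of `SelfAcc` -/
def SelfR (K D : Set ℝ) : Prop := D ⊆ K ∧ ∀ k ∈ D, AccR D k

/-- The set `X` looks, in the open set `Co`, like the product of `K` and a sphere; `rad` is the
projection to `K`. -/
structure RadData (X Co : Set Z) (rad : Z → ℝ) (K : Set ℝ) : Prop where
  isOpen : IsOpen Co
  closed : IsClosed (X ∩ Co)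
  mem : ∀ z ∈ Co, z ∈ X ↔ rad z ∈ K
  comp : ∀ z ∈ X ∩ Co, ∀ z' ∈ connectedComponentIn X z, z' ∈ Co ∧ rad z' = rad z
  loc : ∀ z ∈ X ∩ Co, ∀ᶠ z' in 𝓝 z, rad z' = rad z → z' ∈ connectedComponentIn X z
  cont : ContinuousOn rad Co
  lift : ∀ z ∈ Co, ∃ σ : ℝ → Z, ContinuousAt σ (rad z) ∧ σ (rad z) = z ∧
    ∀ᶠ k in 𝓝 (rad z), rad (σ k) = k
  surj : ∀ k ∈ K, ∃ z ∈ Co, rad z = k

end Top

/-! ## Smooth data -/

section Smooth

variable {n : ℕ}

/-- a smooth function which is positive on `(0,1)` and zero elsewhere -/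
noncomputable def bmp (y : ℝ) : ℝ := expNegInvGlue y * expNegInvGlue (1 - y)

/-- the radial field on the shell `1 + s < |x| < 1 + s + w` -/
noncomputable def Vf (w s : ℝ) (x : Euc n) : Euc n := (bmp ((‖x‖ - 1 - s) / w) * ‖x‖⁻¹) • x

end Smooth

/-- `f` has a periodic spot: some positive iterate of `f` is the identity on a nonempty open set -/
def HasSpot {n : ℕ} {M : Type*} [TopologicalSpace M] [ChartedSpace (Euc n) M] (f : DiffInf n M) :
    Prop :=
  ∃ q : ℕ, 0 < q ∧ ∃ W : Set M, IsOpen W ∧ W.Nonempty ∧ ∀ x ∈ W, (⇑f)^[q] x = x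

end Pool.Agent.Lib.H37C
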