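import Pool.Agent.Lib.H37C.Defs
import Pool.Agent.Lib.H37C.E1

open TopologicalSpace Set Filter Topology
open scoped Manifold ContDiff
open Pool.Agent.Lib.Helper37.ConjBorel

namespace Pool.Agent.Lib.H37C

variable {n : ℕ} {M : Type*} [TopologicalSpace M] [ChartedSpace (Euc n) M]

theorem e2_target {e : OpenPartialHomeomorph M (Euc n)}
    (hb : Metric.closedBall 0 2 ⊆ e.target) {ψ : Euc n → Euc n}
    (hψ2 : ∀ x, 2 ≤ ‖x‖ → ψ x = x) (hψb : ∀ x, ‖x‖ ≤ 2 → ‖ψ x‖ ≤ 2) {x : Euc n}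
    (hx : x ∈ e.target) : ψ x ∈ e.target := by
  by_cases h : 2 ≤ ‖x‖
  · rw [hψ2 x h]; exact hx
  · apply hb
    rw [mem_closedBall_zero_iff]
    exact hψb x (not_le.1 h).le

theorem e2_ev {Z : Type*} [TopologicalSpace Z] {φ : OpenPartialHomeomorph M (Euc n)} {z₀ : Z}
    {x₀ : Euc n} (hx₀ : x₀ ∈ φ.target) {s : Set M} (hs : IsOpen s) (h : φ.symm x₀ ∈ s) :
    ∀ᶠ p : Z × Euc n in 𝓝 (z₀, x₀), φ.symm p.2 ∈ s := by
  have h1 : ContinuousAt (fun p : Z × Euc n => φ.symm p.2) (z₀, x₀) :=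
    ContinuousAt.comp (g := φ.symm) (f := fun p : Z × Euc n => p.2) (φ.symm.continuousAt hx₀)
      continuous_snd.continuousAt
  exact h1.eventually (hs.mem_nhds h)

/-- **E2.** A regular family of maps supported in the ball of radius `2` gives a family of self-maps
of `M` which is jointly continuous with all derivatives in charts (`JC`, see
`Pool.Agent.Lib.Helper37.ConjBorel.Proof`).

Proof. Joint continuity: near a point `(z₀, p)` with `p ∈ e.source`, the map is
`e.symm (ψ z (e p))`, where `ψ z (e p)` is in `e.target` (if `‖e p‖ ≤ 2` because of `hψb`, otherwise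
`ψ z (e p) = e p`); near a point with `p` outside the compact, hence closed, set
`e.symm '' closedBall 0 2` it is `p`. Charts `φ, ψ'` and a point `x₀ ∈ φ.target` whose image
`ext e (ψ z₀) (φ.symm x₀)` is in `ψ'.source`: if `p = φ.symm x₀ ∈ e.source` the coordinate expression
is, near `(z₀, x₀)`, the composition of the smooth map `ψ' ∘ e.symm` (`contDiffOn_change`,
`regN_of_contDiffOn`), of `ψ z` and of the smooth map `e ∘ φ.symm`: `RegN.comp`, `RegN.congr`. If `p`
is not in `e.source` it is, near `(z₀, x₀)`, the map `ψ' ∘ φ.symm`. -/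
theorem jc_ext [T2Space M] [IsManifold (𝓡 n) ∞ M] {Z : Type*} [TopologicalSpace Z]
    {e : OpenPartialHomeomorph M (Euc n)} (he : e ∈ IsManifold.maximalAtlas (𝓡 n) ∞ M)
    (hb : Metric.closedBall 0 2 ⊆ e.target) (ψ : Z → Euc n → Euc n)
    (hψ : ∀ z x, RegN ⊤ ψ z x) (hψ2 : ∀ z x, 2 ≤ ‖x‖ → ψ z x = x)
    (hψb : ∀ z x, ‖x‖ ≤ 2 → ‖ψ z x‖ ≤ 2) : JC (n := n) (fun z => (ext e (ψ z) : M → M)) := by
  have htar : ∀ z, ∀ x ∈ e.target, ψ z x ∈ e.target := fun z x hx =>
    e2_target hb (hψ2 z) (hψb z) hx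
  constructor
  · rw [continuous_iff_continuousAt]
    rintro ⟨z₀, m₀⟩
    by_cases h : m₀ ∈ e.source
    · have h1 : ContinuousAt (fun p : Z × M => (p.1, e p.2)) (z₀, m₀) :=
        continuous_fst.continuousAt.prodMk (ContinuousAt.comp (g := e)
          (f := fun p : Z × M => p.2) (e.continuousAt h) continuous_snd.continuousAt)
      have h2 : ContinuousAt (fun p : Z × M => ψ p.1 (e p.2)) (z₀, m₀) :=
        ContinuousAt.comp (g := fun q : Z × Euc n => ψ q.1 q.2)
          (f := fun p : Z × M => (p.1, e p.2)) (hψ z₀ (e m₀)).continuousAt h1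
      have h3 : ContinuousAt (fun p : Z × M => e.symm (ψ p.1 (e p.2))) (z₀, m₀) :=
        ContinuousAt.comp (g := e.symm) (f := fun p : Z × M => ψ p.1 (e p.2))
          (e.symm.continuousAt (htar _ _ (e.map_source h))) h2
      refine h3.congr ?_
      filter_upwards [continuous_snd.continuousAt.eventually (e.open_source.mem_nhds h)]
        with p hp
      exact (ext_of_mem hp).symm
    · refine continuous_snd.continuousAt.congr ?_
      filter_upwards [continuous_snd.continuousAt.eventually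
        ((e1_closed hb).isOpen_compl.mem_nhds (e1_notMem hb h))] with p hp
      exact (e1_off (hψ2 p.1) hp).symm
  · intro φ hφ χ hχ z₀ x₀ hx₀ hgx'
    have hgx : ext e (ψ z₀) (φ.symm x₀) ∈ χ.source := hgx'
    by_cases h : φ.symm x₀ ∈ e.source
    · have hA : RegN ⊤ (fun _ : Z => (e ∘ φ.symm : Euc n → Euc n)) z₀ x₀ :=
        regN_of_contDiffOn (isOpen_expr (f := id) continuous_id φ e) (contDiffOn_change hφ he) z₀
          ⟨hx₀, h⟩
      have hy : e.symm (ψ z₀ (e (φ.symm x₀))) ∈ χ.source := by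
        rwa [ext_of_mem h] at hgx
      have hB : RegN ⊤ (fun _ : Z => (χ ∘ e.symm : Euc n → Euc n)) z₀ (ψ z₀ (e (φ.symm x₀))) :=
        regN_of_contDiffOn (isOpen_expr (f := id) continuous_id e χ) (contDiffOn_change he hχ) z₀
          ⟨htar _ _ (e.map_source h), hy⟩
      have hC : RegN ⊤ (fun z : Z => ψ z ∘ (e ∘ φ.symm : Euc n → Euc n)) z₀ x₀ :=
        RegN.comp (G := ψ) (H := fun _ => (e ∘ φ.symm : Euc n → Euc n)) (hψ z₀ _) hA
      have hD : RegN ⊤ (fun z : Z => (χ ∘ e.symm : Euc n → Euc n) ∘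
          (ψ z ∘ (e ∘ φ.symm : Euc n → Euc n))) z₀ x₀ :=
        RegN.comp (G := fun _ => (χ ∘ e.symm : Euc n → Euc n))
          (H := fun z : Z => ψ z ∘ (e ∘ φ.symm : Euc n → Euc n)) hB hC
      refine hD.congr ?_
      filter_upwards [e2_ev (z₀ := z₀) hx₀ e.open_source h] with p hp
      show χ (e.symm (ψ p.1 (e (φ.symm p.2)))) = χ (ext e (ψ p.1) (φ.symm p.2))
      rw [ext_of_mem hp]
    · have hy : φ.symm x₀ ∈ χ.source := by
        rwa [ext_of_notMem h] at hgx
      have hA : RegN ⊤ (fun _ : Z => (χ ∘ φ.symm : Euc n → Euc n)) z₀ x₀ :=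
        regN_of_contDiffOn (isOpen_expr (f := id) continuous_id φ χ) (contDiffOn_change hφ hχ) z₀
          ⟨hx₀, hy⟩
      refine hA.congr ?_
      filter_upwards [e2_ev (z₀ := z₀) hx₀ (e1_closed hb).isOpen_compl (e1_notMem hb h)]
        with p hp
      show χ (φ.symm p.2) = χ (ext e (ψ p.1) (φ.symm p.2))
      rw [e1_off (hψ2 p.1) hp]

/-- **E2, second part.** Composition with a fixed diffeomorphism.

Proof: charts `φ, ψ'`, a point `x₀`; let `p = g z₀ (φ.symm x₀)` and `χ = chartAt p`. Near `(z₀, x₀)`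
the expression `ψ' ∘ f ∘ g z ∘ φ.symm` is `(ψ' ∘ f ∘ χ.symm) ∘ (χ ∘ g z ∘ φ.symm)`; `RegN.comp`
with `regN_of_contDiffOn`, `contDiffOn_expr`. -/
theorem JC.comp_left [IsManifold (𝓡 n) ∞ M] {Z : Type*} [TopologicalSpace Z] {g : Z → M → M}
    (hg : JC (n := n) g) (f : DiffInf n M) : JC (n := n) (fun z => (f ∘ g z : M → M)) := by
  refine ⟨f.continuous.comp hg.1, ?_⟩
  intro φ hφ χ hχ z₀ x₀ hx₀ hgx
  set p := g z₀ (φ.symm x₀) with hp
  set κ := chartAt (Euc n) p with hκ
  have hκm : κ ∈ IsManifold.maximalAtlas (𝓡 n) ∞ M := IsManifold.chart_mem_maximalAtlas _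
  have hpκ : p ∈ κ.source := mem_chart_source _ _
  have h1 := hg.2 φ hφ κ hκm z₀ x₀ hx₀ hpκ
  have hfp : f p ∈ χ.source := hgx
  have h2 : RegN ⊤ (fun _ : Z => (χ ∘ f ∘ κ.symm : Euc n → Euc n)) z₀
      ((κ ∘ g z₀ ∘ φ.symm : Euc n → Euc n) x₀) := by
    refine regN_of_contDiffOn (isOpen_expr f.continuous κ χ)
      (contDiffOn_expr f.contMDiff hκm hχ) z₀ ⟨κ.map_source hpκ, ?_⟩
    show f (κ.symm (κ p)) ∈ χ.source
    rwa [κ.left_inv hpκ]
  have h3 := RegN.comp (G := fun _ : Z => (χ ∘ f ∘ κ.symm : Euc n → Euc n))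
    (H := fun z => (κ ∘ g z ∘ φ.symm : Euc n → Euc n)) h2 h1
  refine h3.congr ?_
  have h4 : ContinuousAt (fun q : Z × Euc n => g q.1 (φ.symm q.2)) (z₀, x₀) :=
    ContinuousAt.comp (g := fun q : Z × M => g q.1 q.2)
      (f := fun q : Z × Euc n => (q.1, φ.symm q.2)) hg.1.continuousAt
      (continuous_fst.continuousAt.prodMk (ContinuousAt.comp (g := φ.symm)
        (f := fun q : Z × Euc n => q.2) (φ.symm.continuousAt hx₀) continuous_snd.continuousAt))
  filter_upwards [h4.eventually (κ.open_source.mem_nhds hpκ)] with q hq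
  show χ (f (κ.symm (κ (g q.1 (φ.symm q.2))))) = χ (f (g q.1 (φ.symm q.2)))
  rw [κ.left_inv hq]

end Pool.Agent.Lib.H37C
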