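import Pool.Agent.Lib.H37C.Defs
import Pool.Agent.Lib.H37C.E1
import Pool.Agent.Lib.H37C.E2
import Pool.Agent.Lib.H37C.S7

open TopologicalSpace Set Filter Topology
open scoped Manifold ContDiff
open Pool.Agent.Lib.Helper37.ConjBorel

namespace Pool.Agent.Lib.H37C

variable {n : ℕ} {M : Type*} [TopologicalSpace M] [ChartedSpace (Euc n) M]

/-- **E3.** The family of diffeomorphisms in the open set `U`.

Proof: for `p = (t, δ) ∈ T × [0,1]` the map `ext e (psi (lt t) δ)` is a diffeomorphism `G p`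
(`exists_diff`, `psi_diffeo`, `psi_out`); choose it; `H p = (G p).trans f₀` is the diffeomorphism
`f₀ ∘ G p`. The family `H` is `JC` (`jc_ext`, `psi_regN` with `RegN.reparam`, `psi_ball`,
`JC.comp_left`), so continuous (`continuous_of_jc`). For `δ = 0` it is `f₀ ∈ U` (`psi lt 0 = id`, so
`ext e (psi lt 0) = id`; a diffeomorphism is determined by its function). As `T` is compact, there is
`δ > 0` with `H (t, δ) ∈ U` for all `t` (tube lemma; e.g. `IsCompact.eventually_forall_of_forall_eventually`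
or `isCompact_univ.eventually_forall_of_forall_eventually`). -/
theorem exists_family [T2Space M] [IsManifold (𝓡 n) ∞ M] {T : Type*} [TopologicalSpace T]
    [CompactSpace T] (f₀ : DiffInf n M) {U : Set (DiffInf n M)} (hU : IsOpen U) (h₀ : f₀ ∈ U)
    {e : OpenPartialHomeomorph M (Euc n)} (he : e ∈ IsManifold.maximalAtlas (𝓡 n) ∞ M)
    (hb : Metric.closedBall 0 2 ⊆ e.target) (lt : T → ℕ → ℕ → Prop)
    (hs : ∀ t, IsStrictTotalOrder ℕ (lt t)) (hc : ∀ i j, IsClopen {t | lt t i j}) :
    ∃ δ : ℝ, 0 < δ ∧ δ ≤ 1 ∧ ∃ F : T → DiffInf n M, Continuous F ∧ (∀ t, F t ∈ U) ∧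
      ∀ t z, F t z = f₀ (ext e (psi (lt t) δ) z) := by
  have hG : ∀ p : T × Icc (0 : ℝ) 1, ∃ G : DiffInf n M, ∀ z, G z = ext e (psi (lt p.1) p.2) z := by
    rintro ⟨t, δ⟩
    have := hs t
    obtain ⟨h1, g, h2, h3, h4⟩ := psi_diffeo (n := n) (lt := lt t) δ.2.1 δ.2.2
    exact exists_diff he hb h1 h2 h3 h4 (fun x hx => psi_out (fun h => absurd h.2 (not_lt.2 hx)))
  choose G hG using hG
  let H : T × Icc (0 : ℝ) 1 → DiffInf n M := fun p => (G p).trans f₀
  have hHz : ∀ p z, H p z = f₀ (ext e (psi (lt p.1) p.2) z) := fun p z => by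
    show f₀ (G p z) = _
    rw [hG]
  have hJ : JC (n := n) (fun p : T × Icc (0 : ℝ) 1 => (ext e (psi (lt p.1) p.2) : M → M)) := by
    refine jc_ext he hb (fun p : T × Icc (0 : ℝ) 1 => psi (lt p.1) p.2) ?_ ?_ ?_
    · intro p x
      have h1 := psi_regN (n := n) lt hs hc (p.1, (p.2 : ℝ)) x
      exact RegN.reparam (σ := fun p : T × Icc (0 : ℝ) 1 => (p.1, (p.2 : ℝ))) h1
        (by fun_prop)
    · intro p x hx
      have := hs p.1
      exact psi_out (fun h => absurd h.2 (not_lt.2 hx))
    · intro p x hx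
      have := hs p.1
      exact (psi_ball p.2.2.1 p.2.2.2).2 hx
  have hHc : Continuous H := by
    refine continuous_of_jc ?_
    have h1 := JC.comp_left hJ f₀
    have h2 : (fun p => (H p : M → M)) =
        fun p : T × Icc (0 : ℝ) 1 => (f₀ ∘ (ext e (psi (lt p.1) p.2)) : M → M) := by
      funext p z
      exact hHz p z
    rw [h2]
    exact h1
  have h0 : ∀ t, H (t, ⟨0, by simp⟩) ∈ U := by
    intro t
    have : H (t, ⟨0, by simp⟩) = f₀ := by
      apply Diffeomorph.ext
      intro z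
      rw [hHz]
      congr 1
      have h1 : (psi (lt t) 0 : Euc n → Euc n) = id := by
        funext x
        simp [psi]
      show ext e (psi (lt t) 0) z = z
      rw [h1]
      by_cases hz : z ∈ e.source
      · rw [ext_of_mem hz]; exact e.left_inv hz
      · exact ext_of_notMem hz
    rw [this]
    exact h₀
  have hev : ∀ᶠ s in 𝓝 (0 : ℝ), ∀ t ∈ (univ : Set T), H (t, projIcc 0 1 zero_le_one s) ∈ U := by
    refine isCompact_univ.eventually_forall_of_forall_eventually fun t _ => ?_
    have h1 : ContinuousAt (fun q : ℝ × T => H (q.2, projIcc 0 1 zero_le_one q.1)) (0, t) := by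
      have : Continuous fun q : ℝ × T => H (q.2, projIcc 0 1 zero_le_one q.1) :=
        hHc.comp (continuous_snd.prodMk (continuous_projIcc.comp continuous_fst))
      exact this.continuousAt
    apply h1.eventually
    apply hU.mem_nhds
    show H (t, projIcc 0 1 zero_le_one 0) ∈ U
    have h2 : projIcc (0 : ℝ) 1 zero_le_one 0 = ⟨0, by simp⟩ := by
      rw [projIcc_left]
    rw [h2]
    exact h0 t
  obtain ⟨s, hs0, hs1⟩ := hev.exists_gt
  set δ := projIcc (0 : ℝ) 1 zero_le_one s with hδ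
  have hδ0 : 0 < (δ : ℝ) := by
    rw [hδ, coe_projIcc]
    exact lt_max_of_lt_right (lt_min one_pos hs0)
  exact ⟨δ, hδ0, δ.2.2, fun t => H (t, δ), hHc.comp (continuous_id.prodMk continuous_const),
    fun t => hs1 t (mem_univ t), fun t z => hHz (t, δ) z⟩

end Pool.Agent.Lib.H37C
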