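import Pool.Agent.Lib.H37C.Defs
import Pool.Agent.Lib.H37C.K1
import Pool.Agent.Lib.H37C.D2

open TopologicalSpace Set Filter Topology
open scoped Manifold ContDiff
open Pool.Agent.Lib.Helper37.ConjBorel

namespace Pool.Agent.Lib.H37C

section

variable {lt : ℕ → ℕ → Prop} [IsStrictTotalOrder ℕ lt]

/-- **F1.** If the order `lt` has a first element `b` and a last element `t`, then `Kint lt` is closed:
it is `{k ∈ Kset lt | wt b ≤ k ≤ 1 - wt t}`.

Proof: `lend lt b = 0`, so a point `k > 0` of `Kset` is `≥ wt b`; `lend lt t + wt t = 1`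
(`lend_add`: all indices), so a point `k < 1` of `Kset` is `≤ lend lt t = 1 - wt t`. `Kset` is an
intersection of closed sets. -/
theorem isClosed_Kint {b t : ℕ} (hb : ∀ i, i ≠ b → lt b i) (ht : ∀ i, i ≠ t → lt i t) :
    IsClosed (Kint lt) ∧ Kint lt ⊆ Icc (wt b) (1 - wt t) := by
  have hlb : lend lt b = 0 := by
    rw [lend_eq_pt]
    have : {j | lt j b} = ∅ := by
      ext j
      simp only [mem_setOf_eq, mem_empty_iff_false, iff_false]
      intro hj
      by_cases h : j = b
      · rw [h] at hj; exact irrefl_of lt _ hj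
      · exact asymm_of lt hj (hb j h)
    rw [this]
    simp [pt]
  have hlt : lend lt t + wt t = 1 := by
    rw [lend_add]
    have : {j | j = t ∨ lt j t} = univ := by
      ext j
      simp only [mem_setOf_eq, mem_univ, iff_true]
      by_cases h : j = t
      · exact Or.inl h
      · exact Or.inr (ht j h)
    rw [this]
    have := pt_compl univ
    simpa [pt] using this
  have hsub : Kint lt ⊆ Icc (wt b) (1 - wt t) := by
    rintro k ⟨hk, hk0, hk1⟩
    constructor
    · rcases hk.2.2 b with h | h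
      · rw [hlb] at h; exact absurd hk0 (not_lt.2 h)
      · rw [hlb] at h; linarith
    · rcases hk.2.2 t with h | h
      · linarith
      · rw [hlt] at h; exact absurd hk1 (not_lt.2 h)
  refine ⟨?_, hsub⟩
  have heq : Kint lt = Kset lt ∩ Icc (wt b) (1 - wt t) := by
    apply Subset.antisymm
    · exact fun k hk => ⟨hk.1, hsub hk⟩
    · rintro k ⟨hk, h1, h2⟩
      exact ⟨hk, (wt_pos b).trans_le h1, by linarith [wt_pos t]⟩
  rw [heq]
  refine IsClosed.inter ?_ isClosed_Icc
  have : Kset lt = Icc 0 1 ∩ ⋂ i, ({r | r ≤ lend lt i} ∪ {r | lend lt i + wt i ≤ r}) := by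
    ext r
    simp only [Kset, mem_setOf_eq, mem_inter_iff, mem_Icc, mem_iInter, mem_union]
    tauto
  rw [this]
  exact isClosed_Icc.inter (isClosed_iInter fun i =>
    (isClosed_le continuous_id continuous_const).union (isClosed_le continuous_const continuous_id))

end

variable {n : ℕ} {M : Type*} [TopologicalSpace M] [ChartedSpace (Euc n) M]
variable {e : OpenPartialHomeomorph M (Euc n)}

/-- **F1, second part.** Points with radial coordinate in a closed set of `(0,1)` form a closed set. 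

Proof: the set is `e.symm '' {x | 1 + a ≤ ‖x‖ ≤ 1 + b, ‖x‖ - 1 ∈ K}`, the image of a compact subset of
`e.target` under a map which is continuous on `e.target`; compact sets are closed in `M`. -/
theorem isClosed_rad [T2Space M] (hb : Metric.closedBall 0 2 ⊆ e.target) {K : Set ℝ}
    (hK : IsClosed K) {a b : ℝ} (ha : 0 < a) (hb1 : b < 1) (hKab : K ⊆ Icc a b) :
    IsClosed {z | z ∈ Co e ∧ rad e z ∈ K} := by
  have h1 : {z | z ∈ Co e ∧ rad e z ∈ K} =
      e.symm '' (Metric.closedBall (0 : Euc n) 2 ∩ {x | ‖x‖ - 1 ∈ K}) := by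
    ext z
    constructor
    · rintro ⟨⟨hz1, hz2, hz3⟩, hz4⟩
      exact ⟨e z, ⟨by simpa using hz3.le, hz4⟩, e.left_inv hz1⟩
    · rintro ⟨x, ⟨hx1, hx2⟩, rfl⟩
      have hx3 : x ∈ e.target := hb hx1
      have hx4 := hKab hx2
      refine ⟨⟨e.map_target hx3, ?_, ?_⟩, ?_⟩
      · rw [e.right_inv hx3]; linarith [hx4.1]
      · rw [e.right_inv hx3]; linarith [hx4.2]
      · show ‖e (e.symm x)‖ - 1 ∈ K
        rw [e.right_inv hx3]; exact hx2
  rw [h1]
  have h2 : IsCompact (Metric.closedBall (0 : Euc n) 2 ∩ {x | ‖x‖ - 1 ∈ K}) :=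
    (isCompact_closedBall _ _).inter_right
      (hK.preimage (continuous_norm.sub continuous_const))
  exact (h2.image_of_continuousOn (e.continuousOn_symm.mono
    (inter_subset_left.trans hb))).isClosed

/-- **F1, third part.** The first properties of the radial coordinate.

`Co e` is open; `rad e` is continuous on it; the lift of the radial coordinate through `z` is
`σ k = e.symm (((k + 1) / ‖e z‖) • e z)`; every `k ∈ (0,1)` is a value (`n ≥ 1`: there is a vector of
norm `1 + k`, e.g. a multiple of `EuclideanSpace.single`). -/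
theorem isOpen_Co : IsOpen (Co e) := by
  have h : Co e = e.source ∩ e ⁻¹' {x | 1 < ‖x‖ ∧ ‖x‖ < 2} := rfl
  rw [h]
  exact e.isOpen_inter_preimage ((isOpen_lt continuous_const continuous_norm).inter
    (isOpen_lt continuous_norm continuous_const))

theorem continuousOn_rad : ContinuousOn (rad e) (Co e) := by
  have h : ContinuousOn e (Co e) := e.continuousOn.mono fun z hz => hz.1
  exact h.norm.sub continuousOn_const

theorem exists_lift (hb : Metric.closedBall 0 2 ⊆ e.target) {z : M} (hz : z ∈ Co e) :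
    ∃ σ : ℝ → M, ContinuousAt σ (rad e z) ∧ σ (rad e z) = z ∧
      ∀ᶠ k in 𝓝 (rad e z), rad e (σ k) = k := by
  have hn : ‖e z‖ ≠ 0 := by linarith [hz.2.1]
  have hr : rad e z = ‖e z‖ - 1 := rfl
  have h1 : ((rad e z + 1) / ‖e z‖) • e z = e z := by
    rw [hr, sub_add_cancel, div_self hn, one_smul]
  refine ⟨fun k => e.symm (((k + 1) / ‖e z‖) • e z), ?_, ?_, ?_⟩
  · have h2 : Continuous fun k : ℝ => ((k + 1) / ‖e z‖) • e z := by fun_prop
    refine ContinuousAt.comp (g := e.symm) (f := fun k : ℝ => ((k + 1) / ‖e z‖) • e z) ?_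
      h2.continuousAt
    apply e.symm.continuousAt
    show ((rad e z + 1) / ‖e z‖) • e z ∈ e.target
    rw [h1]
    exact e.map_source hz.1
  · show e.symm (((rad e z + 1) / ‖e z‖) • e z) = z
    rw [h1, e.left_inv hz.1]
  · have h3 : ∀ᶠ k in 𝓝 (rad e z), 0 < k ∧ k < 1 := by
      apply IsOpen.mem_nhds (isOpen_Ioo (a := (0 : ℝ)) (b := 1))
      rw [hr]
      exact ⟨by linarith [hz.2.1], by linarith [hz.2.2]⟩
    filter_upwards [h3] with k hk
    have h4 : ‖((k + 1) / ‖e z‖) • e z‖ = k + 1 := by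
      rw [norm_smul, Real.norm_eq_abs, abs_of_nonneg
        (div_nonneg (by linarith) (norm_nonneg _)), div_mul_cancel₀ _ hn]
    have h5 : ((k + 1) / ‖e z‖) • e z ∈ e.target := by
      apply hb
      rw [mem_closedBall_zero_iff, h4]
      linarith
    show ‖e (e.symm (((k + 1) / ‖e z‖) • e z))‖ - 1 = k
    rw [e.right_inv h5, h4]
    ring

theorem exists_rad_eq (hn : 0 < n) (hb : Metric.closedBall 0 2 ⊆ e.target) {k : ℝ}
    (hk : k ∈ Ioo (0 : ℝ) 1) : ∃ z ∈ Co e, rad e z = k := by
  set x : Euc n := EuclideanSpace.single ⟨0, hn⟩ (k + 1) with hx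
  have h1 : ‖x‖ = k + 1 := by
    rw [hx, EuclideanSpace.norm_single, Real.norm_eq_abs, abs_of_pos (by linarith [hk.1])]
  have h2 : x ∈ e.target := by
    apply hb
    rw [mem_closedBall_zero_iff, h1]
    linarith [hk.2]
  refine ⟨e.symm x, ⟨e.map_target h2, ?_, ?_⟩, ?_⟩
  · rw [e.right_inv h2, h1]; linarith [hk.1]
  · rw [e.right_inv h2, h1]; linarith [hk.2]
  · show ‖e (e.symm x)‖ - 1 = k
    rw [e.right_inv h2, h1]; ring

end Pool.Agent.Lib.H37C
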