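import Pool.Agent.Lib.H37C.Defs
import Pool.Agent.Lib.H37C.K1
import Pool.Agent.Lib.H37C.D2

open TopologicalSpace Set Filter Topology
open scoped Manifold ContDiff
open Pool.Agent.Lib.Helper37.ConjBorel

namespace Pool.Agent.Lib.H37C

variable {n : ℕ} {M : Type*} [TopologicalSpace M] [ChartedSpace (Euc n) M]
variable {e : OpenPartialHomeomorph M (Euc n)} {lt : ℕ → ℕ → Prop} [IsStrictTotalOrder ℕ lt]

omit [IsStrictTotalOrder ℕ lt] in
theorem f2_gap {k k' : ℝ} [IsStrictTotalOrder ℕ lt] (hk : k ∈ Kset lt) (hk' : k' ∈ Kset lt)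
    (h : k < k') : ∃ x ∈ Icc k k', x ∉ Kset lt := by
  obtain ⟨i, h1, h2⟩ := exists_gap hk hk' h
  have hw := wt_pos i
  refine ⟨lend lt i + wt i / 2, ⟨by linarith, by linarith⟩, fun hx => ?_⟩
  rcases hx.2.2 i with h3 | h3 <;> linarith

theorem f2_dim_one {x y : Euc 1} (h : ‖x‖ = ‖y‖) (h2 : ‖x - y‖ < ‖y‖) : x = y := by
  have hn : ∀ v : Euc 1, ‖v‖ = |v 0| := by
    intro v
    simp [EuclideanSpace.norm_eq, Real.sqrt_sq_eq_abs]
  rw [hn, hn] at h
  rw [hn, hn] at h2
  have h3 : x 0 = y 0 := by
    rcases abs_eq_abs.1 h with h4 | h4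
    · exact h4
    · exfalso
      have h5 : (x - y) 0 = x 0 - y 0 := rfl
      rw [h5, h4] at h2
      have h6 : |(-y 0 - y 0)| = 2 * |y 0| := by
        rw [show -y 0 - y 0 = -(2 * y 0) by ring, abs_neg, abs_mul]
        norm_num
      rw [h6] at h2
      have := abs_nonneg (y 0)
      linarith
  ext i
  have : i = 0 := Subsingleton.elim _ _
  rw [this, h3]

/-- **F2.** The component of a point of the shell in `X` is contained in the sphere through it, if
`X` is given in the shell by `rad e z ∈ Kint lt` and `X ∩ Co e` is closed.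

Proof: the component `C` of `z` in `X` is preconnected, `C ⊆ X`; `Co e` is open and
`X ∩ Co e` is closed, so `C ⊆ Co e` (`isPreconnected_iff_subset_of_disjoint`-like lemmas: `C` is
covered by the disjoint (in `X`) open sets `Co e` and `(X ∩ Co e)ᶜ` and meets the first). The image
of `C` under the continuous function `rad e` is a preconnected subset of `Kint lt`
(`IsPreconnected.image`); if it contained two points `k < k'`, it would contain `[k, k']`
(`IsPreconnected.Icc_subset`), but there is a gap between them (`exists_gap`), whose midpoint is not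
in `Kset`. -/
theorem comp_subset {X : Set M} (hX : ∀ z ∈ Co e, z ∈ X ↔ rad e z ∈ Kint lt)
    (hcl : IsClosed (X ∩ Co e)) (hop : IsOpen (Co e)) (hc : ContinuousOn (rad e) (Co e)) :
    ∀ z ∈ X ∩ Co e, ∀ z' ∈ connectedComponentIn X z, z' ∈ Co e ∧ rad e z' = rad e z := by
  rintro z ⟨hzX, hzC⟩
  have hpre := isPreconnected_connectedComponentIn (F := X) (x := z)
  have hsub : connectedComponentIn X z ⊆ X := connectedComponentIn_subset X z
  have hmem : z ∈ connectedComponentIn X z := mem_connectedComponentIn hzX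
  have h1 : connectedComponentIn X z ⊆ Co e := by
    intro w hw
    by_contra hwC
    obtain ⟨v, hv1, hv2, hv3⟩ := hpre (Co e) (X ∩ Co e)ᶜ hop hcl.isOpen_compl (by
      intro v hv
      by_cases h : v ∈ Co e
      · exact Or.inl h
      · exact Or.inr fun h2 => h h2.2) ⟨z, hmem, hzC⟩ ⟨w, hw, fun h2 => hwC h2.2⟩
    exact hv3 ⟨hsub hv1, hv2⟩
  intro z' hz'
  refine ⟨h1 hz', ?_⟩
  have himg : IsPreconnected (rad e '' connectedComponentIn X z) := hpre.image _ (hc.mono h1)
  have hK : ∀ w ∈ connectedComponentIn X z, rad e w ∈ Kset lt := fun w hw =>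
    ((hX w (h1 hw)).1 (hsub hw)).1
  have key : ∀ w ∈ connectedComponentIn X z, ∀ w' ∈ connectedComponentIn X z,
      ¬ rad e w < rad e w' := by
    intro w hw w' hw' hlt
    obtain ⟨x, hx1, hx2⟩ := f2_gap (hK w hw) (hK w' hw') hlt
    obtain ⟨v, hv, rfl⟩ := himg.Icc_subset (mem_image_of_mem _ hw) (mem_image_of_mem _ hw') hx1
    exact hx2 (hK v hv)
  exact le_antisymm (not_lt.1 (key z hmem z' hz')) (not_lt.1 (key z' hz' z hmem))

/-- **F2, second part.** The points of the sphere near `z` belong to the component of `z`.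

Proof. Let `r = ‖e z‖`, `1 < r < 2`. If `n ≥ 2` the sphere of radius `r` is connected
(`isPreconnected_sphere`, rank `> 1`), its image under `e.symm` is a preconnected subset of `X`
containing `z`, so contained in the component (`IsPreconnected.subset_connectedComponentIn`); and
`z' ∈ e.source` with `‖e z'‖ = r` is in this image. If `n = 1` and `z'` is so near to `z` that
`‖e z' - e z‖ < r`, then `‖e z'‖ = ‖e z‖` implies `e z' = e z` (dimension one), so `z' = z`. -/
theorem comp_loc (hn : 0 < n) (hb : Metric.closedBall 0 2 ⊆ e.target) {X : Set M}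
    (hX : ∀ z ∈ Co e, z ∈ X ↔ rad e z ∈ Kint lt) :
    ∀ z ∈ X ∩ Co e, ∀ᶠ z' in 𝓝 z, rad e z' = rad e z → z' ∈ connectedComponentIn X z := by
  rintro z ⟨hzX, hzC⟩
  have hzK := (hX z hzC).1 hzX
  have hop : IsOpen (Co e) := by
    have h : Co e = e.source ∩ e ⁻¹' {x | 1 < ‖x‖ ∧ ‖x‖ < 2} := rfl
    rw [h]
    exact e.isOpen_inter_preimage ((isOpen_lt continuous_const continuous_norm).inter
      (isOpen_lt continuous_norm continuous_const))
  rcases Nat.lt_or_ge 1 n with hn1 | hn1
  · -- the sphere is connected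
    have hrank : 1 < Module.rank ℝ (Euc n) := by
      rw [← Module.finrank_eq_rank, finrank_euclideanSpace_fin]
      exact_mod_cast hn1
    have hS := isPreconnected_sphere hrank (0 : Euc n) ‖e z‖
    have hSt : Metric.sphere (0 : Euc n) ‖e z‖ ⊆ e.target := by
      intro x hx
      apply hb
      rw [mem_sphere_zero_iff_norm] at hx
      rw [mem_closedBall_zero_iff, hx]
      exact hzC.2.2.le
    have hI : IsPreconnected (e.symm '' Metric.sphere (0 : Euc n) ‖e z‖) :=
      hS.image _ (e.continuousOn_symm.mono hSt)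
    have hIX : e.symm '' Metric.sphere (0 : Euc n) ‖e z‖ ⊆ X := by
      rintro _ ⟨x, hx, rfl⟩
      have hxt := hSt hx
      rw [mem_sphere_zero_iff_norm] at hx
      have h1 : e.symm x ∈ Co e := by
        refine ⟨e.map_target hxt, ?_, ?_⟩
        · rw [e.right_inv hxt, hx]; exact hzC.2.1
        · rw [e.right_inv hxt, hx]; exact hzC.2.2
      rw [hX _ h1]
      have h2 : rad e (e.symm x) = rad e z := by
        show ‖e (e.symm x)‖ - 1 = ‖e z‖ - 1
        rw [e.right_inv hxt, hx]
      rw [h2]
      exact hzK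
    have hzI : z ∈ e.symm '' Metric.sphere (0 : Euc n) ‖e z‖ :=
      ⟨e z, by simp, e.left_inv hzC.1⟩
    have hsub := hI.subset_connectedComponentIn hzI hIX
    filter_upwards [hop.mem_nhds hzC] with z' hz' hr
    apply hsub
    refine ⟨e z', ?_, e.left_inv hz'.1⟩
    rw [mem_sphere_zero_iff_norm]
    have h1 : ‖e z'‖ - 1 = ‖e z‖ - 1 := hr
    linarith
  · have hn' : n = 1 := by omega
    subst hn'
    have h1 : ∀ᶠ z' in 𝓝 z, ‖e z' - e z‖ < ‖e z‖ := by
      have h2 : ContinuousAt (fun z' => ‖e z' - e z‖) z :=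
        ((e.continuousAt hzC.1).sub continuousAt_const).norm
      have h3 : (fun z' => ‖e z' - e z‖) z < ‖e z‖ := by
        show ‖e z - e z‖ < ‖e z‖
        rw [sub_self, norm_zero]
        linarith [hzC.2.1]
      exact h2.eventually_lt_const h3
    filter_upwards [h1, hop.mem_nhds hzC] with z' hz'1 hz'2 hr
    have h2 : ‖e z'‖ = ‖e z‖ := by
      have h3 : ‖e z'‖ - 1 = ‖e z‖ - 1 := hr
      linarith
    have h3 : e z' = e z := f2_dim_one h2 hz'1
    have h4 : z' = z := e.injOn hz'2.1 hzC.1 h3
    rw [h4]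
    exact mem_connectedComponentIn hzX

end Pool.Agent.Lib.H37C
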