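import Pool.Agent.Lib.H37C.Defs
import Pool.Agent.Lib.H37C.F1
import Pool.Agent.Lib.H37C.F2
import Pool.Agent.Lib.H37C.S5
import Pool.Agent.Lib.H37C.S7
import Pool.Agent.Lib.H37C.D2

open TopologicalSpace Set Filter Topology
open scoped Manifold ContDiff
open Pool.Agent.Lib.Helper37.ConjBorel

namespace Pool.Agent.Lib.H37C

variable {n : ℕ} {M : Type*} [TopologicalSpace M] [ChartedSpace (Euc n) M]
variable {f₀ : DiffInf n M} {m : ℕ} {e : OpenPartialHomeomorph M (Euc n)}

/-- **F3.** The fixed points of `F^m` form, in the shell, the product of `Kint lt` and a sphere.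

Proof. By `iter_on` (`psi_out`, `psi_ball`), for `z ∈ Co e`: `F^[m] z = z` iff `psi lt δ (e z) = e z`
(injectivity of `e.symm` on the target) iff `vv n lt (rad e z) = 0` (`psi_eq`, `δ > 0`, `e z ≠ 0`) iff
`rad e z ∈ Kset lt` (`vv_eq_zero_iff`). The other properties: `isOpen_Co`, `isClosed_Kint` and
`isClosed_rad`, `comp_subset`, `comp_loc`, `continuousOn_rad`, `exists_lift`, `exists_rad_eq`. -/
theorem radData [T2Space M] (hn : 0 < n) (hS : SpotData f₀ m e) {lt : ℕ → ℕ → Prop}
    [IsStrictTotalOrder ℕ lt] {b t : ℕ} (hb : ∀ i, i ≠ b → lt b i) (ht : ∀ i, i ≠ t → lt i t)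
    {δ : ℝ} (h0 : 0 < δ) (h1 : δ ≤ 1) {F : DiffInf n M}
    (hF : ∀ z, F z = f₀ (ext e (psi lt δ) z)) :
    RadData {z | (⇑F)^[m] z = z} (Co e) (rad e) (Kint lt) := by
  have hψ2 : ∀ x : Euc n, 2 ≤ ‖x‖ → psi lt δ x = x := fun x hx =>
    psi_out (fun h => absurd h.2 (not_lt.2 hx))
  have hψb : ∀ x : Euc n, ‖x‖ ≤ 2 → ‖psi lt δ x‖ ≤ 2 := fun x hx => (psi_ball h0.le h1).2 hx
  have hmem : ∀ z ∈ Co e, z ∈ {z | (⇑F)^[m] z = z} ↔ rad e z ∈ Kint lt := by
    intro z hz
    have hr : rad e z ∈ Ioo (0 : ℝ) 1 := by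
      have h3 : rad e z = ‖e z‖ - 1 := rfl
      rw [h3]
      exact ⟨by linarith [hz.2.1], by linarith [hz.2.2]⟩
    have htar : psi lt δ (e z) ∈ e.target := by
      apply hS.ball
      rw [mem_closedBall_zero_iff]
      exact hψb _ hz.2.2.le
    have e1 : (⇑F)^[m] z = e.symm (psi lt δ (e z)) := by
      rw [iter_on hS hψ2 hψb hF hz.1, ext_of_mem hz.1]
    have e2 : (⇑F)^[m] z = z ↔ psi lt δ (e z) = e z := by
      rw [e1]
      constructor
      · intro h
        have h3 := congrArg e h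
        rwa [e.right_inv htar] at h3
      · intro h
        rw [h, e.left_inv hz.1]
    have e3 : psi lt δ (e z) = e z ↔ vv n lt (rad e z) = 0 := by
      have hn : ‖e z‖ ≠ 0 := by linarith [hz.2.1]
      constructor
      · intro h
        have h3 := norm_psi (lt := lt) h0.le (e z)
        rw [h] at h3
        have h4 : δ * vv n lt (‖e z‖ - 1) = 0 := by linarith
        rcases mul_eq_zero.1 h4 with h5 | h5
        · exact absurd h5 h0.ne'
        · exact h5
      · intro h
        have h3 : vv n lt (‖e z‖ - 1) = 0 := h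
        rw [psi_eq, h3, mul_zero, add_zero, mul_inv_cancel₀ hn, one_smul]
    show (⇑F)^[m] z = z ↔ _
    rw [e2, e3, vv_eq_zero_iff n ⟨hr.1.le, hr.2.le⟩]
    exact ⟨fun h => ⟨h, hr⟩, fun h => h.1⟩
  obtain ⟨hKc, hKs⟩ := isClosed_Kint hb ht
  have hcl : IsClosed ({z | (⇑F)^[m] z = z} ∩ Co e) := by
    have h3 := isClosed_rad (e := e) hS.ball hKc (wt_pos b) (by linarith [wt_pos t]) hKs
    convert h3 using 1
    ext z
    constructor
    · rintro ⟨h4, h5⟩
      exact ⟨h5, (hmem z h5).1 h4⟩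
    · rintro ⟨h4, h5⟩
      exact ⟨(hmem z h4).2 h5, h4⟩
  exact
    { isOpen := isOpen_Co
      closed := hcl
      mem := hmem
      comp := comp_subset hmem hcl isOpen_Co continuousOn_rad
      loc := comp_loc hn hS.ball hmem
      cont := continuousOn_rad
      lift := fun z hz => exists_lift hS.ball hz
      surj := fun k hk => exists_rad_eq hn hS.ball hk.2 }

end Pool.Agent.Lib.H37C
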