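import Pool.Agent.Lib.H37C.Defs

open TopologicalSpace Set Filter Topology

namespace Pool.Agent.Lib.H37C

variable {Z : Type*} [TopologicalSpace Z] {X Co : Set Z} {rad : Z → ℝ} {K : Set ℝ}

/-- **F4.** Accumulation in `X` gives accumulation of the radial coordinates.

Proof: let `z ∈ X ∩ Co` be in the closure of `S \ C(z)`. For `ε > 0` the set of all `z' ∈ Co` with
`|rad z' - rad z| < ε` and (`rad z' = rad z → z' ∈ C(z)`) is a neighbourhood of `z`, so it contains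
a point `z'` of `S \ C(z)`; `rad z' ≠ rad z`. -/
theorem accR_of_accX (hD : RadData X Co rad K) {S : Set Z} {z : Z} (hz : z ∈ X ∩ Co)
    (h : AccX X S z) : AccR (rad '' (S ∩ Co)) (rad z) := by
  unfold AccR
  rw [Metric.mem_closure_iff]
  intro ε hε
  have h1 : ∀ᶠ z' in 𝓝 z, z' ∈ Co := hD.isOpen.mem_nhds hz.2
  have h2 : ∀ᶠ z' in 𝓝 z, dist (rad z) (rad z') < ε := by
    have h3 : ContinuousAt rad z := hD.cont.continuousAt (hD.isOpen.mem_nhds hz.2)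
    have h4 := Metric.continuousAt_iff'.1 h3 ε hε
    filter_upwards [h4] with z' hz'
    rwa [dist_comm]
  have h3 := hD.loc z hz
  obtain ⟨z', hz'1, hz'2⟩ := mem_closure_iff_nhds.1 h _ ((h1.and h2).and h3)
  refine ⟨rad z', ⟨⟨z', ⟨hz'2.1, hz'1.1.1⟩, rfl⟩, fun h5 => hz'2.2 (hz'1.2 h5)⟩, hz'1.1.2⟩

/-- **F4, second part.** Conversely, a limit of radial coordinates in `T` gives accumulation.

Proof: let `σ` be the lift through `z`; for `k ∈ T \ {rad z}` near `rad z` the point `σ k` is near `z`,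
in `Co` (open), `rad (σ k) = k ∈ T`, and it is not in the component of `z` by `hD.comp`
(its radial coordinate is different). -/
theorem accX_of_accR (hD : RadData X Co rad K) {T : Set ℝ} {z : Z} (hz : z ∈ X ∩ Co)
    (h : AccR T (rad z)) : AccX X {z' | z' ∈ Co ∧ rad z' ∈ T} z := by
  obtain ⟨σ, hσ1, hσ2, hσ3⟩ := hD.lift z hz.2
  unfold AccX
  rw [mem_closure_iff_nhds]
  intro V hV
  have h1 : ∀ᶠ k in 𝓝 (rad z), σ k ∈ V ∩ Co := by
    apply hσ1.eventually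
    rw [hσ2]
    exact Filter.inter_mem hV (hD.isOpen.mem_nhds hz.2)
  obtain ⟨k, hk1, hk2⟩ := mem_closure_iff_nhds.1 h _ (h1.and hσ3)
  refine ⟨σ k, hk1.1.1, ⟨hk1.1.2, ?_⟩, fun hc => ?_⟩
  · rw [hk1.2]; exact hk2.1
  · have h3 := (hD.comp z hz _ hc).2
    rw [hk1.2] at h3
    exact hk2.2 h3

/-- **F4, third part.** From one dimension to `X`: a point of rank `Ω` outside the kernel.

Proof: `z ∈ Co` with `rad z = k` (`hD.surj`); `R' l = {z' ∈ Co | rad z' ∈ R l}` is a good family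
(`accX_of_accR`, `hD.mem`). If `SelfAcc X D` and `z ∈ D`, then `rad '' (D ∩ Co)` is `SelfR`
(`accR_of_accX`) and contains `k`. -/
theorem topProp_of_radData (hD : RadData X Co rad K) {Ω : Type*} {r : Ω → Ω → Prop}
    (h : ∃ k ∈ K, (∃ R : Ω → Set ℝ, GoodR K r R ∧ ∀ l, AccR (R l) k) ∧ ∀ D, SelfR K D → k ∉ D) :
    TopProp r X := by
  obtain ⟨k, hk, ⟨R, hR, hacc⟩, hno⟩ := h
  obtain ⟨z, hz, rfl⟩ := hD.surj k hk
  have hzX : z ∈ X := (hD.mem z hz).2 hk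
  refine ⟨fun l => {z' | z' ∈ Co ∧ rad z' ∈ R l}, ?_, z, hzX, fun l =>
    accX_of_accR hD ⟨hzX, hz⟩ (hacc l), fun D hDs hzD => ?_⟩
  · rintro l x ⟨hx1, hx2⟩
    have hxX : x ∈ X := (hD.mem x hx1).2 (hR l _ hx2).1
    exact ⟨hxX, fun l' hl' => accX_of_accR hD ⟨hxX, hx1⟩ ((hR l _ hx2).2 l' hl')⟩
  · refine hno (rad '' (D ∩ Co)) ⟨?_, ?_⟩ ⟨z, ⟨hzD, hz⟩, rfl⟩
    · rintro _ ⟨x, ⟨hx1, hx2⟩, rfl⟩
      exact (hD.mem x hx2).1 (hDs.1 hx1)
    · rintro _ ⟨x, ⟨hx1, hx2⟩, rfl⟩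
      exact accR_of_accX hD ⟨hDs.1 hx1, hx2⟩ (hDs.2 x hx1)

/-- **F4, fourth part.** From `X` to one dimension: points of rank `Ω` in the shell are in the
kernel.

Proof: `R' l = rad '' (R l ∩ Co)` is a good family in `K` (`accR_of_accX`, `hD.mem`) and `rad z` is
accumulated by each `R' l`; so `rad z ∈ D` with `SelfR K D`, and `{z' ∈ Co | rad z' ∈ D}` is
`SelfAcc` (`accX_of_accR`). -/
theorem self_of_radData (hD : RadData X Co rad K) {Ω : Type*} {r : Ω → Ω → Prop}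
    (h : ∀ R : Ω → Set ℝ, GoodR K r R → ∀ k ∈ K, (∀ l, AccR (R l) k) → ∃ D, SelfR K D ∧ k ∈ D)
    {R : Ω → Set Z} (hR : GoodFam X r R) {z : Z} (hz : z ∈ X ∩ Co) (hacc : ∀ l, AccX X (R l) z) :
    ∃ D, SelfAcc X D ∧ z ∈ D := by
  have hgood : GoodR K r (fun l => rad '' (R l ∩ Co)) := by
    rintro l _ ⟨x, ⟨hx1, hx2⟩, rfl⟩
    have hxX := (hR l x hx1).1
    exact ⟨(hD.mem x hx2).1 hxX, fun l' hl' =>
      accR_of_accX hD ⟨hxX, hx2⟩ ((hR l x hx1).2 l' hl')⟩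
  obtain ⟨D, hD1, hD2⟩ := h _ hgood (rad z) ((hD.mem z hz.2).1 hz.1)
    (fun l => accR_of_accX hD hz (hacc l))
  refine ⟨{z' | z' ∈ Co ∧ rad z' ∈ D}, ⟨?_, ?_⟩, hz.2, hD2⟩
  · rintro x ⟨hx1, hx2⟩
    exact (hD.mem x hx1).2 (hD1.1 hx2)
  · rintro x ⟨hx1, hx2⟩
    exact accX_of_accR hD ⟨(hD.mem x hx1).2 (hD1.1 hx2), hx1⟩ (hD1.2 _ hx2)

end Pool.Agent.Lib.H37C
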