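import Pool.Agent.Lib.H37C.Defs

open TopologicalSpace Set Filter Topology

namespace Pool.Agent.Lib.H37C

variable {Z : Type*} [TopologicalSpace Z]

/-- **F5.** Homeomorphisms transport accumulation (`Homeomorph.image_connectedComponentIn`,
`Homeomorph.image_closure`). -/
theorem AccX.image {Z' : Type*} [TopologicalSpace Z'] (g : Z ≃ₜ Z') {X S : Set Z} {x : Z}
    (hx : x ∈ X) (h : AccX X S x) : AccX (g '' X) (g '' S) (g x) := by
  unfold AccX at h ⊢
  rw [← g.image_connectedComponentIn hx, ← image_diff g.injective, ← g.image_closure]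
  exact mem_image_of_mem g h

theorem GoodFam.image {Z' : Type*} [TopologicalSpace Z'] (g : Z ≃ₜ Z') {X : Set Z} {Ω : Type*}
    {r : Ω → Ω → Prop} {R : Ω → Set Z} (h : GoodFam X r R) :
    GoodFam (g '' X) r (fun l => g '' R l) := by
  rintro l _ ⟨x, hx, rfl⟩
  exact ⟨mem_image_of_mem g (h l x hx).1, fun l' hl' => AccX.image g (h l x hx).1
    ((h l x hx).2 l' hl')⟩

theorem SelfAcc.image {Z' : Type*} [TopologicalSpace Z'] (g : Z ≃ₜ Z') {X D : Set Z}
    (h : SelfAcc X D) : SelfAcc (g '' X) (g '' D) := by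
  refine ⟨image_mono h.1, ?_⟩
  rintro _ ⟨x, hx, rfl⟩
  exact AccX.image g (h.1 hx) (h.2 x hx)

theorem TopProp.image {Z' : Type*} [TopologicalSpace Z'] (g : Z ≃ₜ Z') {X : Set Z} {Ω : Type*}
    {r : Ω → Ω → Prop} (h : TopProp r X) : TopProp r (g '' X) := by
  obtain ⟨R, hR, x, hx, hacc, hno⟩ := h
  refine ⟨fun l => g '' R l, hR.image g, g x, mem_image_of_mem g hx,
    fun l => AccX.image g hx (hacc l), fun D hD hxD => ?_⟩
  have h1 := hD.image g.symm
  have h2 : g.symm '' (g '' X) = X := by
    rw [← image_comp]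
    simp
  rw [h2] at h1
  exact hno _ h1 ⟨g x, hxD, g.symm_apply_apply x⟩

/-- **F5, last part.** The background: if `X` is the disjoint union of the closed sets `A` and `Y`,
then the component in `X` of a point of `A` is its component in `A`, and a good family of `X` gives
a good family of `A`.

Proof. The component of `x ∈ A` in `X` is preconnected and covered by the disjoint closed sets `A`
and `Y`, so contained in `A`, hence in the component in `A`
(`IsPreconnected.subset_connectedComponentIn`); the other inclusion is `connectedComponentIn_mono`.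
As `Y` is closed and `x ∉ Y`, `x ∈ closure (S \ C)` implies `x ∈ closure ((S ∩ A) \ C)` for
`S ⊆ X`. -/
theorem comp_background {X A Y : Set Z} (hX : X = A ∪ Y) (hA : IsClosed A) (hY : IsClosed Y)
    (hAY : Disjoint A Y) {x : Z} (hx : x ∈ A) :
    connectedComponentIn X x = connectedComponentIn A x := by
  have hxX : x ∈ X := hX ▸ Or.inl hx
  apply Subset.antisymm
  · refine isPreconnected_connectedComponentIn.subset_connectedComponentIn
      (mem_connectedComponentIn hxX) ?_
    have h1 : connectedComponentIn X x ⊆ A ∪ Y := by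
      rw [← hX]; exact connectedComponentIn_subset X x
    have h2 := isPreconnected_closed_iff.1
      (isPreconnected_connectedComponentIn (F := X) (x := x)) A Y hA hY h1
      ⟨x, mem_connectedComponentIn hxX, hx⟩
    intro y hy
    rcases h1 hy with h3 | h3
    · exact h3
    · obtain ⟨w, -, hw⟩ := h2 ⟨y, hy, h3⟩
      exact absurd hw.2 (Set.disjoint_left.1 hAY hw.1)
  · exact connectedComponentIn_mono x (hX ▸ subset_union_left)

theorem background {X A Y : Set Z} (hX : X = A ∪ Y) (hA : IsClosed A) (hY : IsClosed Y)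
    (hAY : Disjoint A Y) {Ω : Type*} {r : Ω → Ω → Prop} {R : Ω → Set Z} (hR : GoodFam X r R)
    {x : Z} (hx : x ∈ A) (hacc : ∀ l, AccX X (R l) x) :
    GoodFam A r (fun l => R l ∩ A) ∧ ∀ l, AccX A (R l ∩ A) x := by
  have key : ∀ y ∈ A, ∀ l, AccX X (R l) y → AccX A (R l ∩ A) y := by
    intro y hy l h
    unfold AccX at h ⊢
    rw [comp_background hX hA hY hAY hy] at h
    rw [mem_closure_iff_nhds] at h ⊢
    intro V hV
    have h1 : Yᶜ ∈ 𝓝 y := hY.isOpen_compl.mem_nhds (Set.disjoint_left.1 hAY hy)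
    obtain ⟨w, hw1, hw2⟩ := h _ (Filter.inter_mem hV h1)
    have hwX : w ∈ A ∪ Y := hX ▸ (hR l w hw2.1).1
    rcases hwX with h3 | h3
    · exact ⟨w, hw1.1, ⟨hw2.1, h3⟩, hw2.2⟩
    · exact absurd h3 hw1.2
  refine ⟨?_, fun l => key x hx l (hacc l)⟩
  rintro l y ⟨hy1, hy2⟩
  exact ⟨hy2, fun l' hl' => key y hy2 l' ((hR l y hy1).2 l' hl')⟩

theorem selfAcc_background {X A Y : Set Z} (hX : X = A ∪ Y) (hA : IsClosed A) (hY : IsClosed Y)
    (hAY : Disjoint A Y) {D : Set Z} (hD : SelfAcc A D) : SelfAcc X D := by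
  refine ⟨hD.1.trans (hX ▸ subset_union_left), fun x hx => ?_⟩
  have h := hD.2 x hx
  unfold AccX at h ⊢
  rwa [comp_background hX hA hY hAY (hD.1 hx)]

end Pool.Agent.Lib.H37C
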