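import Pool.Agent.Lib.H37C.Defs

open TopologicalSpace Set Filter Topology

namespace Pool.Agent.Lib.H37C

/-- **Z1.** For a strict total order `r` on `Ω`, the relation `NLt r` (largest difference decides) is
a strict total order on the finitely supported functions `Ω → ℤ`.

Proof: the set of differences of `f` and `g` is the (finite) support of `f - g`; if `f ≠ g` it is
nonempty and has an `r`-largest element `j`: then `f j < g j` or `g j < f j`. Irreflexive: clear.
Transitive: if `f < g` with `j` and `g < h` with `j'`, take the larger of `j`, `j'`. (One may also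
use `Finsupp.Lex` for the reversed order.) -/
theorem nlt_sto {Ω : Type*} (r : Ω → Ω → Prop) [IsStrictTotalOrder Ω r] :
    IsStrictTotalOrder (Ω →₀ ℤ) (NLt r) := by
  classical
  refine { trichotomous := ?_, irrefl := ?_, trans := ?_ }
  · intro f g h1 h2
    by_contra hne
    -- the largest difference
    have hmax : ∀ F : Finset Ω, F.Nonempty → ∃ j ∈ F, ∀ k ∈ F, ¬ r j k := by
      intro F hF
      induction hF using Finset.Nonempty.cons_induction with
      | singleton a => exact ⟨a, by simp, by simpa using irrefl_of r a⟩
      | cons a F ha hF ih =>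
        obtain ⟨j, hj, hjm⟩ := ih
        rcases trichotomous_of r a j with h | h | h
        · refine ⟨j, by simp [hj], fun k hk => ?_⟩
          rcases Finset.mem_cons.1 hk with rfl | hk
          · exact asymm_of r h
          · exact hjm k hk
        · refine ⟨j, by simp [hj], fun k hk => ?_⟩
          rcases Finset.mem_cons.1 hk with rfl | hk
          · rw [h]; exact irrefl_of r _
          · exact hjm k hk
        · refine ⟨a, by simp, fun k hk => ?_⟩
          rcases Finset.mem_cons.1 hk with rfl | hk
          · exact irrefl_of r _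
          · intro h3
            exact hjm k hk (_root_.trans h h3)
    have hne' : (f - g).support.Nonempty := by
      rw [Finsupp.support_nonempty_iff, sub_ne_zero]
      exact hne
    obtain ⟨j, hj, hjm⟩ := hmax _ hne'
    have hjne : f j ≠ g j := by
      intro h
      rw [Finsupp.mem_support_iff] at hj
      simp [h] at hj
    have habove : ∀ k, r j k → f k = g k := by
      intro k hk
      by_contra h
      refine hjm k ?_ hk
      rw [Finsupp.mem_support_iff, Finsupp.sub_apply]
      exact sub_ne_zero.2 h
    rcases lt_or_gt_of_ne hjne with h | h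
    · exact h1 ⟨j, h, habove⟩
    · exact h2 ⟨j, h, fun k hk => (habove k hk).symm⟩
  · rintro f ⟨j, hj, -⟩
    exact lt_irrefl _ hj
  · rintro f g h ⟨j, hj, hj'⟩ ⟨k, hk, hk'⟩
    rcases trichotomous_of r j k with h3 | h3 | h3
    · refine ⟨k, ?_, fun m hm => ?_⟩
      · rw [hj' k h3]; exact hk
      · rw [hj' m (_root_.trans h3 hm), hk' m hm]
    · subst h3
      exact ⟨j, hj.trans hk, fun m hm => (hj' m hm).trans (hk' m hm)⟩
    · refine ⟨j, ?_, fun m hm => ?_⟩
      · rw [← hk' j h3]; exact hj
      · rw [hj' m hm, hk' m (_root_.trans h3 hm)]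

/-- **Z1, second part.** If the relation `r x` depends continuously on `x` (clopen sets), so does
`NLt (r x)`.

Proof: in `NLt r f g` only the `j` in the finite support of `f - g` matter, and for such a `j` only
the `k` in this support matter: `NLt (r x) f g ↔ ∃ j ∈ (f - g).support, f j < g j ∧
∀ k ∈ (f - g).support, ¬ r x j k`. A finite union of finite intersections of clopen sets. -/
theorem nlt_clopen {X : Type*} [TopologicalSpace X] {Ω : Type*} (r : X → Ω → Ω → Prop)
    (hr : ∀ i j, IsClopen {x | r x i j}) (f g : Ω →₀ ℤ) : IsClopen {x | NLt (r x) f g} := by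
  classical
  have h1 : {x | NLt (r x) f g} = ⋃ j ∈ (f - g).support, ⋂ k ∈ (f - g).support,
      {x | f j < g j ∧ ¬ r x j k} := by
    ext x
    simp only [mem_setOf_eq, mem_iUnion, mem_iInter, exists_prop]
    constructor
    · rintro ⟨j, hj, hj'⟩
      refine ⟨j, ?_, fun k hk => ⟨hj, fun h => ?_⟩⟩
      · rw [Finsupp.mem_support_iff, Finsupp.sub_apply]
        omega
      · rw [Finsupp.mem_support_iff, Finsupp.sub_apply, hj' k h, sub_self] at hk
        exact hk rfl
    · rintro ⟨j, hj, hj'⟩
      refine ⟨j, (hj' j hj).1, fun k hk => ?_⟩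
      by_contra hne
      refine (hj' k ?_).2 hk
      rw [Finsupp.mem_support_iff, Finsupp.sub_apply]
      exact sub_ne_zero.2 hne
  rw [h1]
  refine isClopen_biUnion_finset fun j _ => isClopen_biInter_finset fun k _ => ?_
  by_cases hj : f j < g j
  · have : {x | f j < g j ∧ ¬ r x j k} = {x | r x j k}ᶜ := by
      ext x; simp [hj]
    rw [this]
    exact (hr j k).compl
  · have : {x | f j < g j ∧ ¬ r x j k} = ∅ := by
      ext x; simp [hj]
    rw [this]
    exact isClopen_empty

end Pool.Agent.Lib.H37C
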