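import Pool.Agent.Lib.H37C.Defs
import Pool.Agent.Lib.H37C.K1
import Pool.Agent.Lib.H37C.Z1

open TopologicalSpace Set Filter Topology

namespace Pool.Agent.Lib.H37C

variable {lt : ℕ → ℕ → Prop} [IsStrictTotalOrder ℕ lt]

/-- The point `k` separates the set `B` of gaps: one gap is to the left of `k`, another one to the
right. -/
def Sep (lt : ℕ → ℕ → Prop) (k : ℝ) (B : Set ℕ) : Prop :=
  ∃ i ∈ B, ∃ j ∈ B, lend lt i + wt i ≤ k ∧ k ≤ lend lt j

theorem k2_lt {i j : ℕ} (h : lend lt i + wt i ≤ lend lt j) : lt i j := by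
  rcases trichotomous_of lt i j with h1 | h1 | h1
  · exact h1
  · subst h1
    have := wt_pos i
    linarith
  · have h2 := lend_add_le h1
    have := wt_pos i
    have := wt_pos j
    linarith

theorem k2_nlt {Ω : Type*} {r : Ω → Ω → Prop} [IsStrictTotalOrder Ω r]
    {ι : (Ω →₀ ℤ) → ℕ} (hι : BlockEmb lt r ι) {f g : Ω →₀ ℤ} (h : lt (ι f) (ι g)) :
    NLt r f g := by
  have := nlt_sto r
  rcases trichotomous_of (NLt r) f g with h1 | h1 | h1
  · exact h1
  · subst h1
    exact absurd h (irrefl_of lt _)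
  · exact absurd h (asymm_of lt (hι.mono _ _ h1))

theorem k2_between {Ω : Type*} {r : Ω → Ω → Prop} [IsStrictTotalOrder Ω r]
    {h g : Ω →₀ ℤ} {j : Ω} (h1 : NLt r h g) (h2 : NLt r g (h + Finsupp.single j 1)) :
    (∀ m, ¬ r m j → g m = h m) ∨ ∀ m, ¬ r m j → g m = (h + Finsupp.single j 1 : Ω →₀ ℤ) m := by
  classical
  obtain ⟨a, ha, ha'⟩ := h1
  obtain ⟨b, hb, hb'⟩ := h2
  have hne : ∀ m, r j m → (h + Finsupp.single j 1 : Ω →₀ ℤ) m = h m := by
    intro m hm
    have : m ≠ j := by rintro rfl; exact irrefl_of r _ hm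
    simp [this]
  have hja : ¬ r j a := by
    intro hja
    rcases trichotomous_of r b a with hba | hba | hba
    · have := hb' a hba
      rw [hne a hja] at this
      omega
    · subst hba
      rw [hne b hja] at hb
      omega
    · have h3 := ha' b hba
      have h4 := hne b (_root_.trans hja hba)
      rw [h4] at hb
      omega
  have hjb : ¬ r j b := by
    intro hjb
    rw [hne b hjb] at hb
    rcases trichotomous_of r b a with hba | hba | hba
    · exact hja (_root_.trans hjb hba)
    · subst hba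
      omega
    · have h3 := ha' b hba
      omega
  have hja' : ∀ m, r j m → r a m := by
    intro m hm
    rcases trichotomous_of r a j with h3 | h3 | h3
    · exact _root_.trans h3 hm
    · rw [h3]; exact hm
    · exact absurd h3 hja
  have habove : ∀ m, r j m → g m = h m := fun m hm => (ha' m (hja' m hm)).symm
  have hj1 : h j ≤ g j := by
    rcases trichotomous_of r a j with h3 | h3 | h3
    · exact (ha' j h3).le
    · rw [← h3]; exact ha.le
    · exact absurd h3 hja
  have hj2 : g j ≤ h j + 1 := by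
    have h5 : (h + Finsupp.single j 1 : Ω →₀ ℤ) j = h j + 1 := by simp
    rcases trichotomous_of r b j with h3 | h3 | h3
    · rw [← h5]; exact (hb' j h3).le
    · subst h3; rw [← h5]; exact hb.le
    · exact absurd h3 hjb
  rcases lt_or_eq_of_le hj1 with h3 | h3
  · right
    intro m hm
    rcases trichotomous_of r m j with h4 | h4 | h4
    · exact absurd h4 hm
    · subst h4
      simp
      omega
    · rw [hne m h4, habove m h4]
  · left
    intro m hm
    rcases trichotomous_of r m j with h4 | h4 | h4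
    · exact absurd h4 hm
    · subst h4; exact h3.symm
    · exact habove m h4

/-- **K2.** The main step of the rank computation. Let `j` be a position, `f` a function; suppose
that the points of `R j` do not separate the blocks `{ι g | g k = h k for all k ≥ j}` (`¬ r k j`)
and that the point `k` of `Kset` is between two consecutive blocks: all `ι g` with `g = h` at the
positions `≥ j` are to the left of `k` and all `ι g` with `g = h + single j 1` at the positions
`≥ j` are to the right of `k`. Then `k` is not a limit of other points of `R j`.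

Proof. Let `i = ι h` and `i' = ι (h + single j 1)`, and suppose `k' ∈ R j`, `k' ≠ k`, with
`|k' - k| < min (wt i) (wt i')`. Case `k' < k`. Then `k' > k - wt i ≥ lend i`, so `lend i + wt i ≤ k'`
as `k' ∈ Kset`. By `exists_gap` there is `i₀` with `k' ≤ lend i₀`, `lend i₀ + wt i₀ ≤ k`. So
`lt i i₀` and `lt i₀ i'` (the gaps are ordered as the indices; `lend i' ≥ k`). By convexity
(`BlockEmb.conv`) `i₀ = ι g` with `h < g < h + single j 1` in the order `NLt`; so `g = h` at the
positions above `j`, and `g j` is `h j` or `h j + 1`. In the second case `g` belongs to the right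
block, a contradiction to `lend i₀ + wt i₀ ≤ k`, `wt i₀ > 0`. In the first case `g` and `h` belong to
the left block, `ι h` is to the left of `k'` and `ι g` to the right: `k'` separates the block of `h`,
a contradiction. Case `k' > k`: the same with the right block (`k' < k + wt i' ≤ lend i' + wt i'`,
so `k' ≤ lend i'`; a gap `i₀` between `k` and `k'` is in the right block). -/
theorem not_acc_between {Ω : Type*} {r : Ω → Ω → Prop} [IsStrictTotalOrder Ω r]
    {ι : (Ω →₀ ℤ) → ℕ} (hι : BlockEmb lt r ι) {S : Set ℝ} (hS : S ⊆ Kset lt) {j : Ω} (h : Ω →₀ ℤ)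
    (hsep : ∀ k ∈ S, ∀ f : Ω →₀ ℤ, ¬ Sep lt k (ι '' {g | ∀ m, ¬ r m j → g m = f m})) {k : ℝ}
    (hk : k ∈ Kset lt) (hl : ∀ g : Ω →₀ ℤ, (∀ m, ¬ r m j → g m = h m) → lend lt (ι g) + wt (ι g) ≤ k)
    (hr : ∀ g : Ω →₀ ℤ, (∀ m, ¬ r m j → g m = (h + Finsupp.single j 1 : Ω →₀ ℤ) m) → k ≤ lend lt (ι g)) :
    ¬ AccR S k := by
  intro hacc
  have hw1 := wt_pos (ι h)
  have hw2 := wt_pos (ι (h + Finsupp.single j 1))
  obtain ⟨k', ⟨hk'S, hk'k⟩, hd⟩ := Metric.mem_closure_iff.1 hacc
    (min (wt (ι h)) (wt (ι (h + Finsupp.single j 1)))) (lt_min hw1 hw2)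
  have hk'K := hS hk'S
  have hk'ne : k' ≠ k := hk'k
  rw [Real.dist_eq] at hd
  have hd1 : |k - k'| < wt (ι h) := hd.trans_le (min_le_left _ _)
  have hd2 : |k - k'| < wt (ι (h + Finsupp.single j 1)) := hd.trans_le (min_le_right _ _)
  have hL := hl h (fun m _ => rfl)
  have hR := hr (h + Finsupp.single j 1) (fun m _ => rfl)
  rcases lt_or_gt_of_ne hk'ne with hlt | hgt
  · have h1 : k - k' < wt (ι h) := lt_of_abs_lt hd1
    have h2 : lend lt (ι h) + wt (ι h) ≤ k' := by
      rcases hk'K.2.2 (ι h) with h3 | h3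
      · linarith
      · exact h3
    obtain ⟨i₀, hi1, hi2⟩ := exists_gap hk'K hk hlt
    have l1 : lt (ι h) i₀ := k2_lt (h2.trans hi1)
    have l2 : lt i₀ (ι (h + Finsupp.single j 1)) := k2_lt (hi2.trans hR)
    obtain ⟨g, rfl⟩ := hι.conv _ _ _ l1 l2
    rcases k2_between (k2_nlt hι l1) (k2_nlt hι l2) with hg | hg
    · exact hsep k' hk'S h ⟨ι h, ⟨h, fun m _ => rfl, rfl⟩, ι g, ⟨g, hg, rfl⟩, h2, hi1⟩
    · have h3 := hr g hg
      have := wt_pos (ι g)
      linarith
  · have h1 : k' - k < wt (ι (h + Finsupp.single j 1)) := by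
      rw [abs_sub_comm] at hd2
      exact lt_of_abs_lt hd2
    have h2 : k' ≤ lend lt (ι (h + Finsupp.single j 1)) := by
      rcases hk'K.2.2 (ι (h + Finsupp.single j 1)) with h3 | h3
      · exact h3
      · linarith
    obtain ⟨i₀, hi1, hi2⟩ := exists_gap hk hk'K hgt
    have l1 : lt (ι h) i₀ := k2_lt (hL.trans hi1)
    have l2 : lt i₀ (ι (h + Finsupp.single j 1)) := k2_lt (hi2.trans h2)
    obtain ⟨g, rfl⟩ := hι.conv _ _ _ l1 l2
    rcases k2_between (k2_nlt hι l1) (k2_nlt hι l2) with hg | hg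
    · have h3 := hl g hg
      have := wt_pos (ι g)
      linarith
    · exact hsep k' hk'S (h + Finsupp.single j 1) ⟨ι g, ⟨g, hg, rfl⟩,
        ι (h + Finsupp.single j 1), ⟨h + Finsupp.single j 1, fun m _ => rfl, rfl⟩, hi2, h2⟩

end Pool.Agent.Lib.H37C
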