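import Pool.Agent.Lib.H37C.Defs
import Pool.Agent.Lib.H37C.K2

open TopologicalSpace Set Filter Topology

namespace Pool.Agent.Lib.H37C

variable {lt : ℕ → ℕ → Prop} [IsStrictTotalOrder ℕ lt]

/-- **K3.** If the point `k` separates a set `ι '' B` of blocks, where `B` consists of the functions
which agree with `f` at the positions in an upper set `U` of `Ω` (`U` may be empty), then there are a
position `j ∉ U` and a function `h ∈ B` such that `k` lies between the consecutive blocks of `h` and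
`h + single j 1`, and `k` does not separate... precisely the conclusion below.

Proof. By assumption there are `g, g' ∈ B` with `ι g` to the left and `ι g'` to the right of `k`; so
`NLt r g g'` (trichotomy, monotonicity of `ι`, the gaps are ordered as the indices); let `j` be the
largest difference: `j ∉ U`. Choose the pair `(g, g')` such that `j` is minimal (`r` is
well-founded). For an integer `z` let `h z = g` with the value at `j` replaced by `z`
(`Finsupp.update` or `g + single j (z - g j)`). The block of `h z` (functions which agree with `h z`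
at the positions `≥ j`) is contained in `B` and is not separated by `k`, by the minimality of `j`.
Each `ι g''` is to the left or to the right of `k` (definition of `Kset`). So each block is
completely to the left or completely to the right. The block of `h (g j)` is to the left, that of
`h (g' j)` is to the right (as `g'` agrees with `g` above `j`), `g j < g' j`; so there is `z` such
that the block of `h z` is to the left and the block of `h (z+1)` is to the right (induction on the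
integers). Take `h = h z`. -/
theorem exists_between {Ω : Type*} {r : Ω → Ω → Prop} [IsStrictTotalOrder Ω r]
    (hwf : WellFounded r) {ι : (Ω →₀ ℤ) → ℕ} (hι : BlockEmb lt r ι) {k : ℝ} (hk : k ∈ Kset lt)
    (U : Set Ω) (hU : ∀ a b, r a b → a ∈ U → b ∈ U) (f : Ω →₀ ℤ)
    (hs : Sep lt k (ι '' {g | ∀ m ∈ U, g m = f m})) :
    ∃ j ∉ U, ∃ h : Ω →₀ ℤ,
      (∀ g : Ω →₀ ℤ, (∀ m, ¬ r m j → g m = h m) → lend lt (ι g) + wt (ι g) ≤ k) ∧
      ∀ g : Ω →₀ ℤ, (∀ m, ¬ r m j → g m = (h + Finsupp.single j 1 : Ω →₀ ℤ) m) → k ≤ lend lt (ι g) := by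
  classical
  have hw := fun i => wt_pos i
  let P : Set Ω := {j | ∃ g g' : Ω →₀ ℤ, (∀ m ∈ U, g m = f m) ∧ (∀ m ∈ U, g' m = f m) ∧
    lend lt (ι g) + wt (ι g) ≤ k ∧ k ≤ lend lt (ι g') ∧ g j < g' j ∧ ∀ m, r j m → g m = g' m}
  have hP : ∀ g g' : Ω →₀ ℤ, (∀ m ∈ U, g m = f m) → (∀ m ∈ U, g' m = f m) →
      lend lt (ι g) + wt (ι g) ≤ k → k ≤ lend lt (ι g') → ∃ j ∈ P, g j < g' j ∧
        ∀ m, r j m → g m = g' m := by
    intro g g' h1 h2 h3 h4
    obtain ⟨j, hj, hj'⟩ := k2_nlt hι (k2_lt (h3.trans h4))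
    exact ⟨j, ⟨g, g', h1, h2, h3, h4, hj, hj'⟩, hj, hj'⟩
  obtain ⟨-, ⟨g₁, hg₁, rfl⟩, -, ⟨g₂, hg₂, rfl⟩, hs1, hs2⟩ := hs
  have hPne : P.Nonempty := by
    obtain ⟨j, hj, -⟩ := hP g₁ g₂ hg₁ hg₂ hs1 hs2
    exact ⟨j, hj⟩
  obtain ⟨j, hjP, hmin⟩ := hwf.has_min P hPne
  obtain ⟨g, g', hg, hg', h3, h4, hjlt, hjab⟩ := hjP
  have hjU : j ∉ U := by
    intro hj
    rw [hg j hj, hg' j hj] at hjlt
    exact lt_irrefl _ hjlt
  refine ⟨j, hjU, ?_⟩
  let H : ℤ → (Ω →₀ ℤ) := fun z => g + Finsupp.single j (z - g j)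
  have hHj : ∀ z, H z j = z := by intro z; simp [H]
  have hHne : ∀ z m, m ≠ j → H z m = g m := by
    intro z m hm
    simp [H, hm]
  have hinB : ∀ z (g₃ : Ω →₀ ℤ), (∀ m, ¬ r m j → g₃ m = H z m) → ∀ m ∈ U, g₃ m = f m := by
    intro z g₃ h5 m hm
    have h6 : ¬ r m j := fun h7 => hjU (hU _ _ h7 hm)
    have h8 : m ≠ j := fun h9 => hjU (h9 ▸ hm)
    rw [h5 m h6, hHne z m h8, hg m hm]
  have hblock : ∀ z (g₃ g₄ : Ω →₀ ℤ), (∀ m, ¬ r m j → g₃ m = H z m) →
      (∀ m, ¬ r m j → g₄ m = H z m) → lend lt (ι g₃) + wt (ι g₃) ≤ k →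
      ¬ k ≤ lend lt (ι g₄) := by
    intro z g₃ g₄ h5 h6 h7 h8
    obtain ⟨j', hj'P, hj', -⟩ := hP g₃ g₄ (hinB z g₃ h5) (hinB z g₄ h6) h7 h8
    by_cases h9 : r j' j
    · exact hmin j' hj'P h9
    · rw [h5 j' h9, h6 j' h9] at hj'
      exact lt_irrefl _ hj'
  have hdich : ∀ i, ¬ k ≤ lend lt i → lend lt i + wt i ≤ k := fun i hi =>
    (hk.2.2 i).resolve_left hi
  have hleft : ∀ z, lend lt (ι (H z)) + wt (ι (H z)) ≤ k → ∀ g₃ : Ω →₀ ℤ,
      (∀ m, ¬ r m j → g₃ m = H z m) → lend lt (ι g₃) + wt (ι g₃) ≤ k := by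
    intro z hz g₃ h5
    exact hdich _ (hblock z (H z) g₃ (fun m _ => rfl) h5 hz)
  have hright : ∀ z, ¬ lend lt (ι (H z)) + wt (ι (H z)) ≤ k → ∀ g₃ : Ω →₀ ℤ,
      (∀ m, ¬ r m j → g₃ m = H z m) → k ≤ lend lt (ι g₃) := by
    intro z hz g₃ h5
    have h6 : k ≤ lend lt (ι (H z)) := (hk.2.2 _).resolve_right hz
    rcases hk.2.2 (ι g₃) with h7 | h7
    · exact h7
    · exact absurd h6 (hblock z g₃ (H z) h5 (fun m _ => rfl) h7)
  have hstart : lend lt (ι (H (g j))) + wt (ι (H (g j))) ≤ k := by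
    have : H (g j) = g := by simp [H]
    rw [this]; exact h3
  have hend : ¬ lend lt (ι (H (g' j))) + wt (ι (H (g' j))) ≤ k := by
    intro h5
    have h6 := hleft (g' j) h5 g' (fun m hm => by
      rcases trichotomous_of r m j with h7 | h7 | h7
      · exact absurd h7 hm
      · rw [h7, hHj]
      · have : m ≠ j := by rintro rfl; exact irrefl_of r _ h7
        rw [hHne _ _ this, hjab m h7])
    have := hw (ι g')
    linarith
  have hex : ∃ z, lend lt (ι (H z)) + wt (ι (H z)) ≤ k ∧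
      ¬ lend lt (ι (H (z + 1))) + wt (ι (H (z + 1))) ≤ k := by
    by_contra hcon
    push Not at hcon
    have : ∀ z, g j ≤ z → lend lt (ι (H z)) + wt (ι (H z)) ≤ k := by
      intro z hz
      induction z, hz using Int.le_induction with
      | base => exact hstart
      | succ z hz ih => exact hcon z ih
    exact hend (this _ hjlt.le)
  obtain ⟨z, hz1, hz2⟩ := hex
  have hsucc : H z + Finsupp.single j 1 = H (z + 1) := by
    ext m
    by_cases hm : m = j
    · subst hm
      rw [hHj]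
      simp [hHj]
    · rw [hHne _ _ hm]
      simp [hHne _ _ hm, hm]
  refine ⟨H z, hleft z hz1, ?_⟩
  rw [hsucc]
  exact hright (z + 1) hz2

end Pool.Agent.Lib.H37C
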