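import Pool.Agent.Lib.H37C.Defs
import Pool.Agent.Lib.H37C.K2
import Pool.Agent.Lib.H37C.K3

open TopologicalSpace Set Filter Topology

namespace Pool.Agent.Lib.H37C

variable {lt : ℕ → ℕ → Prop} [IsStrictTotalOrder ℕ lt]

/-- **K4.** In a good family, the points of rank `Ω` do not separate the blocks `ℤ^Ω`.

Proof. First claim, by well-founded induction on `l`: the points `k` of `R l` do not separate the
blocks `ι '' {g | ∀ m, ¬ r m l → g m = f m}`. If `k` separates, `exists_between` with
`U = {m | ¬ r m l}` gives `j` with `r j l` and `h`; by the induction hypothesis for `j` and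
`not_acc_between` with `S = R j`, the point `k` is not a limit of other points of `R j`, a
contradiction to `GoodR`, as `r j l`. Second, the statement for `k`: the same with `U = ∅`. -/
theorem not_sep_of_goodR {Ω : Type*} {r : Ω → Ω → Prop} [IsStrictTotalOrder Ω r]
    (hwf : WellFounded r) {ι : (Ω →₀ ℤ) → ℕ} (hι : BlockEmb lt r ι) {R : Ω → Set ℝ}
    (hR : GoodR (Kset lt) r R) {k : ℝ} (hk : k ∈ Kset lt) (hacc : ∀ l, AccR (R l) k) :
    ¬ Sep lt k (range ι) := by
  have hSub : ∀ l, R l ⊆ Kset lt := fun l k' hk' => (hR l k' hk').1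
  have claim : ∀ l, ∀ k' ∈ R l, ∀ f : Ω →₀ ℤ,
      ¬ Sep lt k' (ι '' {g | ∀ m, ¬ r m l → g m = f m}) := by
    intro l
    induction l using hwf.induction with
    | _ l ih =>
      intro k' hk' f hsep
      obtain ⟨j, hj, h, hl, hr⟩ := exists_between hwf hι (hSub l hk') {m | ¬ r m l}
        (fun a b hab ha hb => ha (_root_.trans hab hb)) f hsep
      have hjl : r j l := by
        by_contra h1
        exact hj h1
      exact not_acc_between hι (hSub j) h (fun k'' hk'' f' => ih j hjl k'' hk'' f') (hSub l hk')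
        hl hr ((hR l k' hk').2 j hjl)
  intro hsep
  obtain ⟨j, -, h, hl, hr⟩ := exists_between hwf hι hk (∅ : Set Ω)
    (fun a b _ ha => absurd ha (Set.notMem_empty a)) 0 (by
      have : {g : Ω →₀ ℤ | ∀ m ∈ (∅ : Set Ω), g m = (0 : Ω →₀ ℤ) m} = univ := by
        ext g; simp
      rw [this, image_univ]
      exact hsep)
  exact not_acc_between hι (hSub j) h (fun k'' hk'' f' => claim j k'' hk'' f') hk hl hr (hacc j)

end Pool.Agent.Lib.H37C
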