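import Pool.Agent.Lib.H37C.Defs
import Pool.Agent.Lib.H37C.K4

open TopologicalSpace Set Filter Topology

namespace Pool.Agent.Lib.H37C

variable {lt : ℕ → ℕ → Prop} [IsStrictTotalOrder ℕ lt]

/-- **K7.** For the order `1 + ℚ × ℤ^Ω + 1`: the set of all points which do not separate a block
`{q} × ℤ^Ω` accumulates at each of its points.

Proof. Let `k` be such a point and `J` the set of all rationals `q` such that the block `q` is to the
left of `k` (each block is completely to the left or completely to the right of `k`, as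
`k ∈ Kset`); `J` is an initial segment of `ℚ`, and `below lt k = {b} ∪ ⋃_{q ∈ J} range (ι q)`. For a
rational `q` let `I q = {b} ∪ ⋃_{q' ≤ q} range (ι q')`, an initial segment, and `k_q = pt (I q)`, a
point of `Kint` which does not separate a block (`below_pt`). Let `ε > 0`.
Case 1: `J` is nonempty and has no largest element. Choose a finite `F ⊆ below lt k` with
`pt F > pt (below lt k) - ε = k - ε` and `q ∈ J` such that all elements of `F` are in `I q`
(finitely many rationals). Then `k - ε < k_q < k` (strict: there is a larger `q' ∈ J`).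
Case 2: `J` is empty or has a largest element `q₀`. Then the complement `Jᶜ` is nonempty and has no
smallest element (density of `ℚ`). Choose a finite `F ⊆ (below lt k)ᶜ` with
`pt F > pt ((below lt k)ᶜ) - ε = 1 - k - ε` and `q ∈ Jᶜ` smaller than all rationals `q'` such that
an element of `F` is in the block `q'`. Then `I q` is disjoint from `F`, so
`k_q = 1 - pt ((I q)ᶜ) ≤ 1 - pt F < k + ε`, and `k < k_q`, as the block `q` is in `I q` and not in
`below lt k`. -/
theorem selfR_noSep {Ω : Type*} {r : Ω → Ω → Prop} [IsStrictTotalOrder Ω r]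
    {b t : ℕ} {ι : ℚ → (Ω →₀ ℤ) → ℕ} (hι : ∀ q, BlockEmb lt r (ι q))
    (hq : ∀ q q', q < q' → ∀ f g, lt (ι q f) (ι q' g)) (hb : ∀ q f, lt b (ι q f))
    (ht : ∀ q f, lt (ι q f) t) (hall : ∀ i, i = b ∨ i = t ∨ ∃ q f, ι q f = i) :
    SelfR (Kint lt) {k | k ∈ Kint lt ∧ ∀ q, ¬ Sep lt k (range (ι q))} := by
  classical
  refine ⟨fun k hk => hk.1, ?_⟩
  rintro k ⟨hkK, hns⟩
  have hKs := hkK.1
  -- disjointness of the blocks
  have hbt : lt b t := _root_.trans (hb 0 0) (ht 0 0)
  have hqlt : ∀ q q' f g, lt (ι q f) (ι q' g) → q ≤ q' := by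
    intro q q' f g h
    by_contra h1
    exact asymm_of lt h (hq q' q (not_le.1 h1) g f)
  have hqeq : ∀ q q' f g, ι q f = ι q' g → q = q' := by
    intro q q' f g h
    rcases lt_trichotomy q q' with h1 | h1 | h1
    · have := hq q q' h1 f g
      rw [h] at this
      exact absurd this (irrefl_of lt _)
    · exact h1
    · have := hq q' q h1 g f
      rw [h] at this
      exact absurd this (irrefl_of lt _)
  -- initial segments up to `q`
  let I : ℚ → Set ℕ := fun q => {i | i = b ∨ ∃ q' ≤ q, ∃ f, ι q' f = i}
  have hIi : ∀ q, ∀ i j, lt i j → j ∈ I q → i ∈ I q := by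
    rintro q i j hij (h | ⟨q', hq', f, h⟩)
    · subst h
      rcases hall i with h | h | ⟨q'', g, h⟩
      · exact Or.inl h
      · rw [h] at hij; exact absurd hij (asymm_of lt hbt)
      · rw [← h] at hij; exact absurd hij (asymm_of lt (hb q'' g))
    · subst h
      rcases hall i with h | h | ⟨q'', g, h⟩
      · exact Or.inl h
      · rw [h] at hij; exact absurd hij (asymm_of lt (ht q' f))
      · rw [← h] at hij ⊢
        exact Or.inr ⟨q'', (hqlt _ _ _ _ hij).trans hq', g, rfl⟩
  have htI : ∀ q, t ∉ I q := by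
    rintro q (h | ⟨q', -, f, h⟩)
    · rw [h] at hbt; exact irrefl_of lt _ hbt
    · have := ht q' f
      rw [h] at this
      exact irrefl_of lt _ this
  have hIK : ∀ q, pt (I q) ∈ Kint lt := by
    intro q
    refine ⟨pt_mem_Kset (hIi q), ?_, ?_⟩
    · have h1 : wt b ≤ pt (I q) := by
        rw [← k0_single b]
        refine pt_mono ?_
        rw [singleton_subset_iff]
        exact Or.inl rfl
      exact (wt_pos b).trans_le h1
    · have h2 : pt (I q) + wt t ≤ pt univ := pt_add_le (subset_univ _) (mem_univ _) (htI q)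
      have h3 := pt_le_one univ
      have := wt_pos t
      linarith
  have hIns : ∀ q q', ¬ Sep lt (pt (I q)) (range (ι q')) := by
    rintro q q' ⟨-, ⟨f, rfl⟩, -, ⟨g, rfl⟩, h1, h2⟩
    have h3 : ι q' f ∈ below lt (pt (I q)) := h1
    rw [below_pt (hIi q)] at h3
    have h4 : ι q' g ∉ below lt (pt (I q)) := by
      intro h5
      have h6 : lend lt (ι q' g) + wt (ι q' g) ≤ pt (I q) := h5
      have := wt_pos (ι q' g)
      linarith
    rw [below_pt (hIi q)] at h4
    apply h4
    rcases h3 with h3 | ⟨q'', hq'', f', h3⟩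
    · have := hb q' f
      rw [h3] at this
      exact absurd this (irrefl_of lt _)
    · have := hqeq _ _ _ _ h3
      subst this
      exact Or.inr ⟨q'', hq'', g, rfl⟩
  have hbk : b ∈ below lt k := by
    rcases hKs.2.2 b with h | h
    · have hlb : lend lt b = 0 := by
        rw [lend_eq_pt]
        have : {j | lt j b} = ∅ := by
          ext j
          simp only [mem_setOf_eq, mem_empty_iff_false, iff_false]
          intro hj
          rcases hall j with h | h | ⟨q, f, h⟩
          · rw [h] at hj; exact irrefl_of lt _ hj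
          · rw [h] at hj; exact asymm_of lt hj hbt
          · rw [← h] at hj; exact asymm_of lt hj (hb q f)
        rw [this]
        simp [pt]
      rw [hlb] at h
      exact absurd hkK.2.1 (not_lt.2 h)
    · exact h
  have htk : t ∉ below lt k := by
    intro h
    have h1 : lend lt t + wt t ≤ k := h
    have hlt : lend lt t + wt t = 1 := by
      rw [lend_add]
      have : {j | j = t ∨ lt j t} = univ := by
        ext j
        simp only [mem_setOf_eq, mem_univ, iff_true]
        rcases hall j with h | h | ⟨q, f, h⟩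
        · right; rw [h]; exact hbt
        · left; exact h
        · right; rw [← h]; exact ht q f
      rw [this]
      have := pt_compl univ
      simpa [pt] using this
    rw [hlt] at h1
    exact absurd hkK.2.2 (not_lt.2 h1)
  -- each block is on one side
  have hside : ∀ q f g, ι q f ∈ below lt k → ι q g ∈ below lt k := by
    intro q f g h
    rcases hKs.2.2 (ι q g) with h1 | h1
    · exact absurd ⟨ι q f, ⟨f, rfl⟩, ι q g, ⟨g, rfl⟩, h, h1⟩ (hns q)
    · exact h1
  let J : Set ℚ := {q | ι q 0 ∈ below lt k}
  have hJmem : ∀ q f, ι q f ∈ below lt k ↔ q ∈ J := fun q f =>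
    ⟨fun h => hside q f 0 h, fun h => hside q 0 f h⟩
  have hJlow : ∀ q q', q ≤ q' → q' ∈ J → q ∈ J := by
    intro q q' hqq' hq'
    rcases hqq'.lt_or_eq with h | h
    · exact below_initial k _ _ (hq q q' h 0 0) hq'
    · rw [h]; exact hq'
  show k ∈ closure _
  rw [Metric.mem_closure_iff]
  intro ε hε
  by_cases hcase : J.Nonempty ∧ ∀ q ∈ J, ∃ q' ∈ J, q < q'
  · -- limit from the left
    obtain ⟨⟨q₀, hq₀⟩, hno⟩ := hcase
    obtain ⟨F, hF, hFε⟩ := exists_finset_pt (below lt k) hε
    rw [pt_below hKs] at hFε
    have hub : ∀ F : Finset ℕ, (↑F : Set ℕ) ⊆ below lt k → ∃ q ∈ J, (↑F : Set ℕ) ⊆ I q := by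
      intro F
      induction F using Finset.induction_on with
      | empty => exact fun _ => ⟨q₀, hq₀, by simp⟩
      | insert a F ha ih =>
        intro hsub
        obtain ⟨q, hqJ, hqF⟩ := ih (fun i hi => hsub (by simp [Finset.mem_coe.1 hi]))
        have ha' : a ∈ below lt k := hsub (by simp)
        rcases hall a with h | h | ⟨q', f, h⟩
        · refine ⟨q, hqJ, ?_⟩
          intro i hi
          rcases Finset.mem_insert.1 (Finset.mem_coe.1 hi) with rfl | hi
          · exact Or.inl h
          · exact hqF hi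
        · rw [h] at ha'; exact absurd ha' htk
        · have hq'J : q' ∈ J := (hJmem q' f).1 (h ▸ ha')
          refine ⟨max q q', ?_, ?_⟩
          · rcases le_total q q' with h3 | h3
            · rw [max_eq_right h3]; exact hq'J
            · rw [max_eq_left h3]; exact hqJ
          · intro i hi
            rcases Finset.mem_insert.1 (Finset.mem_coe.1 hi) with rfl | hi
            · exact Or.inr ⟨q', le_max_right _ _, f, h⟩
            · rcases hqF hi with h3 | ⟨q'', hq'', f', h3⟩
              · exact Or.inl h3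
              · exact Or.inr ⟨q'', hq''.trans (le_max_left _ _), f', h3⟩
    obtain ⟨q, hqJ, hqF⟩ := hub F hF
    obtain ⟨q', hq'J, hqq'⟩ := hno q hqJ
    have h1 : k - ε < pt (I q) := hFε.trans_le (pt_mono hqF)
    have hsub : I q ⊆ below lt k := by
      rintro i (h | ⟨q'', hq'', f, h⟩)
      · rw [h]; exact hbk
      · rw [← h]; exact (hJmem _ _).2 (hJlow _ _ hq'' hqJ)
    have h2 : pt (I q) + wt (ι q' 0) ≤ pt (below lt k) := by
      refine pt_add_le hsub hq'J ?_
      rintro (h | ⟨q'', hq'', f, h⟩)
      · have := hb q' 0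
        rw [h] at this
        exact irrefl_of lt _ this
      · have := hqeq _ _ _ _ h
        subst this
        exact absurd hqq' (not_lt.2 hq'')
    rw [pt_below hKs] at h2
    have hw := wt_pos (ι q' 0)
    refine ⟨pt (I q), ⟨⟨hIK q, hIns q⟩, ?_⟩, ?_⟩
    · intro h
      rw [mem_singleton_iff] at h
      linarith
    · rw [Real.dist_eq, abs_of_pos (by linarith)]
      linarith
  · -- limit from the right
    have hJc : ∃ q, q ∉ J := by
      by_contra h
      push Not at h
      exact hcase ⟨⟨0, h 0⟩, fun q _ => ⟨q + 1, h _, by linarith⟩⟩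
    have hnomin : ∀ q, q ∉ J → ∃ q', q' ∉ J ∧ q' < q := by
      intro q hqJ
      by_cases hJne : J.Nonempty
      · have h1 : ∃ q₁ ∈ J, ∀ q' ∈ J, q' ≤ q₁ := by
          by_contra h2
          push Not at h2
          exact hcase ⟨hJne, h2⟩
        obtain ⟨q₁, hq₁, hmax⟩ := h1
        have h3 : q₁ < q := by
          by_contra h4
          exact hqJ (hJlow _ _ (not_lt.1 h4) hq₁)
        refine ⟨(q₁ + q) / 2, fun h4 => ?_, by linarith⟩
        have := hmax _ h4
        linarith
      · refine ⟨q - 1, fun h4 => hJne ⟨_, h4⟩, by linarith⟩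
    obtain ⟨q₀, hq₀⟩ := hJc
    obtain ⟨F, hF, hFε⟩ := exists_finset_pt (below lt k)ᶜ hε
    have hcompl := pt_compl (below lt k)
    rw [pt_below hKs] at hcompl
    have hlb : ∀ F : Finset ℕ, (↑F : Set ℕ) ⊆ (below lt k)ᶜ →
        ∃ q, q ∉ J ∧ Disjoint (↑F : Set ℕ) (I q) := by
      intro F
      induction F using Finset.induction_on with
      | empty => exact fun _ => ⟨q₀, hq₀, by simp⟩
      | insert a F ha ih =>
        intro hsub
        obtain ⟨q, hqJ, hqF⟩ := ih (fun i hi => hsub (by simp [Finset.mem_coe.1 hi]))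
        have ha' : a ∉ below lt k := hsub (by simp)
        have hIm : ∀ q₁ q₂, q₁ ≤ q₂ → I q₁ ⊆ I q₂ := by
          rintro q₁ q₂ h12 i (h | ⟨q'', hq'', f, h⟩)
          · exact Or.inl h
          · exact Or.inr ⟨q'', hq''.trans h12, f, h⟩
        rcases hall a with h | h | ⟨q', f, h⟩
        · rw [h] at ha'; exact absurd hbk ha'
        · refine ⟨q, hqJ, ?_⟩
          rw [Set.disjoint_left] at hqF ⊢
          intro i hi hi'
          rcases Finset.mem_insert.1 (Finset.mem_coe.1 hi) with rfl | hi
          · rw [h] at hi'; exact htI q hi'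
          · exact hqF hi hi'
        · have hq'J : q' ∉ J := fun h3 => ha' (h ▸ (hJmem q' f).2 h3)
          obtain ⟨q₂, hq₂J, hq₂⟩ := hnomin q' hq'J
          refine ⟨min q q₂, ?_, ?_⟩
          · rcases le_total q q₂ with h3 | h3
            · rw [min_eq_left h3]; exact hqJ
            · rw [min_eq_right h3]; exact hq₂J
          · rw [Set.disjoint_left] at hqF ⊢
            intro i hi hi'
            rcases Finset.mem_insert.1 (Finset.mem_coe.1 hi) with rfl | hi
            · rcases hi' with h3 | ⟨q'', hq'', f', h3⟩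
              · rw [h3] at ha'; exact ha' hbk
              · have := hqeq _ _ _ _ (h3.trans h.symm)
                subst this
                have h4 := hq''.trans (min_le_right _ _)
                linarith
            · exact hqF hi (hIm _ _ (min_le_left _ _) hi')
    obtain ⟨q, hqJ, hqF⟩ := hlb F hF
    have h1 : pt (F : Set ℕ) ≤ pt (I q)ᶜ := pt_mono fun i hi hi' =>
      Set.disjoint_left.1 hqF hi hi'
    have h2 := pt_compl (I q)
    have hsub : below lt k ⊆ I q := by
      intro i hi
      rcases hall i with h | h | ⟨q', f, h⟩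
      · exact Or.inl h
      · rw [h] at hi; exact absurd hi htk
      · rw [← h] at hi ⊢
        have h3 : q' ∈ J := (hJmem _ _).1 hi
        have h4 : q' ≤ q := by
          by_contra h5
          exact hqJ (hJlow _ _ (not_le.1 h5).le h3)
        exact Or.inr ⟨q', h4, f, rfl⟩
    have h3 : pt (below lt k) + wt (ι q 0) ≤ pt (I q) :=
      pt_add_le hsub (Or.inr ⟨q, le_rfl, 0, rfl⟩) hqJ
    rw [pt_below hKs] at h3
    have hw := wt_pos (ι q 0)
    refine ⟨pt (I q), ⟨⟨hIK q, hIns q⟩, ?_⟩, ?_⟩
    · intro h
      rw [mem_singleton_iff] at h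
      linarith
    · rw [Real.dist_eq, abs_of_neg (by linarith)]
      linarith

/-- **K7, conclusion.** For the order `1 + ℚ × ℤ^Ω + 1` all points of rank `Ω` belong to a set without
isolated points.

Proof: by `not_sep_of_goodR` they do not separate the blocks; `selfR_noSep`. -/
theorem selfR_of_isB {Ω : Type*} {r : Ω → Ω → Prop} [IsStrictTotalOrder Ω r]
    (hwf : WellFounded r) (h : IsB lt r) (R : Ω → Set ℝ) (hR : GoodR (Kint lt) r R) (k : ℝ)
    (hk : k ∈ Kint lt) (hacc : ∀ l, AccR (R l) k) : ∃ D, SelfR (Kint lt) D ∧ k ∈ D := by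
  obtain ⟨b, t, ι, hι, hq, hb, ht, hall⟩ := h
  refine ⟨_, selfR_noSep hι hq hb ht hall, hk, fun q => ?_⟩
  exact not_sep_of_goodR hwf (hι q) (fun l k' hk' => ⟨(hR l k' hk').1.1, (hR l k' hk').2⟩) hk.1
    hacc

end Pool.Agent.Lib.H37C
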