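import Pool.Agent.Lib.H37C.Defs
import Pool.Agent.Lib.H37C.D2
import Pool.Agent.Lib.H37C.F3
import Pool.Agent.Lib.H37C.F4
import Pool.Agent.Lib.H37C.F5
import Pool.Agent.Lib.H37C.K7

open TopologicalSpace Set Filter Topology
open scoped Manifold ContDiff
open Pool.Agent.Lib.Helper37.ConjBorel

namespace Pool.Agent.Lib.H37C

variable {n : ℕ} {M : Type*} [TopologicalSpace M] [ChartedSpace (Euc n) M]
variable {f₀ : DiffInf n M} {m : ℕ} {e : OpenPartialHomeomorph M (Euc n)}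

/-- the background: the fixed points of `f₀^m` outside the orbit of the shell -/
def bg (f₀ : DiffInf n M) (m : ℕ) (e : OpenPartialHomeomorph M (Euc n)) : Set M :=
  {z | (⇑f₀)^[m] z = z ∧ ∀ i < m, ∀ y ∈ Co e, (⇑f₀)^[i] y ≠ z}

/-- **G1.** The set of the fixed points of `F^m` is the disjoint union of the background and of the
closed set of the fixed points in the orbit of the shell.

Proof. `X = {z | F^[m] z = z}` is closed. The orbit `O` of the shell is `⋃_{i<m} f₀^i (Co e)`, an open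
set, so `bg`, which is `X \ O` by `iter_off`, is closed. And `X ∩ O = ⋃_{i<m} f₀^i (X ∩ Co e)`
is closed, as `X ∩ Co e` is closed: for `y ∈ Co e`: `f₀^i y ∈ X` iff `y ∈ X`, because `y` is
an iterate of `f₀^i y` under `F` (`iter_back`) and conversely `f₀^i y = F^[i] (y')`... (use that `F`
preserves `X` in both directions: `F z ∈ X ↔ z ∈ X`). -/
theorem split_fix [T2Space M] {δ : ℝ} (hn : 0 < n) (hS : SpotData f₀ m e) {lt : ℕ → ℕ → Prop}
    [IsStrictTotalOrder ℕ lt] {b t : ℕ} (hb : ∀ i, i ≠ b → lt b i) (ht : ∀ i, i ≠ t → lt i t)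
    (h0 : 0 < δ) (h1 : δ ≤ 1) {F : DiffInf n M} (hF : ∀ z, F z = f₀ (ext e (psi lt δ) z)) :
    IsClosed (bg f₀ m e) ∧ ∃ Y : Set M, IsClosed Y ∧ Disjoint (bg f₀ m e) Y ∧
      {z | (⇑F)^[m] z = z} = bg f₀ m e ∪ Y ∧
      ∀ z ∈ Y, ∃ j, (⇑F)^[j] z ∈ {z | (⇑F)^[m] z = z} ∩ Co e := by
  have hD := radData hn hS hb ht h0 h1 hF
  have hψ1 : ∀ x : Euc n, ¬ (1 < ‖x‖ ∧ ‖x‖ < 2) → psi lt δ x = x := fun x hx =>
    psi_out (fun h => hx h)
  have hoff := fun z hz => iter_off (z := z) hS hψ1 hF hz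
  -- the orbit of the shell
  let O : Set M := ⋃ i ∈ Finset.range m, (⇑f₀)^[i] '' Co e
  have hOmem : ∀ z, z ∈ O ↔ ∃ i < m, ∃ y ∈ Co e, (⇑f₀)^[i] y = z := by
    intro z
    simp only [O, mem_iUnion, Finset.mem_range, mem_image, exists_prop]
  have hhom : ∀ i, ∃ g : M ≃ₜ M, ∀ z, g z = (⇑f₀)^[i] z := by
    intro i
    induction i with
    | zero => exact ⟨Homeomorph.refl M, fun z => rfl⟩
    | succ i ih =>
      obtain ⟨g, hg⟩ := ih
      refine ⟨g.trans f₀.toHomeomorph, fun z => ?_⟩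
      rw [Function.iterate_succ_apply', ← hg]
      rfl
  have hOo : IsOpen O := by
    refine isOpen_biUnion fun i _ => ?_
    obtain ⟨g, hg⟩ := hhom i
    have h2 : (⇑f₀)^[i] '' Co e = g '' Co e := by
      ext z; simp [hg]
    rw [h2]
    exact g.isOpenMap _ isOpen_Co
  have hcl0 : IsClosed {z | (⇑f₀)^[m] z = z} :=
    isClosed_eq (f₀.continuous.iterate m) continuous_id
  have hbg : bg f₀ m e = {z | (⇑f₀)^[m] z = z} ∩ Oᶜ := by
    ext z
    constructor
    · rintro ⟨h2, h3⟩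
      refine ⟨h2, fun h4 => ?_⟩
      obtain ⟨i, hi, y, hy, h5⟩ := (hOmem z).1 h4
      exact h3 i hi y hy h5
    · rintro ⟨h2, h3⟩
      exact ⟨h2, fun i hi y hy h4 => h3 ((hOmem z).2 ⟨i, hi, y, hy, h4⟩)⟩
  have hbgc : IsClosed (bg f₀ m e) := by
    rw [hbg]; exact hcl0.inter hOo.isClosed_compl
  have hFinj : ∀ j, Function.Injective ((⇑F)^[j]) := fun j => F.injective.iterate j
  have hXF : ∀ j z, (⇑F)^[j] z ∈ {z | (⇑F)^[m] z = z} ↔ z ∈ {z | (⇑F)^[m] z = z} := by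
    intro j z
    show (⇑F)^[m] ((⇑F)^[j] z) = (⇑F)^[j] z ↔ (⇑F)^[m] z = z
    rw [← Function.iterate_add_apply, add_comm, Function.iterate_add_apply]
    exact (hFinj j).eq_iff
  have hYeq : {z | (⇑F)^[m] z = z} ∩ O =
      ⋃ i ∈ Finset.range m, (⇑f₀)^[i] '' ({z | (⇑F)^[m] z = z} ∩ Co e) := by
    ext z
    simp only [mem_inter_iff, mem_iUnion, Finset.mem_range, mem_image, exists_prop]
    constructor
    · rintro ⟨h2, h3⟩
      obtain ⟨i, hi, y, hy, rfl⟩ := (hOmem z).1 h3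
      obtain ⟨j, hj⟩ := iter_back hS hF hy hi
      refine ⟨i, hi, y, ⟨?_, hy⟩, rfl⟩
      have h4 := (hXF j ((⇑f₀)^[i] y)).2 h2
      rwa [hj] at h4
    · rintro ⟨i, hi, y, ⟨h2, hy⟩, rfl⟩
      obtain ⟨j, hj⟩ := iter_back hS hF hy hi
      refine ⟨(hXF j _).1 (by rw [hj]; exact h2), (hOmem _).2 ⟨i, hi, y, hy, rfl⟩⟩
  refine ⟨hbgc, {z | (⇑F)^[m] z = z} ∩ O, ?_, ?_, ?_, ?_⟩
  · rw [hYeq]
    refine (Finset.range m).finite_toSet.isClosed_biUnion fun i _ => ?_
    obtain ⟨g, hg⟩ := hhom i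
    have h2 : (⇑f₀)^[i] '' ({z | (⇑F)^[m] z = z} ∩ Co e) =
        g '' ({z | (⇑F)^[m] z = z} ∩ Co e) := by
      ext z; simp [hg]
    rw [h2]
    exact g.isClosedMap _ hD.closed
  · rw [Set.disjoint_left, hbg]
    rintro z ⟨-, h2⟩ ⟨-, h3⟩
    exact h2 h3
  · ext z
    constructor
    · intro h2
      by_cases h3 : z ∈ O
      · exact Or.inr ⟨h2, h3⟩
      · left
        rw [hbg]
        refine ⟨?_, h3⟩
        have h4 := hoff z (fun i hi y hy h5 => h3 ((hOmem z).2 ⟨i, hi, y, hy, h5⟩))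
        show (⇑f₀)^[m] z = z
        rw [← h4]
        exact h2
    · rintro (h2 | h2)
      · have h4 := hoff z h2.2
        show (⇑F)^[m] z = z
        rw [h4]
        exact h2.1
      · exact h2.1
  · rintro z ⟨h2, h3⟩
    obtain ⟨i, hi, y, hy, rfl⟩ := (hOmem z).1 h3
    obtain ⟨j, hj⟩ := iter_back hS hF hy hi
    refine ⟨j, (hXF j _).2 h2, ?_⟩
    rw [hj]
    exact hy

/-- **G1, second part.** For the order `1 + ℚ × ℤ^Ω + 1`, where `Ω` starts with the prefix `B₀` of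
the background, all points of rank `Ω` are in the kernel.

Proof. Let `x ∈ X` be accumulated by the members of the good family `R`. If `x ∈ bg`, restrict the
family to the background (`background`) and to `B₀`, apply the property of `B₀`, and
`selfAcc_background`. If `x ∈ Y`, let `j` be such that `x' = F^[j] x ∈ X ∩ Co e`; the homeomorphism
`g = F^j` maps `X` to itself (`g '' X = X`), so the images of `R` form a good family accumulating at
`x'` (`GoodFam.image`, `AccX.image`), and `self_of_radData` with `radData` and `selfR_of_isB` gives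
`D ∋ x'`; take the image of `D` under the inverse of `g` (`SelfAcc.image`). -/
theorem not_topProp [T2Space M] {δ : ℝ} (hn : 0 < n) (hS : SpotData f₀ m e) {lt : ℕ → ℕ → Prop}
    [IsStrictTotalOrder ℕ lt] (h0 : 0 < δ) (h1 : δ ≤ 1) {F : DiffInf n M}
    (hF : ∀ z, F z = f₀ (ext e (psi lt δ) z)) {B₀ : Type} {r₀ : B₀ → B₀ → Prop}
    (hB : ∀ R : B₀ → Set M, GoodFam (bg f₀ m e) r₀ R → ∀ x ∈ bg f₀ m e,
      (∀ b, AccX (bg f₀ m e) (R b) x) → ∃ D, SelfAcc (bg f₀ m e) D ∧ x ∈ D)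
    {r : B₀ ⊕ ℕ → B₀ ⊕ ℕ → Prop} [IsStrictTotalOrder (B₀ ⊕ ℕ) r] (hwf : WellFounded r)
    (hr : ∀ b b', r₀ b b' → r (Sum.inl b) (Sum.inl b')) (hlt : IsB lt r) :
    ¬ TopProp r {z | (⇑F)^[m] z = z} := by
  rintro ⟨R, hR, x, hx, hacc, hno⟩
  obtain ⟨b, t, hb, ht⟩ : ∃ b t : ℕ, (∀ i, i ≠ b → lt b i) ∧ ∀ i, i ≠ t → lt i t := by
    obtain ⟨b, t, ι, -, -, hb, ht, hall⟩ := hlt
    have hbt : lt b t := _root_.trans (hb 0 0) (ht 0 0)
    refine ⟨b, t, fun i hi => ?_, fun i hi => ?_⟩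
    · rcases hall i with h | h | ⟨q, f, h⟩
      · exact absurd h hi
      · rw [h]; exact hbt
      · rw [← h]; exact hb q f
    · rcases hall i with h | h | ⟨q, f, h⟩
      · rw [h]; exact hbt
      · exact absurd h hi
      · rw [← h]; exact ht q f
  obtain ⟨hbg, Y, hY, hdis, hXY, hYj⟩ := split_fix hn hS hb ht h0 h1 hF
  have hx' : x ∈ bg f₀ m e ∪ Y := by rw [← hXY]; exact hx
  rcases hx' with hx' | hx'
  · obtain ⟨h2, h3⟩ := background hXY hbg hY hdis hR hx' hacc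
    obtain ⟨D, hD1, hD2⟩ := hB (fun b => R (Sum.inl b) ∩ bg f₀ m e)
      (fun b y hy => ⟨(h2 (Sum.inl b) y hy).1, fun b' hb' =>
        (h2 (Sum.inl b) y hy).2 (Sum.inl b') (hr b' b hb')⟩) x hx' (fun b => h3 (Sum.inl b))
    exact hno D (selfAcc_background hXY hbg hY hdis hD1) hD2
  · obtain ⟨j, hj⟩ := hYj x hx'
    -- the homeomorphism `F^j`
    obtain ⟨g, hg⟩ : ∃ g : M ≃ₜ M, ∀ z, g z = (⇑F)^[j] z := by
      clear hj
      induction j with
      | zero => exact ⟨Homeomorph.refl M, fun z => rfl⟩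
      | succ i ih =>
        obtain ⟨g, hg⟩ := ih
        refine ⟨g.trans F.toHomeomorph, fun z => ?_⟩
        rw [Function.iterate_succ_apply', ← hg]
        rfl
    have hFinj : Function.Injective ((⇑F)^[j]) := F.injective.iterate j
    have hXF : ∀ z, g z ∈ {z | (⇑F)^[m] z = z} ↔ z ∈ {z | (⇑F)^[m] z = z} := by
      intro z
      show (⇑F)^[m] (g z) = g z ↔ (⇑F)^[m] z = z
      rw [hg, ← Function.iterate_add_apply, add_comm, Function.iterate_add_apply]
      exact hFinj.eq_iff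
    have hgX : g '' {z | (⇑F)^[m] z = z} = {z | (⇑F)^[m] z = z} := by
      ext z
      constructor
      · rintro ⟨w, hw, rfl⟩
        exact (hXF w).2 hw
      · intro hz
        refine ⟨g.symm z, (hXF _).1 ?_, g.apply_symm_apply z⟩
        rw [g.apply_symm_apply]
        exact hz
    have hR' := hR.image g
    rw [hgX] at hR'
    have hacc' : ∀ l, AccX {z | (⇑F)^[m] z = z} (g '' R l) (g x) := by
      intro l
      have h2 := AccX.image g hx (hacc l)
      rwa [hgX] at h2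
    have hgx : g x ∈ {z | (⇑F)^[m] z = z} ∩ Co e := by rw [hg]; exact hj
    obtain ⟨D, hD1, hD2⟩ := self_of_radData (radData hn hS hb ht h0 h1 hF)
      (fun R hR k hk hacc => selfR_of_isB hwf hlt R hR k hk hacc) hR' hgx hacc'
    have hD3 := hD1.image g.symm
    have hgX' : g.symm '' {z | (⇑F)^[m] z = z} = {z | (⇑F)^[m] z = z} := by
      conv_lhs => rw [← hgX]
      rw [← image_comp]
      simp
    rw [hgX'] at hD3
    exact hno _ hD3 ⟨g x, hD2, g.symm_apply_apply x⟩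

end Pool.Agent.Lib.H37C
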