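import Pool.Agent.Lib.H37C.Defs
import Pool.Agent.Lib.H37C.K4

open TopologicalSpace Set Filter Topology

namespace Pool.Agent.Lib.H37C

variable {lt : ℕ → ℕ → Prop} [IsStrictTotalOrder ℕ lt]

/-- the initial segment generated by the gaps of `B` -/
def k5_init (lt : ℕ → ℕ → Prop) {Ω : Type*} (ι : (Ω →₀ ℤ) → ℕ) (B : Set (Ω →₀ ℤ)) : Set ℕ :=
  {i | ∃ g ∈ B, i = ι g ∨ lt i (ι g)}

/-- the block of `f` -/
def k5_blk {Ω : Type*} (r : Ω → Ω → Prop) (l : Ω) (f : Ω →₀ ℤ) : Set (Ω →₀ ℤ) :=
  {g | ∀ m, ¬ r m l → g m = f m}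

theorem k5_initial {Ω : Type*} (ι : (Ω →₀ ℤ) → ℕ) (B : Set (Ω →₀ ℤ)) :
    ∀ i j, lt i j → j ∈ k5_init lt ι B → i ∈ k5_init lt ι B := by
  rintro i j hij ⟨g, hg, h | h⟩
  · exact ⟨g, hg, Or.inr (h ▸ hij)⟩
  · exact ⟨g, hg, Or.inr (_root_.trans hij h)⟩

theorem k5_mono {Ω : Type*} (ι : (Ω →₀ ℤ) → ℕ) {B B' : Set (Ω →₀ ℤ)} (h : B ⊆ B') :
    k5_init lt ι B ⊆ k5_init lt ι B' := by
  rintro i ⟨g, hg, h'⟩
  exact ⟨g, h hg, h'⟩

theorem k5_acc {Ω : Type*} {r : Ω → Ω → Prop} [IsStrictTotalOrder Ω r]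
    {ι : (Ω →₀ ℤ) → ℕ} (hι : BlockEmb lt r ι) {B : Set (Ω →₀ ℤ)} (hB : B.Nonempty) {l' : Ω}
    (h1 : ∀ g ∈ B, g + Finsupp.single l' 1 ∈ B) (h2 : ∀ g ∈ B, k5_blk r l' g ⊆ B) :
    AccR {k | ∃ g, k = pt (k5_init lt ι (k5_blk r l' g))} (pt (k5_init lt ι B)) := by
  classical
  have hself : ∀ g : Ω →₀ ℤ, g ∈ k5_blk r l' g := fun g m _ => rfl
  unfold AccR
  rw [Metric.mem_closure_iff]
  intro ε hε
  obtain ⟨F, hF, hFε⟩ := exists_finset_pt (k5_init lt ι B) hε
  -- an upper bound
  have hub : ∀ F : Finset ℕ, (↑F : Set ℕ) ⊆ k5_init lt ι B →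
      ∃ g ∈ B, ∀ i ∈ F, i = ι g ∨ lt i (ι g) := by
    intro F
    induction F using Finset.induction_on with
    | empty =>
      intro _
      obtain ⟨g, hg⟩ := hB
      exact ⟨g, hg, by simp⟩
    | insert a F ha ih =>
      intro hsub
      obtain ⟨g, hg, hgF⟩ := ih (fun i hi => hsub (by simp [Finset.mem_coe.1 hi]))
      obtain ⟨g', hg', hag'⟩ := hsub (show a ∈ ((insert a F : Finset ℕ) : Set ℕ) by simp)
      rcases trichotomous_of lt (ι g) (ι g') with h | h | h
      · refine ⟨g', hg', fun i hi => ?_⟩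
        rcases Finset.mem_insert.1 hi with rfl | hi
        · exact hag'
        · rcases hgF i hi with h3 | h3
          · rw [h3]; exact Or.inr h
          · exact Or.inr (_root_.trans h3 h)
      · refine ⟨g', hg', fun i hi => ?_⟩
        rcases Finset.mem_insert.1 hi with rfl | hi
        · exact hag'
        · rw [← h]; exact hgF i hi
      · refine ⟨g, hg, fun i hi => ?_⟩
        rcases Finset.mem_insert.1 hi with rfl | hi
        · rcases hag' with h3 | h3
          · rw [h3]; exact Or.inr h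
          · exact Or.inr (_root_.trans h3 h)
        · exact hgF i hi
  obtain ⟨g, hg, hgF⟩ := hub F hF
  have hk1 : pt (F : Set ℕ) ≤ pt (k5_init lt ι (k5_blk r l' g)) :=
    pt_mono fun i hi => ⟨g, hself g, hgF i hi⟩
  have hnot : ι (g + Finsupp.single l' 1) ∉ k5_init lt ι (k5_blk r l' g) := by
    rintro ⟨f, hf, hf'⟩
    have h3 : lt (ι f) (ι (g + Finsupp.single l' 1)) := by
      apply hι.mono
      refine ⟨l', ?_, fun m hm => ?_⟩
      · rw [hf l' (irrefl_of r l')]
        simp
      · rw [hf m (asymm_of r hm)]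
        have : m ≠ l' := by rintro rfl; exact irrefl_of r _ hm
        simp [this]
    rcases hf' with h4 | h4
    · rw [h4] at h3; exact irrefl_of lt _ h3
    · exact asymm_of lt h3 h4
  have hk2 : pt (k5_init lt ι (k5_blk r l' g)) + wt (ι (g + Finsupp.single l' 1)) ≤
      pt (k5_init lt ι B) :=
    pt_add_le (k5_mono ι (h2 g hg)) ⟨_, h1 g hg, Or.inl rfl⟩ hnot
  have hw := wt_pos (ι (g + Finsupp.single l' 1))
  refine ⟨pt (k5_init lt ι (k5_blk r l' g)), ⟨⟨g, rfl⟩, ?_⟩, ?_⟩
  · intro h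
    rw [mem_singleton_iff] at h
    linarith
  · rw [Real.dist_eq, abs_of_pos (by linarith)]
    linarith

/-- **K5.** The end points of the blocks form a good family. Let `lt` be the order `1 + ℤ^Ω + 1`
with last element `t`.

Proof. For `l ∈ Ω` and a function `f` let `I l f` be the initial segment of all indices `i` with
`i = ι g` or `lt i (ι g)` for some `g` in the block of `f` (`g m = f m` for all `m` with `¬ r m l`), and
`R l` the set of all points `pt (I l f)`. They belong to `Kset` (`pt_mem_Kset`) and to `(0,1)`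
(`b ∈ I l f`, `t ∉ I l f`, `pt_add_le`). Let `r l' l`, `k = pt (I l f)`, `ε > 0`. Choose a finite set
`F ⊆ I l f` with `pt F > k - ε` (`exists_finset_pt`) and `g` in the block of `f` such that all elements
of `F` are `≤ ι g` (finite set, maximum in the order; the block is linearly ordered). Then `k' =
pt (I l' g)` satisfies `k' ≥ pt F > k - ε`, and `k' < k`: the function `g + single l' 1` is in the
block of `f` (as `r l' l`), and `ι (g + single l' 1)` is in `I l f` but not in `I l' g`, as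
`g + single l' 1` is larger than all functions in the `l'`-block of `g` (`pt_add_le`). So
`AccR (R l') k`. The same argument (all functions in place of the block of `f`) shows that the point
`k = pt {i | i ≠ t} = lend t` is a limit of points of `R l'` for all `l'`; `0 < k < 1`. -/
theorem exists_goodR {Ω : Type*} {r : Ω → Ω → Prop} [IsStrictTotalOrder Ω r]
    {b t : ℕ} {ι : (Ω →₀ ℤ) → ℕ} (hι : BlockEmb lt r ι) (hb : ∀ f, lt b (ι f))
    (ht : ∀ f, lt (ι f) t) (hall : ∀ i, i = b ∨ i = t ∨ ∃ f, ι f = i) :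
    lend lt t ∈ Kint lt ∧ ∃ R : Ω → Set ℝ, GoodR (Kint lt) r R ∧ ∀ l, AccR (R l) (lend lt t) := by
  have htop : lend lt t = pt (k5_init lt ι univ) := by
    rw [lend_eq_pt]
    congr 1
    ext i
    constructor
    · intro hi
      rcases hall i with h | h | ⟨f, h⟩
      · exact ⟨0, mem_univ _, Or.inr (h ▸ hb 0)⟩
      · rw [h] at hi
        exact absurd hi (irrefl_of lt t)
      · exact ⟨f, mem_univ _, Or.inl h.symm⟩
    · rintro ⟨g, -, h | h⟩
      · show lt i t
        rw [h]; exact ht g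
      · exact _root_.trans h (ht g)
  have hmem : ∀ B : Set (Ω →₀ ℤ), B.Nonempty → pt (k5_init lt ι B) ∈ Kint lt := by
    rintro B ⟨g, hg⟩
    refine ⟨pt_mem_Kset (k5_initial ι B), ?_, ?_⟩
    · have h1 : wt b ≤ pt (k5_init lt ι B) := by
        rw [← k0_single b]
        refine pt_mono ?_
        rw [singleton_subset_iff]
        exact ⟨g, hg, Or.inr (hb g)⟩
      exact (wt_pos b).trans_le h1
    · have h1 : t ∉ k5_init lt ι B := by
        rintro ⟨f, -, h | h⟩
        · have := ht f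
          rw [← h] at this
          exact irrefl_of lt _ this
        · exact asymm_of lt h (ht f)
      have h2 : pt (k5_init lt ι B) + wt t ≤ pt univ := pt_add_le (subset_univ _) (mem_univ _) h1
      have h3 := pt_le_one univ
      have := wt_pos t
      linarith
  refine ⟨htop ▸ hmem univ ⟨0, mem_univ _⟩,
    fun l => {k | ∃ g, k = pt (k5_init lt ι (k5_blk r l g))}, ?_, ?_⟩
  · rintro l k ⟨f, rfl⟩
    have hf : (k5_blk r l f).Nonempty := ⟨f, fun m _ => rfl⟩
    refine ⟨hmem _ hf, fun l' hl' => ?_⟩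
    refine k5_acc hι hf ?_ ?_
    · intro g hg m hm
      have : m ≠ l' := by rintro rfl; exact hm hl'
      simp [this, hg m hm]
    · intro g hg h hh m hm
      have h3 : ¬ r m l' := fun h4 => hm (_root_.trans h4 hl')
      rw [hh m h3, hg m hm]
  · intro l
    rw [htop]
    exact k5_acc hι ⟨0, mem_univ _⟩ (fun _ _ => mem_univ _) (fun _ _ => subset_univ _)

end Pool.Agent.Lib.H37C
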