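import Pool.Agent.Lib.H37C.Defs
import Pool.Agent.Lib.H37C.K4
import Pool.Agent.Lib.H37C.K5

open TopologicalSpace Set Filter Topology

namespace Pool.Agent.Lib.H37C

variable {lt : ℕ → ℕ → Prop} [IsStrictTotalOrder ℕ lt]

/-- **K6.** For the order `1 + ℤ^Ω + 1` there is a point of rank `Ω` which does not belong to a set
without isolated points.

Proof: the point `k = lend t` and the family `R` of `exists_goodR`. Let `D ⊆ Kint` accumulate at each
of its points, `k ∈ D`. The constant family `D` is good (in `Kset`), so by `not_sep_of_goodR` no point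
of `D` separates the set `range ι`: for each `x ∈ D` all `ι f` are to the left of `x` or all `ι f`
are to the right. The gap `b` is to the left of `x` (`x > 0 = lend b`, `x ∈ Kset`), the gap `t` to
the right (`x < 1 = lend t + wt t`). So `below lt x` is `{b}` or everything except `t`, and by
`pt_below` (`K1`) the set `D` has at most two points. A finite set does not accumulate at the point
`k`. -/
theorem topR_of_isA {Ω : Type*} {r : Ω → Ω → Prop} [IsStrictTotalOrder Ω r]
    (hwf : WellFounded r) (h : IsA lt r) :
    ∃ k ∈ Kint lt, (∃ R : Ω → Set ℝ, GoodR (Kint lt) r R ∧ ∀ l, AccR (R l) k) ∧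
      ∀ D, SelfR (Kint lt) D → k ∉ D := by
  classical
  obtain ⟨b, t, ι, hι, hb, ht, hall⟩ := h
  obtain ⟨hk, R, hR, hacc⟩ := exists_goodR hι hb ht hall
  refine ⟨lend lt t, hk, ⟨R, hR, hacc⟩, fun D hD hkD => ?_⟩
  have hDK : D ⊆ Kset lt := fun x hx => (hD.1 hx).1
  have hgood : GoodR (Kset lt) r (fun _ : Ω => D) := fun _ x hx =>
    ⟨hDK hx, fun _ _ => hD.2 x hx⟩
  have hbt : lt b t := _root_.trans (hb 0) (ht 0)
  have hlb : lend lt b = 0 := by
    rw [lend_eq_pt]
    have : {j | lt j b} = ∅ := by
      ext j
      simp only [mem_setOf_eq, mem_empty_iff_false, iff_false]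
      intro hj
      rcases hall j with h | h | ⟨f, h⟩
      · rw [h] at hj; exact irrefl_of lt _ hj
      · rw [h] at hj; exact asymm_of lt hj hbt
      · rw [← h] at hj; exact asymm_of lt hj (hb f)
    rw [this]
    simp [pt]
  have hlt : lend lt t + wt t = 1 := by
    rw [lend_add]
    have : {j | j = t ∨ lt j t} = univ := by
      ext j
      simp only [mem_setOf_eq, mem_univ, iff_true]
      rcases hall j with h | h | ⟨f, h⟩
      · right; rw [h]; exact hbt
      · left; exact h
      · right; rw [← h]; exact ht f
    rw [this]
    have := pt_compl univ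
    simpa [pt] using this
  -- the points of `D` are determined by one bit
  have hbit : ∀ x ∈ D, x = pt {b} ∨ x = pt {j | j ≠ t} := by
    intro x hx
    have hns := not_sep_of_goodR hwf hι hgood (hDK hx) (fun _ => hD.2 x hx)
    have hxb : b ∈ below lt x := by
      rcases (hDK hx).2.2 b with h | h
      · rw [hlb] at h
        exact absurd (hD.1 hx).2.1 (not_lt.2 h)
      · exact h
    have hxt : t ∉ below lt x := by
      intro h
      have h1 : lend lt t + wt t ≤ x := h
      rw [hlt] at h1
      exact absurd (hD.1 hx).2.2 (not_lt.2 h1)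
    by_cases hf : ∃ f, ι f ∈ below lt x
    · right
      obtain ⟨f, hf⟩ := hf
      rw [← pt_below (hDK hx)]
      congr 1
      ext j
      constructor
      · rintro hj rfl
        exact hxt hj
      · intro hj
        rcases hall j with h | h | ⟨g, h⟩
        · rw [h]; exact hxb
        · exact absurd h hj
        · rw [← h]
          rcases (hDK hx).2.2 (ι g) with h1 | h1
          · exact absurd ⟨ι f, ⟨f, rfl⟩, ι g, ⟨g, rfl⟩, hf, h1⟩ hns
          · exact h1
    · left
      push Not at hf
      rw [← pt_below (hDK hx)]
      congr 1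
      ext j
      constructor
      · intro hj
        rcases hall j with h | h | ⟨g, h⟩
        · exact h
        · rw [h] at hj; exact absurd hj hxt
        · rw [← h] at hj; exact absurd hj (hf g)
      · rintro rfl
        exact hxb
  have hfin : (D \ {lend lt t}).Finite := by
    refine Set.Finite.subset (Set.toFinite {pt {b}, pt {j | j ≠ t}}) ?_
    rintro x ⟨hx, -⟩
    exact hbit x hx
  have h1 := hD.2 _ hkD
  unfold AccR at h1
  rw [hfin.isClosed.closure_eq] at h1
  exact h1.2 rfl

end Pool.Agent.Lib.H37C
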