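import Pool.Agent.Lib.H37C.Defs
import Pool.Agent.Lib.Helper44.MarkedGroups.DST

open TopologicalSpace Set Filter Topology MeasureTheory
open scoped Manifold ContDiff
open Pool.Agent.Lib.Helper37.ConjBorel

namespace Pool.Agent.Lib.H37C

theorem t4_bool : PolishSpace Bool := by
  have h : IsClosedEmbedding (fun b : Bool => b.toNat) := by
    refine IsClosedEmbedding.of_continuous_injective_isClosedMap continuous_of_discreteTopology ?_ ?_
    · intro a b h
      cases a <;> cases b <;> simp_all
    · intro s _
      exact isClosed_discrete _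
  exact h.polishSpace

/-- **T4.** There is an analytic subset of `2^ℕ` which is not Borel.

Proof: `Pool.Agent.S14935Aux.exists_measurable_nonmeasurable_proj` gives a Borel set `C` of
`2^ℕ × ℕ^ℕ` whose projection `{x | ∃ y, (x, y) ∈ C} = Prod.fst '' C` is not Borel; it is analytic
(`MeasurableSet.analyticSet`, `AnalyticSet.image_of_continuous`). -/
theorem exists_analytic_nonborel : ∃ A : Set (ℕ → Bool), AnalyticSet A ∧ ¬ MeasurableSet A := by
  have hB : PolishSpace Bool := t4_bool
  obtain ⟨C, hC, hn⟩ := Pool.Agent.S14935Aux.exists_measurable_nonmeasurable_proj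
  refine ⟨{x : ℕ → Bool | ∃ y, (x, y) ∈ C}, ?_, hn⟩
  have e : {x : ℕ → Bool | ∃ y, (x, y) ∈ C} = Prod.fst '' C := by
    ext x
    constructor
    · rintro ⟨y, hy⟩
      exact ⟨(x, y), hy, rfl⟩
    · rintro ⟨⟨x', y⟩, hy, rfl⟩
      exact ⟨y, hy⟩
  rw [e]
  exact hC.analyticSet.image_of_continuous continuous_fst

/-- **T4, second part.** Topological conjugacy is an analytic relation on every open set.

Proof. See `main_theorem` in `Pool.Agent.Lib.Helper37.ConjBorel.Proof` for the Polish spaces:
`polishSpace_diffInf`, `homeo_polishSpace` (the group `M ≃ₜ M` with `homeoTopology` as a local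
instance). The set is the image, under the projection to the last two factors, of the closed subset
`{(h, f, g) | h ∘ f = g ∘ h}` of the Polish space `(M ≃ₜ M) × U × U` (the evaluation maps are
continuous; `U` is open in a Polish space, hence Polish: `IsOpen.polishSpace`). Use
`IsClosed.analyticSet` and `AnalyticSet.image_of_continuous`. -/
theorem analyticSet_topConj {n : ℕ} {M : Type*} [TopologicalSpace M] [T2Space M] [CompactSpace M]
    [ChartedSpace (Euc n) M] [IsManifold (𝓡 n) ∞ M] (U : Set (DiffInf n M)) (hU : IsOpen U) :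
    AnalyticSet {p : U × U | TopConj (p.1 : DiffInf n M) (p.2 : DiffInf n M)} := by
  have hX : PolishSpace (DiffInf n M) := polishSpace_diffInf
  have hMsc : SecondCountableTopology M := by
    obtain ⟨ι, hι, ⟨A⟩⟩ := exists_goodCover (n := n) (M := M)
    exact A.emb.isEmbedding.secondCountableTopology
  let _ : TopologicalSpace (M ≃ₜ M) := homeoTopology M
  have hG : PolishSpace (M ≃ₜ M) := homeo_polishSpace
  have hU' : PolishSpace U := hU.polishSpace
  have hcl : IsClosed {q : (M ≃ₜ M) × (U × U) |
      ∀ x, q.1 ((q.2.1 : DiffInf n M) x) = (q.2.2 : DiffInf n M) (q.1 x)} := by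
    have e : {q : (M ≃ₜ M) × (U × U) |
        ∀ x, q.1 ((q.2.1 : DiffInf n M) x) = (q.2.2 : DiffInf n M) (q.1 x)} =
        ⋂ x : M, {q : (M ≃ₜ M) × (U × U) |
          q.1 ((q.2.1 : DiffInf n M) x) = (q.2.2 : DiffInf n M) (q.1 x)} := by
      ext q
      rw [mem_iInter]
      rfl
    rw [e]
    refine isClosed_iInter fun x => ?_
    have h1 : Continuous fun q : (M ≃ₜ M) × (U × U) => (q.1 : C(M, M)) :=
      continuous_homeo_fst.comp continuous_fst
    have h2 : Continuous fun q : (M ≃ₜ M) × (U × U) => toCM (q.2.1 : DiffInf n M) :=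
      continuous_toCM.comp (continuous_subtype_val.comp (continuous_fst.comp continuous_snd))
    have h3 : Continuous fun q : (M ≃ₜ M) × (U × U) => toCM (q.2.2 : DiffInf n M) :=
      continuous_toCM.comp (continuous_subtype_val.comp (continuous_snd.comp continuous_snd))
    have h4 : Continuous fun q : (M ≃ₜ M) × (U × U) => (q.1 : C(M, M)) (toCM (q.2.1 : DiffInf n M) x) :=
      h1.eval (h2.eval continuous_const)
    have h5 : Continuous fun q : (M ≃ₜ M) × (U × U) => toCM (q.2.2 : DiffInf n M) ((q.1 : C(M, M)) x) :=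
      h3.eval (h1.eval continuous_const)
    exact isClosed_eq h4 h5
  have himg : {p : U × U | TopConj (p.1 : DiffInf n M) (p.2 : DiffInf n M)} =
      Prod.snd '' {q : (M ≃ₜ M) × (U × U) |
        ∀ x, q.1 ((q.2.1 : DiffInf n M) x) = (q.2.2 : DiffInf n M) (q.1 x)} := by
    ext p
    constructor
    · rintro ⟨h, hh⟩
      exact ⟨(h, p), hh, rfl⟩
    · rintro ⟨⟨h, p'⟩, hh, rfl⟩
      exact ⟨h, hh⟩
  rw [himg]
  exact hcl.analyticSet.image_of_continuous continuous_snd

end Pool.Agent.Lib.H37C
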