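import Pool.Agent.Lib.H37C.TDefs

open TopologicalSpace Set Filter Topology MeasureTheory

namespace Pool.Agent.Lib.H37C

theorem t2b_pre_len (y : ℕ → ℕ) (k : ℕ) : (pre y k).length = k := by
  simp [pre]

theorem t2b_pre_prefix (y : ℕ → ℕ) (s t : List ℕ) (hs : pre y s.length = s) (ht : t <+: s) :
    pre y t.length = t := by
  have h1 : t = s.take t.length := List.prefix_iff_eq_take.1 ht
  have h2 : t.length ≤ s.length := ht.length_le
  have h3 : pre y t.length = (pre y s.length).take t.length := by
    unfold pre
    rw [← List.map_take, List.take_range, min_eq_left h2]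
  rw [h3, hs]
  exact h1.symm

theorem t2b_pre_get (y y' : ℕ → ℕ) (k : ℕ) (h : pre y k = pre y' k) : ∀ i < k, y i = y' i := by
  intro i hi
  have h1 := congrArg (fun l : List ℕ => l[i]?) h
  unfold pre at h1
  simpa [List.getElem?_map, List.getElem?_range hi] using h1

/-- **T2B.** Every analytic set of `2^ℕ` is the set of all `x` such that the tree `T x` has an
infinite branch, for a family of trees depending continuously on `x`.

Proof. If `A = ∅`, take `T x = ∅`. Otherwise `A = range g` with `g : (ℕ → ℕ) → (ℕ → Bool)`
continuous (definition of `AnalyticSet`). Put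
`T x = {s | ∃ y : ℕ → ℕ, pre y s.length = s ∧ ∀ i < s.length, g y i = x i}`.
Tree: the same `y` works for the initial segments. Clopen: `s ∈ T x` depends only on the
coordinates `x i`, `i < s.length`, so the set is a union of finitely many (or: an open set with open
complement) cylinders; e.g. it is the preimage of a subset of the discrete space
`Fin s.length → Bool` under a continuous map. If `x = g y`, then `pre y k ∈ T x` for all `k`.
Conversely let `y` be a branch of `T x`: for each `k` there is `y k` with `pre (y k) k = pre y k` and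
`g (y k) i = x i` for `i < k`. Then `y k → y` (`tendsto_pi_nhds`, discrete coordinates), so
`g (y k) → g y`, and also `g (y k) → x`. Hence `g y = x ∈ A`. -/
theorem exists_trees (A : Set (ℕ → Bool)) (hA : AnalyticSet A) :
    ∃ T : (ℕ → Bool) → Set (List ℕ), (∀ x, IsTree (T x)) ∧ (∀ s, IsClopen {x | s ∈ T x}) ∧
      ∀ x, x ∈ A ↔ HasBranch (T x) := by
  rw [AnalyticSet] at hA
  rcases hA with rfl | ⟨g, hg, rfl⟩
  · refine ⟨fun _ => ∅, fun x s hs => absurd hs (by simp), fun s => by simpa using isClopen_empty,
      fun x => ?_⟩
    constructor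
    · intro h; exact absurd h (by simp)
    · rintro ⟨y, hy⟩; exact absurd (hy 0) (by simp)
  · refine ⟨fun x => {s | ∃ y : ℕ → ℕ, pre y s.length = s ∧ ∀ i < s.length, g y i = x i},
      ?_, ?_, ?_⟩
    · rintro x s ⟨y, hy, hyx⟩ t ht
      exact ⟨y, t2b_pre_prefix y s t hy ht, fun i hi => hyx i (lt_of_lt_of_le hi ht.length_le)⟩
    · intro s
      have e : {x : ℕ → Bool | s ∈ {s | ∃ y : ℕ → ℕ, pre y s.length = s ∧
          ∀ i < s.length, g y i = x i}} =
          (fun (x : ℕ → Bool) (i : Fin s.length) => x i) ⁻¹'
            {u | ∃ y : ℕ → ℕ, pre y s.length = s ∧ ∀ i : Fin s.length, g y i = u i} := by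
        ext x
        constructor
        · rintro ⟨y, hy, hyx⟩
          exact ⟨y, hy, fun i => hyx i i.2⟩
        · rintro ⟨y, hy, hyx⟩
          exact ⟨y, hy, fun i hi => hyx ⟨i, hi⟩⟩
      rw [e]
      exact (isClopen_discrete _).preimage (by fun_prop)
    · intro x
      constructor
      · rintro ⟨y, rfl⟩
        refine ⟨y, fun k => ⟨y, ?_, fun i _ => rfl⟩⟩
        rw [t2b_pre_len]
      · rintro ⟨y, hy⟩
        choose z hz hzx using hy
        simp only [t2b_pre_len] at hz hzx
        refine ⟨y, ?_⟩
        have hlim : Tendsto z atTop (𝓝 y) := by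
          rw [tendsto_pi_nhds]
          intro i
          apply tendsto_const_nhds.congr'
          filter_upwards [eventually_gt_atTop i] with k hk
          exact (t2b_pre_get _ _ k (hz k) i hk).symm
        have h1 := (hg.tendsto y).comp hlim
        funext i
        have h2 : Tendsto (fun k => g (z k) i) atTop (𝓝 (g y i)) :=
          (tendsto_pi_nhds.1 h1) i
        have h3 : Tendsto (fun k => g (z k) i) atTop (𝓝 (x i)) := by
          apply tendsto_const_nhds.congr'
          filter_upwards [eventually_gt_atTop i] with k hk
          exact (hzx k i hk).symm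
        exact tendsto_nhds_unique h2 h3

end Pool.Agent.Lib.H37C
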