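import Pool.Agent.Lib.H37C.T2
import Pool.Agent.Lib.H37C.T2B

open TopologicalSpace Set Filter Topology MeasureTheory

namespace Pool.Agent.Lib.H37C

/-- **T3.** Every analytic subset of `2^ℕ` is the set of all `x` for which the linear order `lt x`
on `ℕ` is ill-founded, for a family of linear orders depending continuously on `x`.

Proof: take the family of trees `T x` of `exists_trees` and transport the order `TOrd (T x)` of
`List ℕ` to `ℕ` by the bijection `Denumerable.eqv (List ℕ)`: `lt x i j = TOrd (T x) (a i) (a j)` with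
`a = (Denumerable.eqv (List ℕ)).symm`. Use `tord_sto`, `tord_wf`, `tord_clopen`; the order is
isomorphic to `TOrd (T x)` (`Order.Preimage`, `RelIso`), so well-founded at the same time. -/
theorem exists_LO (A : Set (ℕ → Bool)) (hA : AnalyticSet A) :
    ∃ lt : (ℕ → Bool) → ℕ → ℕ → Prop, (∀ x, IsStrictTotalOrder ℕ (lt x)) ∧
      (∀ i j, IsClopen {x | lt x i j}) ∧ ∀ x, x ∈ A ↔ ¬ WellFounded (lt x) := by
  obtain ⟨T, hT1, hT2, hT3⟩ := exists_trees A hA
  let a : ℕ ≃ List ℕ := (Denumerable.eqv (List ℕ)).symm
  refine ⟨fun x i j => TOrd (T x) (a i) (a j), ?_, ?_, ?_⟩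
  · intro x
    have := tord_sto (T x)
    exact (RelIso.preimage a (TOrd (T x))).toRelEmbedding.isStrictTotalOrder
  · intro i j
    exact tord_clopen T hT2 (a i) (a j)
  · intro x
    rw [hT3, ← tord_wf (T x) (hT1 x), not_iff_not]
    constructor
    · intro h
      exact (RelIso.preimage a (TOrd (T x))).toRelEmbedding.wellFounded h
    · intro h
      exact (RelIso.preimage a (TOrd (T x))).symm.toRelEmbedding.wellFounded h

end Pool.Agent.Lib.H37C
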