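import Pool.Agent.Lib.H37C.Defs
import Pool.Agent.Lib.H37C.Z1

open TopologicalSpace Set Filter Topology

namespace Pool.Agent.Lib.H37C

/-- **Z2.** If `P` is an initial segment of `Ω`, then `ℤ^Ω` is the lexicographic product of
`ℤ^(Ω \ P)` (more significant) and `ℤ^P`.

Proof: the bijection `f ↦ (f restricted to the complement of P, f restricted to P)`
(`Finsupp.subtypeDomain`, or `Finsupp.sumFinsuppEquivProdFinsupp` and `Equiv.sumCompl`). If `f` and
`g` differ somewhere outside `P`, the largest difference is outside `P`, as `P` is an initial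
segment; otherwise the restrictions to the complement agree and the largest difference is in `P`. -/
theorem nlt_split {Ω : Type*} (r : Ω → Ω → Prop) [IsStrictTotalOrder Ω r] (P : Set Ω)
    (hP : ∀ a b, r a b → b ∈ P → a ∈ P) :
    Nonempty (NLt r ≃r Prod.Lex (NLt (fun a b : {m // m ∉ P} => r a b))
      (NLt (fun a b : {m // m ∈ P} => r a b))) := by
  classical
  let φ : (Ω →₀ ℤ) → ({m // m ∉ P} →₀ ℤ) × ({m // m ∈ P} →₀ ℤ) := fun f =>
    (f.subtypeDomain (fun m => m ∉ P), f.subtypeDomain (fun m => m ∈ P))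
  have hbij : Function.Bijective φ := by
    constructor
    · intro f g h
      have h1 : f.subtypeDomain (fun m => m ∉ P) = g.subtypeDomain (fun m => m ∉ P) :=
        congrArg Prod.fst h
      have h2 : f.subtypeDomain (fun m => m ∈ P) = g.subtypeDomain (fun m => m ∈ P) :=
        congrArg Prod.snd h
      ext m
      by_cases hm : m ∈ P
      · exact DFunLike.congr_fun h2 ⟨m, hm⟩
      · exact DFunLike.congr_fun h1 ⟨m, hm⟩
    · rintro ⟨a, b⟩
      refine ⟨a.mapDomain Subtype.val + b.mapDomain Subtype.val, ?_⟩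
      refine Prod.ext ?_ ?_
      · ext ⟨m, hm⟩
        show (a.mapDomain Subtype.val + b.mapDomain Subtype.val : Ω →₀ ℤ) m = a ⟨m, hm⟩
        rw [Finsupp.add_apply]
        have h1 : (a.mapDomain Subtype.val : Ω →₀ ℤ) m = a ⟨m, hm⟩ :=
          Finsupp.mapDomain_apply Subtype.val_injective a ⟨m, hm⟩
        have h2 : (b.mapDomain Subtype.val : Ω →₀ ℤ) m = 0 :=
          Finsupp.mapDomain_notin_range _ _ (by
            rintro ⟨x, hx⟩
            exact hm (hx ▸ x.2))
        rw [h1, h2, add_zero]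
      · ext ⟨m, hm⟩
        show (a.mapDomain Subtype.val + b.mapDomain Subtype.val : Ω →₀ ℤ) m = b ⟨m, hm⟩
        rw [Finsupp.add_apply]
        have h1 : (b.mapDomain Subtype.val : Ω →₀ ℤ) m = b ⟨m, hm⟩ :=
          Finsupp.mapDomain_apply Subtype.val_injective b ⟨m, hm⟩
        have h2 : (a.mapDomain Subtype.val : Ω →₀ ℤ) m = 0 :=
          Finsupp.mapDomain_notin_range _ _ (by
            rintro ⟨x, hx⟩
            exact x.2 (hx ▸ hm))
        rw [h1, h2, zero_add]
  refine ⟨⟨Equiv.ofBijective φ hbij, ?_⟩⟩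
  intro f g
  rw [Equiv.ofBijective_apply, Equiv.ofBijective_apply, Prod.lex_def]
  show NLt _ (f.subtypeDomain _) (g.subtypeDomain _) ∨ (f.subtypeDomain (fun m => m ∉ P) =
    g.subtypeDomain (fun m => m ∉ P) ∧ NLt _ (f.subtypeDomain _) (g.subtypeDomain _)) ↔ _
  constructor
  · rintro (⟨⟨j, hj⟩, h1, h2⟩ | ⟨h0, ⟨j, hj⟩, h1, h2⟩)
    · refine ⟨j, h1, fun k hk => ?_⟩
      by_cases hkP : k ∈ P
      · exact absurd (hP j k hk hkP) hj
      · exact h2 ⟨k, hkP⟩ hk
    · refine ⟨j, h1, fun k hk => ?_⟩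
      by_cases hkP : k ∈ P
      · exact h2 ⟨k, hkP⟩ hk
      · exact DFunLike.congr_fun h0 ⟨k, hkP⟩
  · rintro ⟨j, h1, h2⟩
    by_cases hj : j ∈ P
    · right
      refine ⟨?_, ⟨⟨j, hj⟩, h1, fun k hk => h2 k hk⟩⟩
      ext ⟨m, hm⟩
      show f m = g m
      apply h2
      rcases trichotomous_of r m j with h | h | h
      · exact absurd (hP m j h hj) hm
      · rw [h] at hm; exact absurd hj hm
      · exact h
    · left
      exact ⟨⟨j, hj⟩, h1, fun k hk => h2 k hk⟩

end Pool.Agent.Lib.H37C
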