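import Pool.Agent.Lib.H37C.Defs
import Pool.Agent.Lib.H37C.Z1

open TopologicalSpace Set Filter Topology

namespace Pool.Agent.Lib.H37C

/-- **Z3.** If `Ω` is countable, nonempty and has no smallest element, then `ℤ^Ω` is a countable
dense linear order without end points, so isomorphic to `ℚ` (Cantor).

Proof: `NLt r` is a strict total order (`nlt_sto`), countable. No end points: for `f` and any `j`,
`f - single j 1 < f < f + single j 1`. Dense: if `f < g` with largest difference `j`, take `j'` with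
`r j' j` and `h = f + single j' 1`: `f < h` (largest difference `j'`) and `h < g` (the values at `j`
and above are those of `f`; `h j = f j < g j`). Use `linearOrderOfSTO` and
`Order.iso_of_countable_dense`. -/
theorem nlt_cantor {Ω : Type*} [Countable Ω] [Nonempty Ω] (r : Ω → Ω → Prop)
    [IsStrictTotalOrder Ω r] (h : ∀ m, ∃ m', r m' m) :
    Nonempty (NLt r ≃r ((· < ·) : ℚ → ℚ → Prop)) := by
  classical
  have hsto := nlt_sto r
  let L : LinearOrder (Ω →₀ ℤ) := linearOrderOfSTO (NLt r)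
  have hadd : ∀ (f : Ω →₀ ℤ) j, NLt r f (f + Finsupp.single j 1) := by
    intro f j
    refine ⟨j, by simp, fun k hk => ?_⟩
    have : k ≠ j := by rintro rfl; exact irrefl_of r _ hk
    simp [this]
  have hsub : ∀ (f : Ω →₀ ℤ) j, NLt r (f - Finsupp.single j 1) f := by
    intro f j
    refine ⟨j, by simp, fun k hk => ?_⟩
    have : k ≠ j := by rintro rfl; exact irrefl_of r _ hk
    simp [this]
  have j₀ : Ω := Classical.arbitrary Ω
  have hD : @DenselyOrdered (Ω →₀ ℤ) L.toLT := by
    refine @DenselyOrdered.mk _ L.toLT ?_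
    intro f g hfg
    obtain ⟨j, hj, hj'⟩ : NLt r f g := hfg
    obtain ⟨j', hj'j⟩ := h j
    refine ⟨f + Finsupp.single j' 1, hadd f j', ?_⟩
    show NLt r (f + Finsupp.single j' 1) g
    have hne : ∀ k, (k = j ∨ r j k) → k ≠ j' := by
      rintro k (rfl | hk) rfl
      · exact irrefl_of r _ hj'j
      · exact asymm_of r hk hj'j
    refine ⟨j, ?_, fun k hk => ?_⟩
    · simpa [hne j (Or.inl rfl)] using hj
    · simpa [hne k (Or.inr hk)] using hj' k hk
  have hmax : @NoMaxOrder (Ω →₀ ℤ) L.toLT := @NoMaxOrder.mk _ L.toLT fun f => ⟨_, hadd f j₀⟩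
  have hmin : @NoMinOrder (Ω →₀ ℤ) L.toLT := @NoMinOrder.mk _ L.toLT fun f => ⟨_, hsub f j₀⟩
  have hc : Countable (Ω →₀ ℤ) := inferInstance
  obtain ⟨φ⟩ := @Order.iso_of_countable_dense (Ω →₀ ℤ) ℚ L _ _ hD hmin hmax ⟨0⟩ _ _ _ _ _
  exact ⟨⟨φ.toEquiv, fun {f g} => @OrderIso.lt_iff_lt _ _ L.toPreorder _ φ f g⟩⟩

end Pool.Agent.Lib.H37C
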