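import Pool.Agent.Lib.H37C.Defs
import Pool.Agent.Lib.H37C.Z2
import Pool.Agent.Lib.H37C.Z3

open TopologicalSpace Set Filter Topology

namespace Pool.Agent.Lib.H37C

/-- **Z4.** The lexicographic square of `ℚ` is isomorphic to `ℚ` (Cantor:
`Order.iso_of_countable_dense` for `ℚ ×ₗ ℚ`). -/
theorem lex_rat : Nonempty (Prod.Lex ((· < ·) : ℚ → ℚ → Prop) ((· < ·) : ℚ → ℚ → Prop) ≃r
    ((· < ·) : ℚ → ℚ → Prop)) := by
  have hc : Countable (ℚ ×ₗ ℚ) := inferInstanceAs (Countable (ℚ × ℚ))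
  have hne : Nonempty (ℚ ×ₗ ℚ) := ⟨toLex (0, 0)⟩
  obtain ⟨φ⟩ := Order.iso_of_countable_dense (ℚ ×ₗ ℚ) ℚ
  refine ⟨⟨toLex.trans φ.toEquiv, fun {a b} => ?_⟩⟩
  exact φ.lt_iff_lt (x := toLex a) (y := toLex b)

/-- associativity of lexicographic products -/
theorem z4_assoc {α β γ : Type*} (r : α → α → Prop) (s : β → β → Prop) (t : γ → γ → Prop) :
    Nonempty (Prod.Lex r (Prod.Lex s t) ≃r Prod.Lex (Prod.Lex r s) t) := by
  refine ⟨⟨(Equiv.prodAssoc α β γ).symm, ?_⟩⟩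
  rintro ⟨a, b, c⟩ ⟨a', b', c'⟩
  simp only [Equiv.prodAssoc_symm_apply, Prod.lex_def, Prod.mk.injEq]
  tauto

/-- **Z4, second part.** If the strict total order `r` on the countable set `Ω` is not well-founded,
then `ℤ^Ω ≅ ℚ × ℤ^Ω`.

Proof: let `P = {m | Acc r m}` (well-founded part), an initial segment. Its complement is nonempty
and has no smallest element (if all `m'` with `r m' m` are accessible, so is `m`). By `nlt_split` and
`nlt_cantor` (for the complement of `P`), `ℤ^Ω ≅ ℤ^(Ω \ P) × ℤ^P ≅ ℚ × ℤ^P` (`RelIso.prodLexCongr`),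
and `ℚ × ℤ^Ω ≅ ℚ × (ℚ × ℤ^P) ≅ (ℚ × ℚ) × ℤ^P ≅ ℚ × ℤ^P` by `lex_rat`. -/
theorem nlt_illfounded {Ω : Type*} [Countable Ω] (r : Ω → Ω → Prop) [IsStrictTotalOrder Ω r]
    (h : ¬ WellFounded r) :
    Nonempty (NLt r ≃r Prod.Lex ((· < ·) : ℚ → ℚ → Prop) (NLt r)) := by
  let P : Set Ω := {m | Acc r m}
  have hP : ∀ a b, r a b → b ∈ P → a ∈ P := fun a b hab hb => hb.inv hab
  obtain ⟨e₁⟩ := nlt_split r P hP
  have hne : Nonempty {m // m ∉ P} := by
    by_contra h1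
    rw [not_nonempty_iff, isEmpty_subtype] at h1
    exact h ⟨fun a => by simpa [P] using h1 a⟩
  have hno : ∀ m : {m // m ∉ P}, ∃ m' : {m // m ∉ P}, r m' m := by
    rintro ⟨m, hm⟩
    by_contra h1
    push Not at h1
    apply hm
    refine ⟨_, fun y hy => ?_⟩
    by_contra h2
    exact h1 ⟨y, h2⟩ hy
  have hs : IsStrictTotalOrder {m // m ∉ P} (fun a b : {m // m ∉ P} => r a b) :=
    { trichotomous := fun a b h1 h2 => Subtype.ext (by
        rcases trichotomous_of r (a : Ω) b with h3 | h3 | h3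
        · exact absurd h3 h1
        · exact h3
        · exact absurd h3 h2)
      irrefl := fun a => irrefl_of r (a : Ω)
      trans := fun a b c h1 h2 => _root_.trans h1 h2 }
  obtain ⟨e₂⟩ := nlt_cantor (fun a b : {m // m ∉ P} => r a b) hno
  obtain ⟨e₃⟩ := lex_rat
  let t := NLt (fun a b : {m // m ∈ P} => r a b)
  have f₁ : NLt r ≃r Prod.Lex ((· < ·) : ℚ → ℚ → Prop) t :=
    e₁.trans (RelIso.prodLexCongr e₂ (RelIso.refl t))
  obtain ⟨a⟩ := z4_assoc ((· < ·) : ℚ → ℚ → Prop) ((· < ·) : ℚ → ℚ → Prop) t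
  have f₂ : Prod.Lex ((· < ·) : ℚ → ℚ → Prop) (NLt r) ≃r Prod.Lex ((· < ·) : ℚ → ℚ → Prop) t :=
    ((RelIso.prodLexCongr (RelIso.refl _) f₁).trans a).trans
      (RelIso.prodLexCongr e₃ (RelIso.refl t))
  exact ⟨f₁.trans f₂.symm⟩

end Pool.Agent.Lib.H37C
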