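import Pool.Agent.Lib.H37C.Defs
import Pool.Agent.Lib.H37C.Z1
import Pool.Agent.Lib.H37C.Z4

open TopologicalSpace Set Filter Topology

namespace Pool.Agent.Lib.H37C

/-- the order `1 + s + 1` -/
def z5_cap {α : Type*} (s : α → α → Prop) : Unit ⊕ (α ⊕ Unit) → Unit ⊕ (α ⊕ Unit) → Prop :=
  Sum.Lex (fun _ _ => False) (Sum.Lex s (fun _ _ => False))

theorem z5_cap_sto {α : Type*} (s : α → α → Prop) [IsStrictTotalOrder α s] :
    IsStrictTotalOrder (Unit ⊕ (α ⊕ Unit)) (z5_cap s) := by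
  refine { trichotomous := ?_, irrefl := ?_, trans := ?_ }
  · rintro (⟨⟩ | a | ⟨⟩) (⟨⟩ | b | ⟨⟩) h1 h2 <;> simp [z5_cap] at h1 h2 ⊢
    rcases trichotomous_of s a b with h3 | h3 | h3
    · exact absurd h3 h1
    · exact h3
    · exact absurd h3 h2
  · rintro (⟨⟩ | a | ⟨⟩) h <;> simp [z5_cap] at h
    exact irrefl_of s _ h
  · rintro (⟨⟩ | a | ⟨⟩) (⟨⟩ | b | ⟨⟩) (⟨⟩ | c | ⟨⟩) h1 h2 <;> simp [z5_cap] at h1 h2 ⊢
    exact _root_.trans h1 h2

theorem z5_prod_sto {α β : Type*} (s : α → α → Prop) (t : β → β → Prop)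
    [IsStrictTotalOrder α s] [IsStrictTotalOrder β t] :
    IsStrictTotalOrder (α × β) (Prod.Lex s t) := by
  refine { trichotomous := ?_, irrefl := ?_, trans := ?_ }
  · rintro ⟨a, b⟩ ⟨a', b'⟩ h1 h2
    rw [Prod.lex_def] at h1 h2
    rcases trichotomous_of s a a' with h3 | h3 | h3
    · exact absurd (Or.inl h3) h1
    · subst h3
      rcases trichotomous_of t b b' with h4 | h4 | h4
      · exact absurd (Or.inr ⟨rfl, h4⟩) h1
      · rw [h4]
      · exact absurd (Or.inr ⟨rfl, h4⟩) h2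
    · exact absurd (Or.inl h3) h2
  · rintro ⟨a, b⟩ h
    rw [Prod.lex_def] at h
    rcases h with h | ⟨-, h⟩
    · exact irrefl_of s _ h
    · exact irrefl_of t _ h
  · rintro ⟨a, b⟩ ⟨a', b'⟩ ⟨a'', b''⟩ h1 h2
    rw [Prod.lex_def] at h1 h2 ⊢
    simp only at h1 h2 ⊢
    rcases h1 with h1 | ⟨rfl, h1⟩
    · rcases h2 with h2 | ⟨rfl, h2⟩
      · exact Or.inl (_root_.trans h1 h2)
      · exact Or.inl h1
    · rcases h2 with h2 | ⟨rfl, h2⟩
      · exact Or.inl h2
      · exact Or.inr ⟨rfl, _root_.trans h1 h2⟩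

/-- transport of the order `1 + s + 1` to `ℕ` -/
def z5_lt {α : Type*} (e : Unit ⊕ (α ⊕ Unit) ≃ ℕ) (s : α → α → Prop) (i j : ℕ) : Prop :=
  z5_cap s (e.symm i) (e.symm j)

/-- the isomorphism -/
def z5_iso {α : Type*} (e : Unit ⊕ (α ⊕ Unit) ≃ ℕ) (s : α → α → Prop) :
    z5_lt e s ≃r z5_cap s :=
  ⟨e.symm, Iff.rfl⟩

theorem z5_lt_sto {α : Type*} (e : Unit ⊕ (α ⊕ Unit) ≃ ℕ) (s : α → α → Prop)
    [IsStrictTotalOrder α s] : IsStrictTotalOrder ℕ (z5_lt e s) := by
  have := z5_cap_sto s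
  exact (z5_iso e s).toRelEmbedding.isStrictTotalOrder

theorem z5_clopen {X α : Type*} [TopologicalSpace X] (e : Unit ⊕ (α ⊕ Unit) ≃ ℕ)
    (s : X → α → α → Prop) (hs : ∀ a b, IsClopen {x | s x a b}) (i j : ℕ) :
    IsClopen {x | z5_lt e (s x) i j} := by
  unfold z5_lt
  rcases e.symm i with (⟨⟩ | a | ⟨⟩) <;> rcases e.symm j with (⟨⟩ | b | ⟨⟩) <;>
    simp [z5_cap, isClopen_empty, isClopen_univ, hs]

theorem z5_denum {α : Type*} [Countable α] [Infinite α] : Nonempty (Unit ⊕ (α ⊕ Unit) ≃ ℕ) := by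
  have h1 : Infinite (Unit ⊕ (α ⊕ Unit)) :=
    Infinite.of_injective (fun a : α => (Sum.inr (Sum.inl a) : Unit ⊕ (α ⊕ Unit)))
      (fun a b h => Sum.inl_injective (Sum.inr_injective h))
  obtain ⟨h⟩ := nonempty_denumerable (Unit ⊕ (α ⊕ Unit))
  exact ⟨Denumerable.eqv _⟩

theorem z5_cong {α β : Type*} {s : α → α → Prop} {t : β → β → Prop} (h : s ≃r t)
    (e : Unit ⊕ (α ⊕ Unit) ≃ ℕ) (e' : Unit ⊕ (β ⊕ Unit) ≃ ℕ) : Nonempty (z5_lt e s ≃r z5_lt e' t) :=
  ⟨((z5_iso e s).trans (RelIso.sumLexCongr (RelIso.refl _)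
    (RelIso.sumLexCongr h (RelIso.refl _)))).trans (z5_iso e' t).symm⟩

/-- **Z5.** The two families of orders on `ℕ` attached to a family of orders on a countable set `Ω`.

Proof. The set `WA = Unit ⊕ (Ω →₀ ℤ) ⊕ Unit` with the relation
`Sum.Lex (emptyRelation) (Sum.Lex (NLt (r x)) emptyRelation)` is the order `1 + ℤ^Ω + 1`, and
`WB = Unit ⊕ (ℚ × (Ω →₀ ℤ)) ⊕ Unit` with `Sum.Lex emptyRelation (Sum.Lex (Prod.Lex (<) (NLt (r x)))
emptyRelation)` is `1 + ℚ × ℤ^Ω + 1`. (One may also define the relations on these sets by cases.)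
Both sets are countable and infinite (`Ω` is nonempty); fix bijections with `ℕ`
(`nonempty_denumerable`, independent of `x`), and transport the relations. Strict total orders by
`nlt_sto`; clopen by `nlt_clopen`; isomorphic for ill-founded `r x` by `nlt_illfounded`
(`RelIso.sumLexCongr`). `IsA`, `IsB`: `b` and `t` are the codes of the first and the last point, `ι`
the code of the functions; the convexity `BlockEmb.conv` holds since the elements between two
elements of one block belong to the block. -/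
theorem exists_AB {X : Type*} [TopologicalSpace X] {Ω : Type*} [Countable Ω] [Nonempty Ω]
    (r : X → Ω → Ω → Prop) (hr : ∀ x, IsStrictTotalOrder Ω (r x))
    (hc : ∀ i j, IsClopen {x | r x i j}) :
    ∃ ltA ltB : X → ℕ → ℕ → Prop, (∀ x, IsStrictTotalOrder ℕ (ltA x)) ∧
      (∀ x, IsStrictTotalOrder ℕ (ltB x)) ∧ (∀ i j, IsClopen {x | ltA x i j}) ∧
      (∀ i j, IsClopen {x | ltB x i j}) ∧
      (∀ x, ¬ WellFounded (r x) → Nonempty (ltA x ≃r ltB x)) ∧
      (∀ x, IsA (ltA x) (r x)) ∧ ∀ x, IsB (ltB x) (r x) := by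
  classical
  have hinf : Infinite (Ω →₀ ℤ) :=
    Infinite.of_injective (fun z : ℤ => Finsupp.single (Classical.arbitrary Ω) z)
      (Finsupp.single_injective _)
  obtain ⟨eA⟩ := z5_denum (α := Ω →₀ ℤ)
  obtain ⟨eB⟩ := z5_denum (α := ℚ × (Ω →₀ ℤ))
  refine ⟨fun x => z5_lt eA (NLt (r x)), fun x => z5_lt eB (Prod.Lex (· < ·) (NLt (r x))),
    fun x => ?_, fun x => ?_, fun i j => ?_, fun i j => ?_, fun x hx => ?_, fun x => ?_,
    fun x => ?_⟩
  · have := hr x
    have := nlt_sto (r x)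
    exact z5_lt_sto eA _
  · have := hr x
    have := nlt_sto (r x)
    have := z5_prod_sto ((· < ·) : ℚ → ℚ → Prop) (NLt (r x))
    exact z5_lt_sto eB _
  · exact z5_clopen eA (fun x => NLt (r x)) (fun a b => nlt_clopen r hc a b) i j
  · refine z5_clopen eB (fun x => Prod.Lex (· < ·) (NLt (r x))) ?_ i j
    rintro ⟨q, f⟩ ⟨q', g⟩
    simp only [Prod.lex_def]
    by_cases h1 : q < q'
    · simp [h1, isClopen_univ]
    · by_cases h2 : q = q'
      · simpa [h1, h2] using nlt_clopen r hc f g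
      · simp [h1, h2, isClopen_empty]
  · have := hr x
    obtain ⟨e⟩ := nlt_illfounded (r x) hx
    exact z5_cong e eA eB
  · refine ⟨eA (Sum.inl ()), eA (Sum.inr (Sum.inr ())), fun f => eA (Sum.inr (Sum.inl f)),
      ⟨fun f g h => ?_, fun f g i h1 h2 => ?_⟩, fun f => ?_, fun f => ?_, fun i => ?_⟩
    · simpa [z5_lt, z5_cap] using h
    · unfold z5_lt at h1 h2
      obtain ⟨y, rfl⟩ := eA.surjective i
      simp only [Equiv.symm_apply_apply] at h1 h2
      rcases y with (⟨⟩ | a | ⟨⟩)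
      · simp [z5_cap] at h1
      · exact ⟨a, rfl⟩
      · simp [z5_cap] at h2
    · simp [z5_lt, z5_cap]
    · simp [z5_lt, z5_cap]
    · obtain ⟨y, rfl⟩ := eA.surjective i
      rcases y with (⟨⟩ | a | ⟨⟩)
      · exact Or.inl rfl
      · exact Or.inr (Or.inr ⟨a, rfl⟩)
      · exact Or.inr (Or.inl rfl)
  · refine ⟨eB (Sum.inl ()), eB (Sum.inr (Sum.inr ())), fun q f => eB (Sum.inr (Sum.inl (q, f))),
      fun q => ⟨fun f g h => ?_, fun f g i h1 h2 => ?_⟩, fun q q' hq f g => ?_, fun q f => ?_,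
      fun q f => ?_, fun i => ?_⟩
    · simpa [z5_lt, z5_cap, Prod.lex_def] using h
    · unfold z5_lt at h1 h2
      obtain ⟨y, rfl⟩ := eB.surjective i
      simp only [Equiv.symm_apply_apply] at h1 h2
      rcases y with (⟨⟩ | ⟨q', a⟩ | ⟨⟩)
      · simp [z5_cap] at h1
      · simp only [z5_cap, Sum.lex_inr_inr, Sum.lex_inl_inl, Prod.lex_def] at h1 h2
        have hq' : q' = q := by
          rcases h1 with h1 | ⟨h1, -⟩
          · rcases h2 with h2 | ⟨h2, -⟩
            · exact absurd h1 (not_lt.2 h2.le)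
            · exact h2
          · exact h1.symm
        subst hq'
        exact ⟨a, rfl⟩
      · simp [z5_cap] at h2
    · simp [z5_lt, z5_cap, Prod.lex_def, hq]
    · simp [z5_lt, z5_cap]
    · simp [z5_lt, z5_cap]
    · obtain ⟨y, rfl⟩ := eB.surjective i
      rcases y with (⟨⟩ | ⟨q, a⟩ | ⟨⟩)
      · exact Or.inl rfl
      · exact Or.inr (Or.inr ⟨q, a, rfl⟩)
      · exact Or.inr (Or.inl rfl)

end Pool.Agent.Lib.H37C
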