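import Pool.Agent.Lib.H37C.Defs
import Pool.Agent.Lib.H37C.Z5
import Pool.Agent.Lib.H37C.T3

open TopologicalSpace Set Filter Topology MeasureTheory

namespace Pool.Agent.Lib.H37C

/-- **Z6.** The families of orders used in the reduction. `B₀` is a countable set with a
well-founded strict total order `r₀` (a prefix which takes care of the background).

Proof: `exists_LO` gives the orders `lt x` on `ℕ`; put `Ω = B₀ ⊕ ℕ` with `r x = Sum.Lex r₀ (lt x)`,
a strict total order depending continuously on `x`, well-founded if and only if `lt x` is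
(`sumLex_wf`, and the embedding `Sum.inr`). Apply `exists_AB`. -/
theorem exists_orders {B₀ : Type} [Countable B₀] (r₀ : B₀ → B₀ → Prop)
    [IsStrictTotalOrder B₀ r₀] (h₀ : WellFounded r₀) (A : Set (ℕ → Bool)) (hA : AnalyticSet A) :
    ∃ ltA ltB : (ℕ → Bool) → ℕ → ℕ → Prop, (∀ x, IsStrictTotalOrder ℕ (ltA x)) ∧
      (∀ x, IsStrictTotalOrder ℕ (ltB x)) ∧ (∀ i j, IsClopen {x | ltA x i j}) ∧
      (∀ i j, IsClopen {x | ltB x i j}) ∧ (∀ x ∈ A, Nonempty (ltA x ≃r ltB x)) ∧
      ∀ x ∉ A, ∃ r : B₀ ⊕ ℕ → B₀ ⊕ ℕ → Prop, IsStrictTotalOrder (B₀ ⊕ ℕ) r ∧ WellFounded r ∧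
        (∀ b b', r₀ b b' → r (Sum.inl b) (Sum.inl b')) ∧ IsA (ltA x) r ∧ IsB (ltB x) r := by
  obtain ⟨lt, hlt1, hlt2, hlt3⟩ := exists_LO A hA
  have hs : ∀ x, IsStrictTotalOrder (B₀ ⊕ ℕ) (Sum.Lex r₀ (lt x)) := by
    intro x
    have := hlt1 x
    refine { trichotomous := ?_, irrefl := ?_, trans := ?_ }
    · rintro (a | a) (b | b) h1 h2 <;> simp at h1 h2 ⊢
      · rcases trichotomous_of r₀ a b with h3 | h3 | h3
        · exact absurd h3 h1
        · exact h3
        · exact absurd h3 h2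
      · rcases trichotomous_of (lt x) a b with h3 | h3 | h3
        · exact absurd h3 h1
        · exact h3
        · exact absurd h3 h2
    · rintro (a | a) h <;> simp at h
      · exact irrefl_of r₀ _ h
      · exact irrefl_of (lt x) _ h
    · rintro (a | a) (b | b) (c | c) h1 h2 <;> simp at h1 h2 ⊢
      · exact _root_.trans h1 h2
      · exact _root_.trans h1 h2
  have hc : ∀ i j, IsClopen {x | Sum.Lex r₀ (lt x) i j} := by
    rintro (i | i) (j | j)
    · by_cases h : r₀ i j <;> simp [h, isClopen_univ, isClopen_empty]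
    · simp [isClopen_univ]
    · simp [isClopen_empty]
    · simpa using hlt2 i j
  obtain ⟨ltA, ltB, h1, h2, h3, h4, h5, h6, h7⟩ := exists_AB (fun x => Sum.Lex r₀ (lt x)) hs hc
  refine ⟨ltA, ltB, h1, h2, h3, h4, fun x hx => h5 x ?_, fun x hx => ?_⟩
  · intro hw
    refine (hlt3 x).1 hx ?_
    exact (RelEmbedding.sumLexInr r₀ (lt x)).wellFounded hw
  · refine ⟨Sum.Lex r₀ (lt x), hs x, ?_, fun b b' h => Sum.Lex.inl h, h6 x, h7 x⟩
    have hw : WellFounded (lt x) := by
      by_contra h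
      exact hx ((hlt3 x).2 h)
    exact Sum.lex_wf h₀ hw

end Pool.Agent.Lib.H37C
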