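import Pool.Agent.Lib.H37C.B1
import Pool.Agent.Lib.H37C.D3
import Pool.Agent.Lib.H37C.E3
import Pool.Agent.Lib.H37C.G1
import Pool.Agent.Lib.H37C.K6
import Pool.Agent.Lib.H37C.T4
import Pool.Agent.Lib.H37C.Z6

open TopologicalSpace Set Filter Topology MeasureTheory
open scoped Manifold ContDiff
open Pool.Agent.Lib.Helper37.ConjBorel

namespace Pool.Agent.Lib.H37C

variable {n : ℕ} {M : Type*} [TopologicalSpace M] [ChartedSpace (Euc n) M]

/-- A conjugacy maps the fixed points of `F^m` onto the fixed points of `F'^m`. -/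
theorem g2_image {F F' : DiffInf n M} (h : M ≃ₜ M) (hh : ∀ x, h (F x) = F' (h x)) (m : ℕ) :
    h '' {z | (⇑F)^[m] z = z} = {z | (⇑F')^[m] z = z} := by
  have hi : ∀ k z, h ((⇑F)^[k] z) = (⇑F')^[k] (h z) := by
    intro k
    induction k with
    | zero => intro z; rfl
    | succ k ih =>
      intro z
      rw [Function.iterate_succ_apply, Function.iterate_succ_apply, ih, hh]
  ext y
  constructor
  · rintro ⟨z, hz, rfl⟩
    have hz' : (⇑F)^[m] z = z := hz
    show (⇑F')^[m] (h z) = h z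
    rw [← hi, hz']
  · intro hy
    have hy' : (⇑F')^[m] y = y := hy
    refine ⟨h.symm y, ?_, h.apply_symm_apply y⟩
    show (⇑F)^[m] (h.symm y) = h.symm y
    apply h.injective
    rw [hi, h.apply_symm_apply, hy']

/-- first and last element of the order `1 + ℤ^Ω + 1` -/
theorem g2_endsA {lt : ℕ → ℕ → Prop} [IsStrictTotalOrder ℕ lt] {Ω : Type*} {r : Ω → Ω → Prop}
    (h : IsA lt r) : ∃ b t : ℕ, (∀ i, i ≠ b → lt b i) ∧ ∀ i, i ≠ t → lt i t := by
  obtain ⟨b, t, ι, -, hb, ht, hall⟩ := h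
  have hbt : lt b t := _root_.trans (hb 0) (ht 0)
  refine ⟨b, t, fun i hi => ?_, fun i hi => ?_⟩
  · rcases hall i with h | h | ⟨f, h⟩
    · exact absurd h hi
    · rw [h]; exact hbt
    · rw [← h]; exact hb f
  · rcases hall i with h | h | ⟨f, h⟩
    · rw [h]; exact hbt
    · exact absurd h hi
    · rw [← h]; exact ht f

/-- **G2.** Every analytic set is reducible to topological conjugacy on `U`. -/
theorem reduction [T2Space M] [CompactSpace M] [IsManifold (𝓡 n) ∞ M] (hn : 0 < n)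
    {U : Set (DiffInf n M)} (hU : IsOpen U) {f₀ : DiffInf n M} (h₀ : f₀ ∈ U) (hf₀ : HasSpot f₀)
    (A : Set (ℕ → Bool)) (hA : AnalyticSet A) :
    ∃ F : (ℕ → Bool) → U × U, Continuous F ∧
      ∀ x, x ∈ A ↔ TopConj ((F x).1 : DiffInf n M) ((F x).2 : DiffInf n M) := by
  have hMsc : SecondCountableTopology M := by
    obtain ⟨ι, hι, ⟨C⟩⟩ := exists_goodCover (n := n) (M := M)
    exact C.emb.isEmbedding.secondCountableTopology
  obtain ⟨m, e, hS⟩ := exists_spotData f₀ hf₀
  obtain ⟨B₀, r₀, hB1, hB2, hB3, hB4⟩ := exists_prefix (bg f₀ m e)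
  obtain ⟨ltA, ltB, hA1, hB1', hA2, hB2', hiso, hno⟩ := exists_orders r₀ hB3 A hA
  obtain ⟨δ, hδ0, hδ1, G, hGc, hGU, hG⟩ := exists_family (T := (ℕ → Bool) × Bool) f₀ hU h₀ hS.mem
    hS.ball (fun p => if p.2 then ltB p.1 else ltA p.1)
    (by
      rintro ⟨x, _ | _⟩
      · simpa using hA1 x
      · simpa using hB1' x)
    (by
      intro i j
      have h1 : {p : (ℕ → Bool) × Bool | (if p.2 then ltB p.1 else ltA p.1) i j} =
          (Prod.snd ⁻¹' {true} ∩ Prod.fst ⁻¹' {x | ltB x i j}) ∪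
            (Prod.snd ⁻¹' {false} ∩ Prod.fst ⁻¹' {x | ltA x i j}) := by
        ext ⟨x, _ | _⟩ <;> simp
      rw [h1]
      exact (((isClopen_discrete _).preimage continuous_snd).inter
        ((hB2' i j).preimage continuous_fst)).union
          (((isClopen_discrete _).preimage continuous_snd).inter
        ((hA2 i j).preimage continuous_fst)))
  refine ⟨fun x => (⟨G (x, false), hGU _⟩, ⟨G (x, true), hGU _⟩), ?_, fun x => ?_⟩
  · exact ((hGc.comp (continuous_id.prodMk continuous_const)).subtype_mk _).prodMk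
      ((hGc.comp (continuous_id.prodMk continuous_const)).subtype_mk _)
  have hFA : ∀ z, G (x, false) z = f₀ (ext e (psi (ltA x) δ) z) := by
    intro z; simpa using hG (x, false) z
  have hFB : ∀ z, G (x, true) z = f₀ (ext e (psi (ltB x) δ) z) := by
    intro z; simpa using hG (x, true) z
  have hsA := hA1 x
  have hsB := hB1' x
  constructor
  · intro hx
    obtain ⟨π⟩ := hiso x hx
    exact topConj_of_iso hS π hδ0 hδ1 hFA hFB
  · rintro ⟨h, hh⟩
    by_contra hx
    obtain ⟨r, hr1, hr2, hr3, hr4, hr5⟩ := hno x hx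
    obtain ⟨b, t, hb, ht⟩ := g2_endsA hr4
    have hT : TopProp r {z | (⇑(G (x, false)))^[m] z = z} :=
      topProp_of_radData (radData hn hS hb ht hδ0 hδ1 hFA) (topR_of_isA hr2 hr4)
    have hT' := hT.image h
    rw [g2_image h hh m] at hT'
    exact not_topProp hn hS hδ0 hδ1 hFB hB4 hr2 hr3 hr5 hT'

/-- **Main theorem.** -/
theorem main [T2Space M] [CompactSpace M] [IsManifold (𝓡 n) ∞ M] (hn : 0 < n)
    {U : Set (DiffInf n M)} (hU : IsOpen U) (hf : ∃ f₀ ∈ U, HasSpot f₀) :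
    AnalyticSet {p : U × U | TopConj (p.1 : DiffInf n M) (p.2 : DiffInf n M)} ∧
    (∀ A : Set (ℕ → Bool), AnalyticSet A → ∃ F : (ℕ → Bool) → U × U, Continuous F ∧
      ∀ x, x ∈ A ↔ TopConj ((F x).1 : DiffInf n M) ((F x).2 : DiffInf n M)) ∧
    ¬ MeasurableSet[borel (U × U)]
      {p : U × U | TopConj (p.1 : DiffInf n M) (p.2 : DiffInf n M)} := by
  obtain ⟨f₀, h₀, hf₀⟩ := hf
  have hred := fun (A : Set (ℕ → Bool)) (hA : AnalyticSet A) => reduction hn hU h₀ hf₀ A hA
  refine ⟨analyticSet_topConj U hU, hred, fun hB => ?_⟩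
  obtain ⟨A, hA, hAB⟩ := exists_analytic_nonborel
  obtain ⟨F, hF, hFA⟩ := hred A hA
  apply hAB
  let _ : MeasurableSpace (U × U) := borel (U × U)
  have _ : BorelSpace (U × U) := ⟨rfl⟩
  have h := hF.measurable hB
  have e : A = F ⁻¹' {p : U × U | TopConj (p.1 : DiffInf n M) (p.2 : DiffInf n M)} := by
    ext x; exact hFA x
  rw [e]
  exact h

end Pool.Agent.Lib.H37C
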