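import Pool.Agent.Lib.H37C.TDefs

open TopologicalSpace Set Filter Topology

namespace Pool.Agent.Lib.H37C

theorem t1_inj {s t : List ℕ} (h : ∀ i, pad s i = pad t i) : s = t := by
  apply List.ext_getElem?
  intro i
  have h1 := h i
  unfold pad at h1
  cases hs : s[i]? with
  | none =>
    cases ht : t[i]? with
    | none => rfl
    | some b =>
      rw [hs, ht] at h1
      exact absurd h1.symm (WithTop.coe_ne_top)
  | some a =>
    cases ht : t[i]? with
    | none =>
      rw [hs, ht] at h1
      exact absurd h1 (WithTop.coe_ne_top)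
    | some b =>
      rw [hs, ht] at h1
      have h2 : a = b := WithTop.coe_injective h1
      rw [h2]

theorem t1_pre_lt (y : ℕ → ℕ) {k j : ℕ} (h : j < k) : pad (pre y k) j = (y j : WithTop ℕ) := by
  have h1 : (pre y k)[j]? = some (y j) := by
    unfold pre
    rw [List.getElem?_map, List.getElem?_range h]
    rfl
  unfold pad
  rw [h1]

theorem t1_pre_ge (y : ℕ → ℕ) {k j : ℕ} (h : k ≤ j) : pad (pre y k) j = ⊤ := by
  have h1 : (pre y k)[j]? = none := by
    unfold pre
    rw [List.getElem?_eq_none]
    simpa using h
  unfold pad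
  rw [h1]

theorem t1_tri (s t : List ℕ) (h1 : ¬ KB s t) (h2 : ¬ KB t s) : s = t := by
  classical
  by_contra hne
  have hex : ∃ i, pad s i ≠ pad t i := by
    by_contra hcon
    push Not at hcon
    exact hne (t1_inj hcon)
  have hf := Nat.find_spec hex
  have hm : ∀ j < Nat.find hex, pad s j = pad t j := fun j hj => by
    have := Nat.find_min hex hj
    push Not at this
    exact this
  rcases lt_or_gt_of_ne hf with h | h
  · exact h1 ⟨_, hm, h⟩
  · exact h2 ⟨_, fun j hj => (hm j hj).symm, h⟩

theorem t1_irrefl (s : List ℕ) : ¬ KB s s := by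
  rintro ⟨i, -, h⟩
  exact lt_irrefl _ h

theorem t1_trans (s t u : List ℕ) (h1 : KB s t) (h2 : KB t u) : KB s u := by
  obtain ⟨i, hi, hi'⟩ := h1
  obtain ⟨j, hj, hj'⟩ := h2
  rcases lt_trichotomy i j with h | h | h
  · refine ⟨i, fun l hl => (hi l hl).trans (hj l (hl.trans h)), ?_⟩
    rw [← hj i h]
    exact hi'
  · subst h
    exact ⟨i, fun l hl => (hi l hl).trans (hj l hl), hi'.trans hj'⟩
  · refine ⟨j, fun l hl => (hi l (hl.trans h)).trans (hj l hl), ?_⟩
    rw [hi j h]
    exact hj'

/-- **T1.** The Kleene-Brouwer order is a strict total order on all lists of natural numbers.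

Proof: `pad` is injective (the length of `s` is the first index with `pad s i = ⊤`, and the entries
are the values before; `List.ext_getElem?`). Two different functions `ℕ → WithTop ℕ` have a first
difference (`Nat.find`), which gives trichotomy; irreflexivity is clear; transitivity: the first
difference of `s` and `u` is at the minimum of the two indices. -/
theorem kb_sto : IsStrictTotalOrder (List ℕ) KB := by
  exact
    { trichotomous := t1_tri
      irrefl := t1_irrefl
      trans := t1_trans }

/-- **T1, second part.** Initial segments: `pre y (k+1)` is smaller than `pre y k`.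

Proof: the padded sequences agree below `k`; at `k` the first one has the value `y k < ⊤`. -/
theorem kb_pre (y : ℕ → ℕ) (k : ℕ) : KB (pre y (k + 1)) (pre y k) := by
  refine ⟨k, fun j hj => ?_, ?_⟩
  · rw [t1_pre_lt y hj, t1_pre_lt y (Nat.lt_succ_of_lt hj)]
  · rw [t1_pre_lt y (Nat.lt_succ_self k), t1_pre_ge y le_rfl]
    exact WithTop.coe_lt_top _

end Pool.Agent.Lib.H37C
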