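import Pool.Agent.Lib.H37C.TDefs
import Pool.Agent.Lib.H37C.T1

open TopologicalSpace Set Filter Topology

namespace Pool.Agent.Lib.H37C

theorem t1b_some {s : List ℕ} {i a : ℕ} (h : pad s i = (a : WithTop ℕ)) : s[i]? = some a := by
  unfold pad at h
  cases hs : s[i]? with
  | none =>
    rw [hs] at h
    exact absurd h.symm (WithTop.coe_ne_top)
  | some b =>
    rw [hs] at h
    have h2 : b = a := WithTop.coe_injective h
    rw [h2]

theorem t1b_none {s : List ℕ} {i j : ℕ} (h : pad s i = ⊤) (hij : i ≤ j) : pad s j = ⊤ := by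
  have h1 : s[i]? = none := by
    unfold pad at h
    cases hs : s[i]? with
    | none => rfl
    | some b =>
      rw [hs] at h
      exact absurd h (WithTop.coe_ne_top)
  have h2 : s[j]? = none := by
    rw [List.getElem?_eq_none_iff] at h1 ⊢
    exact h1.trans hij
  unfold pad
  rw [h2]

theorem t1b_step {f : ℕ → ℕ → WithTop ℕ} (hd : ∀ n, ∃ i, (∀ j < i, f (n + 1) j = f n j) ∧ f (n + 1) i < f n i) (i : ℕ) :
    ∃ N, ∀ n, N ≤ n → ∀ j < i, f n j = f N j := by
  induction i with
  | zero => exact ⟨0, fun n _ j hj => absurd hj (Nat.not_lt_zero j)⟩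
  | succ i ih =>
    obtain ⟨N, hN⟩ := ih
    have h1 : ∀ m, f (N + m + 1) i ≤ f (N + m) i := by
      intro m
      obtain ⟨k, hk, hk'⟩ := hd (N + m)
      rcases lt_trichotomy k i with h | h | h
      · rw [hN (N + m + 1) (by omega) k h, hN (N + m) (by omega) k h] at hk'
        exact absurd hk' (lt_irrefl _)
      · subst h
        exact hk'.le
      · exact (hk i h).le
    have hanti : Antitone fun m => f (N + m) i := antitone_nat_of_succ_le h1
    obtain ⟨x, ⟨M, hM⟩, hmin⟩ := WellFounded.has_min (wellFounded_lt (α := WithTop ℕ)) (Set.range fun m => f (N + m) i) ⟨_, 0, rfl⟩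
    have hM' : f (N + M) i = x := hM
    refine ⟨N + M, fun n hn j hj => ?_⟩
    rcases Nat.lt_succ_iff_lt_or_eq.1 hj with h | h
    · rw [hN n (by omega) j h, hN (N + M) (by omega) j h]
    · subst h
      obtain ⟨m, rfl⟩ : ∃ m, n = N + m := ⟨n - N, by omega⟩
      refine le_antisymm (hanti (show M ≤ m by omega)) ?_
      rw [hM']
      exact not_lt.1 (hmin _ ⟨m, rfl⟩)

/-- **T1B.** A strictly descending sequence for the Kleene-Brouwer order in a tree gives an infinite
branch.

Proof. Claim: for each `i` there is `N i` such that for all `n ≥ N i` and all `j < i`,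
`pad (s n) j = pad (s (N i)) j`, that is, the first `i` coordinates are eventually constant:
induction on `i`. If the coordinates `j < i` are constant for `n ≥ N`, then for `n ≥ N`, by
`KB (s (n+1)) (s n)`, the first difference of `s (n+1)` and `s n` is at an index `≥ i`, hence
`pad (s (n+1)) i ≤ pad (s n) i`; a non-increasing sequence in the well-order `WithTop ℕ` is
eventually constant (take a minimum of the values, `WellFounded.min`, or induction).
Let `z i` be the eventual value of the coordinate `i`. If `z i = ⊤` for some `i`, take `n ≥ N (i+1)`: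
all `s n` with `n ≥ N (i+1)` have the same first coordinates `j ≤ i`, and the coordinate `i` is `⊤`,
so `s n` has length at most `i` and is determined by its first `i` coordinates; hence
`s n = s (n+1)`, a contradiction to irreflexivity (`kb_sto`). So `z i = y i` is a natural number,
and for `n ≥ N k` the list `pre y k` is an initial segment of `s n`, hence in `T`. -/
theorem hasBranch_of_desc (T : Set (List ℕ)) (hT : IsTree T) (s : ℕ → List ℕ)
    (hs : ∀ n, s n ∈ T) (hd : ∀ n, KB (s (n + 1)) (s n)) : HasBranch T := by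
  have hd' : ∀ n, ∃ i, (∀ j < i, pad (s (n + 1)) j = pad (s n) j) ∧ pad (s (n + 1)) i < pad (s n) i := hd
  choose N hN using t1b_step (f := fun n j => pad (s n) j) hd'
  have hN' : ∀ k n, N k ≤ n → ∀ j < k, pad (s n) j = pad (s (N k)) j := hN
  by_cases hz : ∃ i, pad (s (N (i + 1))) i = ⊤
  · obtain ⟨i, hi⟩ := hz
    exfalso
    have h1 : ∀ n, N (i + 1) ≤ n → pad (s n) i = ⊤ := fun n hn => by
      rw [hN' (i + 1) n hn i (Nat.lt_succ_self i), hi]
    have h2 : s (N (i + 1) + 1) = s (N (i + 1)) := by
      apply t1_inj
      intro j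
      rcases Nat.lt_or_ge j (i + 1) with h | h
      · exact hN' (i + 1) _ (Nat.le_succ _) j h
      · rw [t1b_none (h1 _ (Nat.le_succ _)) (by omega), t1b_none (h1 _ le_rfl) (by omega)]
    have h3 := hd (N (i + 1))
    rw [h2] at h3
    exact t1_irrefl _ h3
  · push Not at hz
    have hy : ∀ i, ∃ a : ℕ, pad (s (N (i + 1))) i = (a : WithTop ℕ) := fun i => by
      obtain ⟨a, ha⟩ := WithTop.ne_top_iff_exists.1 (hz i)
      exact ⟨a, ha.symm⟩
    choose y hy' using hy
    refine ⟨y, fun k => ?_⟩
    have h1 : ∀ j < k, pad (s (N k)) j = (y j : WithTop ℕ) := fun j hj => by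
      have h2 := hN' k (max (N k) (N (j + 1))) (le_max_left _ _) j hj
      have h3 := hN' (j + 1) (max (N k) (N (j + 1))) (le_max_right _ _) j (Nat.lt_succ_self j)
      rw [← h2, h3, hy']
    have h2 : pre y k = (s (N k)).take k := by
      apply List.ext_getElem?
      intro j
      rcases Nat.lt_or_ge j k with h | h
      · rw [List.getElem?_take_of_lt h, t1b_some (h1 j h)]
        exact t1b_some (t1_pre_lt y h)
      · have h3 : (pre y k)[j]? = none := by
          unfold pre
          rw [List.getElem?_eq_none]
          simpa using h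
        rw [h3, List.getElem?_take_eq_none h]
    rw [h2]
    exact hT _ (hs (N k)) _ (List.take_prefix k _)

end Pool.Agent.Lib.H37C
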