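import Pool.Agent.Lib.H37C.TDefs
import Pool.Agent.Lib.H37C.T1
import Pool.Agent.Lib.H37C.T1B

open TopologicalSpace Set Filter Topology

namespace Pool.Agent.Lib.H37C

/-- **T2.** The order `TOrd T` is a strict total order (for every set `T` of lists).

Proof: it is the sum of the order of the codes on the complement of `T` and of the order `KB` on `T`
(`kb_sto`); case distinctions. -/
theorem tord_sto (T : Set (List ℕ)) : IsStrictTotalOrder (List ℕ) (TOrd T) := by
  refine { trichotomous := ?_, irrefl := ?_, trans := ?_ }
  · intro s t h1 h2
    unfold TOrd at h1 h2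
    push Not at h1 h2
    by_cases hs : s ∈ T
    · by_cases ht : t ∈ T
      · exact t1_tri s t (h1.2.2 hs ht) (h2.2.2 ht hs)
      · exact absurd hs (h2.1 ht)
    · by_cases ht : t ∈ T
      · exact absurd ht (h1.1 hs)
      · exact Encodable.encode_injective
          (le_antisymm (h2.2.1 ht hs) (h1.2.1 hs ht))
  · rintro s (h | h | h)
    · exact h.1 h.2
    · exact lt_irrefl _ h.2.2
    · exact t1_irrefl s h.2.2
  · rintro s t u (h | h | h) (g | g | g)
    · exact absurd h.2 g.1
    · exact absurd h.2 g.1
    · exact Or.inl ⟨h.1, g.2.1⟩
    · exact Or.inl ⟨h.1, g.2⟩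
    · exact Or.inr (Or.inl ⟨h.1, g.2.1, h.2.2.trans g.2.2⟩)
    · exact absurd g.1 h.2.1
    · exact absurd h.2.1 g.1
    · exact absurd h.2.1 g.1
    · exact Or.inr (Or.inr ⟨h.1, g.2.1, t1_trans s t u h.2.2 g.2.2⟩)

/-- **T2, second part.** The order `TOrd T` of a tree `T` is not well-founded if and only if `T` has
an infinite branch.

Proof. If `T` has a branch `y`, the sequence `pre y k` is strictly descending (`kb_pre`), and no
relation with a descending sequence is well-founded (`RelEmbedding.wellFounded_iff_isEmpty`, or
`WellFounded.not_...`). Conversely, if it is not well-founded, there is a sequence with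
`TOrd T (s (n+1)) (s n)` for all `n` (`RelEmbedding.wellFounded_iff_isEmpty`,
`exists_not_acc_lt_of_not_acc`...). If all `s n` are not in `T`, the codes descend forever, a
contradiction. If some `s n` is not in `T` then all later ones are not in `T`, same contradiction.
So all `s n` are in `T` and `hasBranch_of_desc` applies. -/
theorem tord_wf (T : Set (List ℕ)) (hT : IsTree T) : ¬ WellFounded (TOrd T) ↔ HasBranch T := by
  rw [wellFounded_iff_isEmpty_descending_chain, not_isEmpty_iff]
  constructor
  · rintro ⟨⟨f, hf⟩⟩
    have hmem : ∀ n, f n ∈ T := by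
      by_contra hcon
      push Not at hcon
      obtain ⟨n, hn⟩ := hcon
      have hall : ∀ m, f (n + m) ∉ T := by
        intro m
        induction m with
        | zero => exact hn
        | succ m ih =>
          rcases hf (n + m) with h | h | h
          · exact absurd h.2 ih
          · exact h.1
          · exact absurd h.2.1 ih
      have hdec : ∀ m, Encodable.encode (f (n + (m + 1))) < Encodable.encode (f (n + m)) := by
        intro m
        rcases hf (n + m) with h | h | h
        · exact absurd h.2 (hall m)
        · exact h.2.2
        · exact absurd h.2.1 (hall m)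
      have hbd : ∀ m, Encodable.encode (f (n + m)) + m ≤ Encodable.encode (f (n + 0)) := by
        intro m
        induction m with
        | zero => exact le_rfl
        | succ m ih =>
          have := hdec m
          omega
      have := hbd (Encodable.encode (f (n + 0)) + 1)
      omega
    refine hasBranch_of_desc T hT f hmem ?_
    intro n
    rcases hf n with h | h | h
    · exact absurd (hmem _) h.1
    · exact absurd (hmem _) h.1
    · exact h.2.2
  · rintro ⟨y, hy⟩
    exact ⟨⟨fun k => pre y k, fun k => Or.inr (Or.inr ⟨hy _, hy _, kb_pre y k⟩)⟩⟩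

/-- **T2, third part.** If the set `{x | s ∈ T x}` is clopen for all lists `s`, then
`{x | TOrd (T x) s t}` is clopen for all `s, t`. -/
theorem tord_clopen {X : Type*} [TopologicalSpace X] (T : X → Set (List ℕ))
    (hT : ∀ s, IsClopen {x | s ∈ T x}) (s t : List ℕ) : IsClopen {x | TOrd (T x) s t} := by
  have hc : ∀ p : Prop, IsClopen {_x : X | p} := by
    intro p
    by_cases h : p
    · simpa [h] using isClopen_univ
    · simpa [h] using isClopen_empty
  have e : {x | TOrd (T x) s t} = ({x | s ∈ T x}ᶜ ∩ {x | t ∈ T x}) ∪
      (({x | s ∈ T x}ᶜ ∩ ({x | t ∈ T x}ᶜ ∩ {_x | Encodable.encode s < Encodable.encode t})) ∪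
        ({x | s ∈ T x} ∩ ({x | t ∈ T x} ∩ {_x | KB s t}))) := by
    ext x
    rfl
  rw [e]
  exact ((hT s).compl.inter (hT t)).union
    (((hT s).compl.inter ((hT t).compl.inter (hc _))).union ((hT s).inter ((hT t).inter (hc _))))

end Pool.Agent.Lib.H37C
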