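import Mathlib

/-!
# Trees of finite sequences and the Kleene-Brouwer order: definitions
-/

open TopologicalSpace Set Filter Topology

namespace Pool.Agent.Lib.H37C

/-- a tree: a set of lists closed under initial segments -/
def IsTree (T : Set (List ℕ)) : Prop := ∀ s ∈ T, ∀ t, t <+: s → t ∈ T

/-- the list of the first `k` values of `y` -/
def pre (y : ℕ → ℕ) (k : ℕ) : List ℕ := (List.range k).map y

/-- the tree has an infinite branch -/
def HasBranch (T : Set (List ℕ)) : Prop := ∃ y : ℕ → ℕ, ∀ k, pre y k ∈ T

/-- the list `s` followed by infinitely many symbols `∞` -/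
def pad (s : List ℕ) (i : ℕ) : WithTop ℕ :=
  match s[i]? with
  | none => ⊤
  | some a => (a : WithTop ℕ)

/-- the Kleene-Brouwer order: `s < t` if `s` is smaller than `t` at the first difference of the
padded sequences; so a longer list is smaller than its initial segments -/
def KB (s t : List ℕ) : Prop := ∃ i, (∀ j < i, pad s j = pad t j) ∧ pad s i < pad t i

open Classical in
/-- The linear order of all lists attached to a tree `T`: first the lists which are not in `T`, in
the order of their codes, then the members of `T` in the Kleene-Brouwer order. -/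
def TOrd (T : Set (List ℕ)) (s t : List ℕ) : Prop :=
  (s ∉ T ∧ t ∈ T) ∨ (s ∉ T ∧ t ∉ T ∧ Encodable.encode s < Encodable.encode t) ∨
    (s ∈ T ∧ t ∈ T ∧ KB s t)

end Pool.Agent.Lib.H37C
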